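import Pool.Agent.Lib.MP_6adaea_nt.V.FF2

/-!
Dimension of spaces of functions with bounded poles and the theorem of Northcott.
-/

set_option linter.unusedSectionVars false

namespace Pool.Agent.Lib.MP_6adaea_nt
open Module Polynomial

/-- the functions that vanish to order at least `a` at `v` -/
def north_sub {k K : Type} [Field k] [Field K] [Algebra k K] (v : Place k K) (a : ℤ) :
    Submodule k K where
  carrier := {f | v.Ge f a}
  add_mem' := fun ha hb => Place.Ge.add ha hb
  zero_mem' := v.ge_zero a
  smul_mem' := fun c _ hf => Place.Ge.smul hf c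

/-- descent of a linear relation between fixed elements -/
theorem north_descent {k K ι : Type} [Field k] [Field K] [Algebra k K] [Fintype ι]
    (γ : K →+* K) {q : ℕ} (hq : 1 < q)
    (hγ : ∀ c : k, ∃ d : k, γ (algebraMap k K c) = algebraMap k K d ∧ d ^ q = c)
    (a : ι → K) (ha : ∀ i, γ (a i) = a i) (n : ℕ) :
    ∀ c : ι → k, c ≠ 0 → ∑ i, c i • a i = 0 → (Function.support c).ncard = n →
      ∃ c : ι → k, c ≠ 0 ∧ ∑ i, c i • a i = 0 ∧ ∀ i, c i ^ q = c i := by
  induction n using Nat.strong_induction_on with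
  | _ n ih =>
  intro c0 hc0 hs0 hn0
  obtain ⟨i0, hi0⟩ := Function.ne_iff.mp hc0
  have hi0' : c0 i0 ≠ 0 := hi0
  let c : ι → k := fun i => (c0 i0)⁻¹ * c0 i
  have hc1 : c i0 = 1 := inv_mul_cancel₀ hi0'
  have hs : ∑ i, c i • a i = 0 := by
    simp only [c, mul_smul]
    rw [← Finset.smul_sum, hs0, smul_zero]
  have hsupp : Function.support c ⊆ Function.support c0 := fun i hi h => hi (by simp [c, h])
  choose d hd1 hd2 using fun i => hγ (c i)
  have hsd : ∑ i, d i • a i = 0 := by
    have := congrArg γ hs
    rw [map_sum, map_zero] at this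
    rw [← this]
    refine Finset.sum_congr rfl fun i _ => ?_
    rw [Algebra.smul_def, Algebra.smul_def, map_mul, hd1, ha]
  have hd0 : d i0 = 1 := by
    have := hd1 i0
    rw [hc1, map_one, map_one] at this
    exact (algebraMap k K).injective (by rw [← this, map_one])
  by_cases hcd : c - d = 0
  · have hcd' : c = d := sub_eq_zero.mp hcd
    refine ⟨c, fun h => ?_, hs, fun i => ?_⟩
    · have := congrFun h i0
      rw [hc1] at this
      exact one_ne_zero this
    · have := hd2 i
      rwa [← hcd'] at this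
  · refine ih _ ?_ (c - d) hcd ?_ rfl
    · rw [← hn0]
      refine Set.ncard_lt_ncard ⟨fun i hi => hsupp fun h => hi ?_, fun h => ?_⟩ (Set.toFinite _)
      · have h2 := hd2 i
        rw [h] at h2
        have h3 : d i = 0 := pow_eq_zero_iff (by omega) |>.mp h2
        simp [h, h3]
      · exact h hi0' (by simp [hc1, hd0])
    · simp only [Pi.sub_apply, sub_smul, Finset.sum_sub_distrib, hs, hsd, sub_zero]

/-- a nontrivial relation has finitely many solutions -/
theorem north_roots {k K : Type} [Field k] [Field K] [Algebra k K] {t : K}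
    (ht : Transcendental k t) {I J : ℕ} (c : Fin I × Fin J → k) (hc : c ≠ 0) :
    {x : K | ∑ i, c i • (t ^ (i.1 : ℕ) * x ^ (i.2 : ℕ)) = 0}.Finite := by
  classical
  let P : K[X] := ∑ i : Fin I × Fin J, monomial (i.2 : ℕ) (c i • t ^ (i.1 : ℕ))
  have hP : P ≠ 0 := by
    intro h
    apply hc
    funext ⟨i, j⟩
    have h1 := congrArg (fun f : K[X] => f.coeff j) h
    simp only [P, finsetSum_coeff, coeff_monomial, coeff_zero, Fintype.sum_prod_type,
      Fin.val_inj, Finset.sum_ite_eq', Finset.mem_univ, if_true] at h1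
    have h2 : (∑ i : Fin I, monomial (i : ℕ) (c (i, j)) : k[X]) = 0 := by
      refine transcendental_iff.mp ht _ ?_
      rw [map_sum, ← h1]
      refine Finset.sum_congr rfl fun i _ => ?_
      rw [aeval_monomial, Algebra.smul_def]
    have h3 := congrArg (fun f : k[X] => f.coeff i) h2
    simpa only [finsetSum_coeff, coeff_monomial, coeff_zero, Fin.val_inj, Finset.sum_ite_eq',
      Finset.mem_univ, if_true, Pi.zero_apply] using h3
  refine (Polynomial.finite_setOfPred_isRoot hP).subset fun x hx => ?_
  have hx' : ∑ i, c i • (t ^ (i.1 : ℕ) * x ^ (i.2 : ℕ)) = 0 := hx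
  show P.eval x = 0
  rw [← hx', eval_finsetSum]
  refine Finset.sum_congr rfl fun i _ => ?_
  rw [eval_monomial, smul_mul_assoc]

section
variable {k K : Type} [Field k] [Field K] [Algebra k K] [IsAlgClosed k] [IsFF k K]
  (p : ℕ) [Fact p.Prime] [CharP k p]
include p

/-- Induction on `n`. If `m = 0` all `f i` are constants (`IsFF.pole`). Otherwise pick `v` with
`m v > 0`; the residues of `π ^ (m v) * f i` define a linear form on the span whose kernel has
codimension `≤ 1` and satisfies the bound for `m - single v 1`. -/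
theorem IsFF.finrank_le (n : ℕ) (m : Place k K →₀ ℕ) (hm : (m.sum fun _ a => a) ≤ n)
    (U : Submodule k K) [FiniteDimensional k U]
    (h : ∀ f ∈ U, ∀ v : Place k K, v.Ge f (-(m v : ℤ))) :
    finrank k U ≤ n + 1 := by
  classical
  have one : ∀ f : K, finrank k (Submodule.span k {f}) ≤ 1 := fun f => by
    simpa using finrank_span_le_card (R := k) ({f} : Set K)
  have zero : ∀ (U : Submodule k K), (∀ f ∈ U, ∀ v : Place k K, v.Ge f 0) → finrank k U ≤ 1 := by
    intro U h
    refine le_trans (Submodule.finrank_mono (t := Submodule.span k {(1 : K)}) fun f hf => ?_)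
      (one 1)
    obtain ⟨c, rfl⟩ := IsFF.pole p (h f hf)
    exact Submodule.mem_span_singleton.mpr ⟨c, by rw [Algebra.smul_def, mul_one]⟩
  induction n generalizing m U with
  | zero =>
    refine zero U fun f hf v => ?_
    have h0 : m v = 0 := by
      by_contra h0
      have := Finset.single_le_sum (f := fun a => m a) (fun _ _ => Nat.zero_le _)
        (Finsupp.mem_support_iff.mpr h0)
      have h2 : ∑ a ∈ m.support, m a ≤ 0 := hm
      omega
    simpa [h0] using h f hf v
  | succ n ih =>
    by_cases h0 : m = 0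
    · refine (zero U fun f hf v => ?_).trans (by omega)
      simpa [h0] using h f hf v
    obtain ⟨v, hv⟩ := Finsupp.ne_iff.mp h0
    have hv' : m v ≠ 0 := hv
    have hle : Finsupp.single v 1 ≤ m := Finsupp.single_le_iff.mpr (by omega)
    obtain ⟨m', rfl⟩ := exists_add_of_le hle
    have hm' : (m'.sum fun _ a => a) ≤ n := by
      rw [Finsupp.sum_add_index' (fun _ => rfl) (fun _ _ _ => rfl),
        Finsupp.sum_single_index rfl] at hm
      omega
    have h1 : finrank k (U ⊓ north_sub v (-(m' v : ℤ)) : Submodule k K) ≤ n + 1 := by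
      refine ih m' hm' _ fun f hf w => ?_
      by_cases hw : w = v
      · subst hw
        exact hf.2
      · simpa [Finsupp.single_eq_of_ne hw] using h f hf.1 w
    have hU : ∀ f ∈ U, v.Ge f (-(m' v : ℤ) - 1) := fun f hf => by
      have := h f hf v
      rw [Finsupp.add_apply, Finsupp.single_eq_same] at this
      refine this.mono (le_of_eq ?_)
      push_cast
      ring
    by_cases h2 : U ≤ north_sub v (-(m' v : ℤ))
    · rw [inf_eq_left.mpr h2] at h1
      omega
    obtain ⟨g, hg, hg'⟩ := SetLike.not_le_iff_exists.mp h2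
    obtain ⟨g0, hg1⟩ := Place.not_ge_iff.mp hg'
    have hg2 := (hU g hg).le g0
    have h3 : U ≤ (U ⊓ north_sub v (-(m' v : ℤ))) ⊔ Submodule.span k {g} := by
      intro f hf
      have h4 : v.Ge (f / g) 0 := by
        rw [div_eq_mul_inv, Place.ge_mul_iff (inv_ne_zero g0), Place.ord_inv]
        exact (hU f hf).mono (by omega)
      obtain ⟨c, hc⟩ := v.exists_res h4
      have h5 : v.Ge (f - c • g) (-(m' v : ℤ)) := by
        have := hc.mul (v.ge_ord g)
        rw [sub_mul, div_mul_cancel₀ _ g0, ← Algebra.smul_def] at this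
        exact this.mono (by omega)
      have h6 : f = (f - c • g) + c • g := by ring
      rw [h6]
      exact Submodule.add_mem_sup ⟨U.sub_mem hf (U.smul_mem c hg), h5⟩
        (Submodule.smul_mem _ c (Submodule.mem_span_singleton_self g))
    have h7 := Submodule.finrank_mono h3
    have h8 := Submodule.finrank_add_le_finrank_add_finrank
      (U ⊓ north_sub v (-(m' v : ℤ))) (Submodule.span k {g})
    have h9 := one g
    omega

/-- the divisor of poles -/
theorem north_poles (x : K) : ∃ m : Place k K →₀ ℕ, (∀ v : Place k K, v.Ge x (-(m v : ℤ))) ∧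
    ((m.sum fun _ a => a : ℕ) : ℤ) = ∑ v ∈ m.support, -v.ord x := by
  have hfin : (Function.support fun v : Place k K => (-v.ord x).toNat).Finite :=
    (IsFF.fin p x).subset fun v hv h => hv (by simp [h])
  refine ⟨Finsupp.ofSupportFinite _ hfin, fun v => Place.Ge.of_le ?_, ?_⟩
  · rw [Finsupp.ofSupportFinite_coe]
    omega
  · rw [Finsupp.sum, Nat.cast_sum]
    refine Finset.sum_congr rfl fun v hv => ?_
    rw [Finsupp.mem_support_iff] at hv
    rw [Finsupp.ofSupportFinite_coe] at hv ⊢
    omega

/-- Northcott. Let `h` bound the poles of `t`. The monomials `t ^ i * x ^ j`, `i ≤ 2 * C + 1`,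
`j ≤ 2 * h + 1`, are linearly dependent over `k` by `finrank_le`. A relation with minimal support
and one coefficient `1` is fixed by `γ`, so its coefficients satisfy `c ^ q = c`: finitely many
possibilities, each a nonzero polynomial equation for `x` over `K` (`t` is transcendental). -/
theorem IsFF.northcott (γ : K →+* K) {q : ℕ} (hq : 1 < q)
    (hγ : ∀ c : k, ∃ d : k, γ (algebraMap k K c) = algebraMap k K d ∧ d ^ q = c) {t : K}
    (ht : Transcendental k t) (h1 : γ t = t) (C : ℕ) :
    {x : K | γ x = x ∧ ∀ S : Finset (Place k K), ∑ v ∈ S, -v.ord x ≤ C}.Finite := by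
  classical
  obtain ⟨mt, hmt, -⟩ := north_poles (k := k) p t
  set h : ℕ := mt.sum fun _ a => a with hh
  have hF : {c : k | c ^ q = c}.Finite := by
    have hP : (X ^ q - X : k[X]) ≠ 0 := FiniteField.X_pow_card_sub_X_ne_zero k hq
    refine (Polynomial.finite_setOfPred_isRoot hP).subset fun c hc => ?_
    have hc' : c ^ q = c := hc
    simp [hc']
  have hG : {c : Fin (2 * C + 2) × Fin (2 * h + 2) → k | c ≠ 0 ∧ ∀ i, c i ^ q = c i}.Finite :=
    (Set.Finite.pi' fun _ => hF).subset fun c hc => hc.2
  refine (hG.biUnion fun c hc => north_roots ht c hc.1).subset ?_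
  rintro x ⟨hx1, hx2⟩
  obtain ⟨mx, hmx, hmx2⟩ := north_poles (k := k) p x
  have hC : (mx.sum fun _ a => a) ≤ C := by
    have := hx2 mx.support
    rw [← hmx2] at this
    exact_mod_cast this
  let a : Fin (2 * C + 2) × Fin (2 * h + 2) → K := fun i => t ^ (i.1 : ℕ) * x ^ (i.2 : ℕ)
  have hdep : ¬ LinearIndependent k a := by
    intro hli
    have h2 := finrank_span_eq_card hli
    have := FiniteDimensional.span_of_finite k (Set.finite_range a)
    have h3 := IsFF.finrank_le p ((2 * C + 2) * h + (2 * h + 2) * C)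
      ((2 * C + 2) • mt + (2 * h + 2) • mx) ?_ (Submodule.span k (Set.range a)) ?_
    · rw [h2, Fintype.card_prod, Fintype.card_fin, Fintype.card_fin] at h3
      nlinarith
    · have e : ∀ (r : ℕ) (m : Place k K →₀ ℕ),
          ((r • m).sum fun _ a => a) = r * m.sum fun _ a => a := fun r m => by
        rw [Finsupp.sum_smul_index' (fun _ => rfl), Finsupp.mul_sum]
        rfl
      rw [Finsupp.sum_add_index' (fun _ => rfl) (fun _ _ _ => rfl), e, e]
      exact Nat.add_le_add le_rfl (Nat.mul_le_mul_left _ hC)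
    · intro f hf v
      refine (Submodule.span_le (p := north_sub v _)).mpr ?_ hf
      rintro _ ⟨⟨i, j⟩, rfl⟩
      refine (((hmt v).pow i).mul ((hmx v).pow j)).mono ?_
      have hi : ((i : ℕ) : ℤ) ≤ 2 * C + 2 := by exact_mod_cast i.2.le
      have hj : ((j : ℕ) : ℤ) ≤ 2 * h + 2 := by exact_mod_cast j.2.le
      simp only [Finsupp.add_apply, Finsupp.smul_apply, smul_eq_mul]
      push_cast
      nlinarith [Int.natCast_nonneg (mt v), Int.natCast_nonneg (mx v)]
  obtain ⟨g, hg1, i, hg2⟩ := Fintype.not_linearIndependent_iff.mp hdep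
  obtain ⟨c, hc1, hc2, hc3⟩ := north_descent γ hq hγ a (fun i => by simp [a, h1, hx1]) _ g
    (fun e => hg2 (congrFun e i)) hg1 rfl
  exact Set.mem_biUnion (show c ∈ {c | c ≠ 0 ∧ ∀ i, c i ^ q = c i} from ⟨hc1, hc3⟩) hc2

end

end Pool.Agent.Lib.MP_6adaea_nt
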