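import Pool.Agent.Lib.MP_6adaea_nt.V.Under
import Pool.Agent.Lib.MP_6adaea_nt.Der

/-!
Function fields over an algebraically closed field: residues.
-/

set_option linter.unusedSectionVars false

namespace Pool.Agent.Lib.MP_6adaea_nt
open Module Polynomial

variable {k K : Type} [Field k] [Field K] [Algebra k K]

theorem ff0_fin (L : Type) [Field L] [Algebra k L] [Algebra L K] [IsScalarTower k L K] (s : L) :
    FiniteDimensional (IntermediateField.adjoin k {s}) K ↔
      FiniteDimensional (IntermediateField.adjoin k {algebraMap L K s}) K := by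
  have h1 : (IntermediateField.adjoin k {s}).map (IsScalarTower.toAlgHom k L K) =
      IntermediateField.adjoin k {algebraMap L K s} := by
    rw [IntermediateField.adjoin_map, Set.image_singleton]
    rfl
  let e := ((IntermediateField.adjoin k {s}).equivMap (IsScalarTower.toAlgHom k L K)).trans
    (IntermediateField.equivOfEq h1)
  have he : ∀ x, algebraMap (IntermediateField.adjoin k {algebraMap L K s}) K (e x) =
      algebraMap (IntermediateField.adjoin k {s}) K x := fun _ => rfl
  constructor
  · intro h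
    exact Module.Finite.of_equiv_equiv e.toRingEquiv (RingEquiv.refl K) (RingHom.ext he)
  · intro h
    refine Module.Finite.of_equiv_equiv e.toRingEquiv.symm (RingEquiv.refl K)
      (RingHom.ext fun x => ?_)
    exact (he (e.symm x)).symm.trans (congrArg _ (e.apply_symm_apply x))

theorem IsFF.of_finite (K : Type) [Field K] [Algebra k K] [IsFF k K] (N : Type) [Field N]
    [Algebra k N] [Algebra K N] [IsScalarTower k K N] [FiniteDimensional K N] : IsFF k N := by
  obtain ⟨t, ht, h⟩ := IsFF.ex (k := k) (K := K)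
  have h1 : FiniteDimensional (IntermediateField.adjoin k {t}) N := Module.Finite.trans K N
  exact ⟨algebraMap K N t, (transcendental_algebraMap_iff (algebraMap K N).injective).mpr ht,
    (ff0_fin K t).mp h1⟩

/-- `FunctionField.finiteDimensional_of_adjoin_transcendental` with the algebra structure through
`RatFunc.algEquivOfTranscendental` (see `exists_psys_elt` in `Sys.lean`) -/
theorem IsFF.finite_adjoin [IsFF k K] {t : K} (ht : Transcendental k t) :
    FiniteDimensional (IntermediateField.adjoin k {t}) K := by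
  obtain ⟨s, hs, h⟩ := IsFF.ex (k := k) (K := K)
  let e := RatFunc.algEquivOfTranscendental s hs
  let _ : Algebra (RatFunc k) K :=
    ((algebraMap (IntermediateField.adjoin k {s}) K).comp e.toRingEquiv.toRingHom).toAlgebra
  have he : RingHom.comp (algebraMap (RatFunc k) K) ↑e.toRingEquiv.symm =
      RingHom.comp ↑(RingEquiv.refl K) (algebraMap (IntermediateField.adjoin k {s}) K) := by
    ext x
    exact congrArg (algebraMap (IntermediateField.adjoin k {s}) K) (e.apply_symm_apply x)
  have : IsScalarTower k (RatFunc k) K := IsScalarTower.of_algebraMap_eq fun c => by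
    rw [IsScalarTower.algebraMap_apply k (IntermediateField.adjoin k {s}) K, ← e.commutes]
    rfl
  have : FiniteDimensional (RatFunc k) K :=
    Module.Finite.of_equiv_equiv e.toRingEquiv.symm (RingEquiv.refl K) he
  exact FunctionField.finiteDimensional_of_adjoin_transcendental ht

/-- a subfield that contains a transcendental element; `finite_adjoin` -/
theorem IsFF.of_sub [IsFF k K] (L : Type) [Field L] [Algebra k L] [Algebra L K]
    [IsScalarTower k L K] [Algebra.IsAlgebraic L K] : IsFF k L ∧ FiniteDimensional L K := by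
  obtain ⟨t, ht, -⟩ := IsFF.ex (k := k) (K := K)
  have h1 : ∃ s : L, Transcendental k s := by
    by_contra h
    have : Algebra.IsAlgebraic k L := ⟨fun s => by
      by_contra hs
      exact h ⟨s, hs⟩⟩
    exact ht ((Algebra.IsAlgebraic.trans k L K).isAlgebraic t)
  obtain ⟨s, hs⟩ := h1
  have h2 : FiniteDimensional (IntermediateField.adjoin k {s}) K := (ff0_fin L s).mpr
    (IsFF.finite_adjoin ((transcendental_algebraMap_iff (algebraMap L K).injective).mpr hs))
  exact ⟨⟨s, hs, Module.Finite.left _ L K⟩,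
    Module.Finite.right (IntermediateField.adjoin k {s}) L K⟩

/-- an element of nonzero order is transcendental (`QVal.ord_eq_zero_of_isAlgebraic`) -/
theorem Place.transcendental (v : Place k K) {t : K} (h : v.ord t ≠ 0) : Transcendental k t := by
  intro ht
  have h1 := v.toQ.ord_eq_zero_of_isAlgebraic (F := k) (fun c => by simp) ht
  exact h (by simpa using h1)

variable [IsAlgClosed k] [IsFF k K]

/-- Let `π` be a uniformiser, `x` is algebraic over `k⟮π⟯` (`finite_adjoin`), so there is a
relation `∑ a i (π) * x ^ i = 0` with polynomials `a i` over `k`, not all divisible by `X`.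
So `f = ∑ C (a i (0)) * X ^ i ≠ 0` has `v.Ge (aeval x f) 1`; `f` splits into linear factors. -/
theorem Place.exists_res (v : Place k K) {x : K} (hx : v.Ge x 0) :
    ∃ c : k, v.Ge (x - algebraMap k K c) 1 := by
  by_contra h
  have h1 : ∀ c : k, x + algebraMap k K c ≠ 0 ∧ v.ord (x + algebraMap k K c) = 0 := fun c => by
    have h2 : ¬ v.Ge (x + algebraMap k K c) 1 := fun h2 => h ⟨-c, by simpa using h2⟩
    obtain ⟨h3, h4⟩ := Place.not_ge_iff.mp h2
    have h5 := (hx.add (v.ge_const c)).le h3
    exact ⟨h3, by omega⟩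
  have h2 : ∀ f : k[X], f ≠ 0 → aeval x f ≠ 0 ∧ v.ord (aeval x f) = 0 := fun f => by
    have hf : f.Splits := IsAlgClosed.splits f
    unfold Polynomial.Splits at hf
    induction hf using Submonoid.closure_induction with
    | mem g hg =>
      rcases hg with ⟨a, rfl⟩ | ⟨a, rfl⟩
      · intro ha
        simpa using ha
      · intro _
        simpa using h1 a
    | one => simp
    | mul g₁ g₂ _ _ i1 i2 =>
      intro hg
      obtain ⟨a1, a2⟩ := i1 (left_ne_zero_of_mul hg)
      obtain ⟨b1, b2⟩ := i2 (right_ne_zero_of_mul hg)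
      rw [map_mul, v.ord_mul a1 b1, a2, b2]
      exact ⟨mul_ne_zero a1 b1, rfl⟩
  have h3 : Transcendental k x := fun ⟨f, hf, h0⟩ => (h2 f hf).1 h0
  have h4 := IsFF.finite_adjoin h3
  obtain ⟨t, -, ht⟩ := v.surj
  have h5 := v.toQ.ord_eq_zero_of_isAlgebraic (F := IntermediateField.adjoin k {x}) (fun c => by
    obtain ⟨r, s, hc⟩ := (IntermediateField.mem_adjoin_simple_iff k c.1).mp c.2
    have h6 : algebraMap (IntermediateField.adjoin k {x}) K c = aeval x r / aeval x s := hc
    rw [Place.toQ_ord, h6, Int.cast_eq_zero]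
    by_cases hr : r = 0
    · simp [hr]
    by_cases hs : s = 0
    · simp [hs]
    rw [v.ord_div (h2 r hr).1 (h2 s hs).1, (h2 r hr).2, (h2 s hs).2, sub_self])
    (Algebra.IsAlgebraic.isAlgebraic t)
  rw [Place.toQ_ord, ht] at h5
  simp at h5

/-- induction with `exists_res` -/
theorem Place.exists_poly (v : Place k K) {π : K} (hπ : v.ord π = 1) {x : K} (hx : v.Ge x 0)
    (n : ℕ) : ∃ f : k[X], f.natDegree ≤ n ∧ v.Ge (x - aeval π f) (n + 1) := by
  have h0 : π ≠ 0 := by
    rintro rfl
    simp at hπ
  induction n with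
  | zero =>
    obtain ⟨c, hc⟩ := v.exists_res hx
    exact ⟨C c, by simp, by simpa using hc⟩
  | succ n ih =>
    obtain ⟨f, h1, h2⟩ := ih
    have h3 : v.Ge ((x - aeval π f) * (π ^ (n + 1))⁻¹) 0 := by
      rw [Place.ge_mul_iff (inv_ne_zero (pow_ne_zero _ h0))]
      simpa [hπ] using h2
    obtain ⟨c, hc⟩ := v.exists_res h3
    refine ⟨f + C c * X ^ (n + 1), natDegree_add_le_of_degree_le (h1.trans n.le_succ)
      (natDegree_C_mul_X_pow_le c _), ?_⟩
    have h4 : x - aeval π (f + C c * X ^ (n + 1)) =
        ((x - aeval π f) * (π ^ (n + 1))⁻¹ - algebraMap k K c) * π ^ (n + 1) := by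
      rw [sub_mul, inv_mul_cancel_right₀ (pow_ne_zero _ h0)]
      simp only [map_add, map_mul, aeval_C, map_pow, aeval_X]
      ring
    rw [h4, Place.ge_mul_iff (pow_ne_zero _ h0)]
    simpa [hπ] using hc

/-- Laurent approximation -/
theorem Place.exists_laurent (v : Place k K) {π : K} (hπ : v.ord π = 1) (x : K) (n : ℤ) :
    ∃ (m : ℕ) (f : k[X]), v.Ge (x - aeval π f / π ^ m) n := by
  have h0 : π ≠ 0 := by
    rintro rfl
    simp at hπ
  obtain ⟨m, hm⟩ : ∃ m : ℕ, -v.ord x ≤ m := ⟨(-v.ord x).toNat, Int.self_le_toNat _⟩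
  have h1 : v.Ge (x * π ^ m) 0 := by
    rw [Place.ge_mul_iff (pow_ne_zero _ h0), Place.ord_pow, hπ]
    exact Place.Ge.of_le (by omega)
  obtain ⟨f, -, hf⟩ := v.exists_poly hπ h1 (n + m).toNat
  refine ⟨m, f, ?_⟩
  have h2 : x - aeval π f / π ^ m = (x * π ^ m - aeval π f) * (π ^ m)⁻¹ := by
    rw [sub_mul, mul_inv_cancel_right₀ (pow_ne_zero _ h0), div_eq_mul_inv]
  rw [h2, Place.ge_mul_iff (inv_ne_zero (pow_ne_zero _ h0)), Place.ord_inv, Place.ord_pow, hπ]
  exact hf.mono (by omega)

/-- the decomposition group is the inertia group -/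
theorem Place.mem_inertia_iff {L : Type} [Field L] [Algebra k L] [Algebra L K]
    [IsScalarTower k L K] {w : Place k K} {σ : K ≃ₐ[L] K} :
    σ ∈ w.inertia L ↔ ∀ x, w.ord (σ x) = w.ord x := by
  refine ⟨fun h => Place.ord_inertia h, fun h x hx => ?_⟩
  obtain ⟨c, hc⟩ := w.exists_res hx
  have h1 : σ (algebraMap k K c) = algebraMap k K c := by
    rw [IsScalarTower.algebraMap_apply k L K, σ.commutes]
  have h2 : w.Ge (σ (x - algebraMap k K c)) 1 := by
    rcases hc with hc | hc
    · simp [hc]
    · exact Place.Ge.of_le (by rwa [h])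
  rw [map_sub, h1] at h2
  simpa using h2.sub hc

variable (p : ℕ) [Fact p.Prime] [CharP k p]

/-- the hypothesis of `card_inertia` -/
theorem Place.res_perfect (v : Place k K) (x : K) (hx : v.Ge x 0) :
    ∃ y, v.Ge y 0 ∧ v.Ge (x - y ^ p) 1 := by
  obtain ⟨c, hc⟩ := v.exists_res hx
  obtain ⟨d, rfl⟩ := IsAlgClosed.exists_pow_nat_eq c (Fact.out : p.Prime).pos
  exact ⟨algebraMap k K d, v.ge_const d, by rwa [← map_pow]⟩

end Pool.Agent.Lib.MP_6adaea_nt
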