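import Pool.Agent.Lib.MP_6adaea_nt.V.Conj
import Pool.Agent.Lib.MP_6adaea_nt.V.FF0

/-!
Residues and the tame character for rational valuations with residue field `k`.
-/

set_option linter.unusedSectionVars false

namespace Pool.Agent.Lib.MP_6adaea_nt
open Module Polynomial

variable {k K E : Type} [Field k] [Field K] [Field E] [Algebra k E]

namespace QVal

/-- the valuation is trivial on `k` and has residue field `k` -/
structure HasRes (k : Type) [Field k] [Algebra k E] (V : QVal E) : Prop where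
  const : ∀ c : k, V.ord (algebraMap k E c) = 0
  res : ∀ x, V.Ge x 0 → ∃ c : k, V.Gt (x - algebraMap k E c) 0

open Classical in
variable (k) in
/-- the residue (junk value `0`) -/
noncomputable def res (V : QVal E) (x : E) : k :=
  if h : ∃ c : k, V.Gt (x - algebraMap k E c) 0 then h.choose else 0

variable {V : QVal E} (h : V.HasRes k)
include h

lemma HasRes.ge_const (c : k) : V.Ge (algebraMap k E c) 0 := Ge.of_le (h.const c).ge

lemma HasRes.eq_of_gt {c d : k} (hc : V.Gt (algebraMap k E c - algebraMap k E d) 0) : c = d := by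
  rw [← map_sub] at hc
  rcases hc with hc | hc
  · exact sub_eq_zero.mp (by simpa only [map_eq_zero] using hc)
  · rw [h.const] at hc
    exact absurd hc (lt_irrefl _)

lemma HasRes.gt_res {x : E} (hx : V.Ge x 0) : V.Gt (x - algebraMap k E (V.res k x)) 0 := by
  rw [QVal.res, dif_pos (h.res x hx)]
  exact (h.res x hx).choose_spec

lemma HasRes.res_eq {x : E} {c : k} (hc : V.Gt (x - algebraMap k E c) 0) : V.res k x = c := by
  have hx : V.Ge x 0 := by simpa using hc.ge.add (h.ge_const c)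
  refine h.eq_of_gt ?_
  have := hc.sub (h.gt_res hx)
  rwa [sub_sub_sub_cancel_left] at this

lemma HasRes.res_const (c : k) : V.res k (algebraMap k E c) = c := h.res_eq (by simp)

lemma HasRes.res_zero : V.res k 0 = 0 := h.res_eq (by simp)

lemma HasRes.res_one : V.res k 1 = 1 := h.res_eq (by simp)

lemma HasRes.res_eq_zero {x : E} (hx : V.Ge x 0) : V.res k x = 0 ↔ V.Gt x 0 :=
  ⟨fun h0 => by simpa [h0] using h.gt_res hx, fun h0 => h.res_eq (by simpa using h0)⟩

lemma HasRes.res_add {x y : E} (hx : V.Ge x 0) (hy : V.Ge y 0) :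
    V.res k (x + y) = V.res k x + V.res k y :=
  h.res_eq (by rw [map_add, add_sub_add_comm]; exact (h.gt_res hx).add (h.gt_res hy))

lemma HasRes.res_sub {x y : E} (hx : V.Ge x 0) (hy : V.Ge y 0) :
    V.res k (x - y) = V.res k x - V.res k y :=
  h.res_eq (by rw [map_sub, sub_sub_sub_comm]; exact (h.gt_res hx).sub (h.gt_res hy))

lemma HasRes.res_mul {x y : E} (hx : V.Ge x 0) (hy : V.Ge y 0) :
    V.res k (x * y) = V.res k x * V.res k y := by
  refine h.res_eq ?_
  have h1 := (hx.mul_gt₀ (h.gt_res hy)).add ((h.ge_const (V.res k y)).mul_gt₀ (h.gt_res hx))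
  convert h1 using 1
  rw [map_mul]
  ring

lemma HasRes.res_eq_iff {x y : E} (hx : V.Ge x 0) (hy : V.Ge y 0) :
    V.res k x = V.res k y ↔ V.Gt (x - y) 0 := by
  rw [← h.res_eq_zero (hx.sub hy), h.res_sub hx hy, sub_eq_zero]

/-- the residue map as a ring homomorphism -/
noncomputable def HasRes.resHom : V.O →+* k where
  toFun x := V.res k x
  map_one' := h.res_one
  map_zero' := h.res_zero
  map_mul' x y := h.res_mul x.2 y.2
  map_add' x y := h.res_add x.2 y.2

@[simp] lemma HasRes.resHom_apply (x : V.O) : h.resHom x = V.res k x := rfl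

lemma HasRes.res_pow {x : E} (hx : V.Ge x 0) (n : ℕ) : V.res k (x ^ n) = V.res k x ^ n :=
  map_pow h.resHom ⟨x, hx⟩ n

lemma HasRes.res_ne_zero {x : E} (h0 : x ≠ 0) (hx : V.ord x = 0) : V.res k x ≠ 0 := fun h1 =>
  absurd (((h.res_eq_zero (Ge.of_le hx.ge)).mp h1).lt h0) (by simp [hx])

/-- a homomorphism that preserves the order and the constants acts trivially on residues -/
lemma HasRes.gt_sub {F : Type*} [FunLike F E E] [RingHomClass F E E] (σ : F)
    (h1 : ∀ x, V.ord (σ x) = V.ord x) (h2 : ∀ c, σ (algebraMap k E c) = algebraMap k E c)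
    {x : E} (hx : V.Ge x 0) : V.Gt (σ x - x) 0 := by
  obtain ⟨c, hc⟩ := h.res x hx
  have h3 : V.Gt (σ (x - algebraMap k E c)) 0 :=
    hc.imp (fun e => by rw [e, map_zero]) fun e => by rwa [h1]
  have := h3.sub hc
  rwa [map_sub, h2, sub_sub_sub_cancel_right] at this

omit h

open Classical in
variable (k V) in
/-- the tame character: the residue of `σ x / x` for an element `x` of order `m` -/
noncomputable def tch (σ : E → E) (m : ℚ) : k :=
  if h : ∃ x, x ≠ 0 ∧ V.ord x = m then V.res k (σ h.choose / h.choose) else 1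

variable [Algebra k K] [Algebra K E] [IsScalarTower k K E]

lemma res_cases (m : ℚ) : (∃ x, x ≠ 0 ∧ V.ord x = m) ∨ ∀ σ : E → E, V.tch k σ m = 1 :=
  (em _).imp_right fun h1 σ => by rw [tch, dif_neg h1]

lemma res_ord {σ : E ≃ₐ[K] E} (hσ : σ ∈ V.stab K) {x : E} (hx : x ≠ 0) : V.ord (σ x / x) = 0 := by
  rw [V.ord_div (by simpa using hx) hx, hσ x, sub_self]

lemma res_ge {σ : E ≃ₐ[K] E} (hσ : σ ∈ V.stab K) {x : E} (hx : x ≠ 0) : V.Ge (σ x / x) 0 :=
  Ge.of_le (res_ord hσ hx).ge

/-- `x` is algebraic over `K`; scale its minimal polynomial so that all coefficients are integral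
and one is a unit, reduce the coefficients with `Place.exists_res`, and factor over `k` -/
theorem Over.hasRes [IsAlgClosed k] [IsFF k K] [Algebra.IsAlgebraic K E] {v : Place k K}
    (hV : V.Over v) : V.HasRes k := by
  refine ⟨hV.ord_const, fun x hx => ?_⟩
  have hfin : FiniteDimensional K (IntermediateField.adjoin K {x}) :=
    IntermediateField.adjoin.finiteDimensional (Algebra.IsIntegral.isIntegral x)
  have hff := IsFF.of_finite (k := k) K (IntermediateField.adjoin K {x})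
  obtain ⟨w, e, -, hw⟩ := hV.exists_place (IntermediateField.adjoin K {x})
  have he : (0 : ℚ) ≤ e := Nat.cast_nonneg e
  obtain ⟨c, hc⟩ := w.exists_res (x := IntermediateField.AdjoinSimple.gen K x) (by
    rcases hx with hx | hx
    · exact Or.inl (Subtype.ext hx)
    · refine Or.inr ?_
      have h1 := mul_nonneg he hx
      have h2 := hw (IntermediateField.AdjoinSimple.gen K x)
      rw [IntermediateField.AdjoinSimple.algebraMap_gen] at h2
      rw [← h2] at h1
      exact_mod_cast h1)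
  have h3 : algebraMap _ E (IntermediateField.AdjoinSimple.gen K x -
      algebraMap k (IntermediateField.adjoin K {x}) c) = x - algebraMap k E c := rfl
  refine ⟨c, hc.imp (fun h1 => by rw [← h3, h1, map_zero]) fun h1 => ?_⟩
  have h2 := hw (IntermediateField.AdjoinSimple.gen K x -
    algebraMap k (IntermediateField.adjoin K {x}) c)
  rw [h3] at h2
  have h4 : (1 : ℚ) ≤ e * V.ord (x - algebraMap k E c) := by
    rw [← h2]
    exact_mod_cast h1
  by_contra h5
  have h6 := mul_nonpos_of_nonneg_of_nonpos he (not_lt.1 h5)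
  linarith

include h

/-- for `y` of the same order as `x`, `σ x / x = σ y / y * (σ (x / y) / (x / y))`, and `gt_sub` -/
theorem HasRes.res_div {σ : E ≃ₐ[K] E} (hσ : σ ∈ V.stab K) {x : E} (hx : x ≠ 0) :
    V.res k (σ x / x) = V.tch k σ (V.ord x) := by
  have h1 : ∃ y, y ≠ 0 ∧ V.ord y = V.ord x := ⟨x, hx, rfl⟩
  rw [tch, dif_pos h1]
  obtain ⟨hy, hy'⟩ := h1.choose_spec
  generalize h1.choose = y at hy hy'
  have hu : x / y ≠ 0 := div_ne_zero hx hy
  have hu' : V.ord (x / y) = 0 := by rw [V.ord_div hx hy, hy', sub_self]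
  have h2 : V.res k (σ (x / y) / (x / y)) = 1 := by
    refine h.res_eq ?_
    rw [map_one, div_sub_one hu, gt_div_iff hu, hu', add_zero]
    exact h.gt_sub σ hσ (fun c => by rw [IsScalarTower.algebraMap_apply k K E, σ.commutes])
      (Ge.of_le hu'.ge)
  have h3 : σ x / x = σ y / y * (σ (x / y) / (x / y)) := by
    have : σ y ≠ 0 := by simpa using hy
    rw [map_div₀]
    field_simp
  rw [h3, h.res_mul (res_ge hσ hy) (res_ge hσ hu), h2, mul_one]

theorem HasRes.gt_tch {σ : E ≃ₐ[K] E} (hσ : σ ∈ V.stab K) (x : E) :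
    V.Gt (σ x - algebraMap k E (V.tch k σ (V.ord x)) * x) (V.ord x) := by
  by_cases hx : x = 0
  · simp [hx]
  have h1 := (h.gt_res (res_ge hσ hx)).mul_ge (V.ge_ord x)
  rwa [h.res_div hσ hx, zero_add, sub_mul, div_mul_cancel₀ _ hx] at h1

theorem HasRes.tch_eq {σ : E ≃ₐ[K] E} (hσ : σ ∈ V.stab K) {x : E} (hx : x ≠ 0) {c : k}
    (hc : V.Gt (σ x - algebraMap k E c * x) (V.ord x)) : V.tch k σ (V.ord x) = c := by
  rw [← h.res_div hσ hx]
  refine h.res_eq ?_
  rwa [← mul_div_cancel_right₀ (algebraMap k E c) hx, ← sub_div, gt_div_iff hx, zero_add]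

theorem HasRes.tch_ne_zero {σ : E ≃ₐ[K] E} (hσ : σ ∈ V.stab K) (m : ℚ) : V.tch k σ m ≠ 0 := by
  rcases res_cases (k := k) (V := V) m with ⟨x, hx, rfl⟩ | h1
  · rw [← h.res_div hσ hx]
    exact h.res_ne_zero (div_ne_zero (by simpa using hx) hx) (res_ord hσ hx)
  · rw [h1]
    exact one_ne_zero

theorem HasRes.tch_one (m : ℚ) : V.tch k (1 : E ≃ₐ[K] E) m = 1 := by
  rcases res_cases (k := k) (V := V) m with ⟨x, hx, rfl⟩ | h1
  · rw [← h.res_div (one_mem _) hx, AlgEquiv.one_apply, div_self hx, h.res_one]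
  · rw [h1]

theorem HasRes.tch_mul {σ τ : E ≃ₐ[K] E} (hσ : σ ∈ V.stab K) (hτ : τ ∈ V.stab K) (m : ℚ) :
    V.tch k (σ * τ : E ≃ₐ[K] E) m = V.tch k σ m * V.tch k τ m := by
  rcases res_cases (k := k) (V := V) m with ⟨x, hx, rfl⟩ | h1
  · have hτx : τ x ≠ 0 := by simpa using hx
    rw [← h.res_div (mul_mem hσ hτ) hx, ← h.res_div hτ hx, ← hτ x, ← h.res_div hσ hτx,
      ← h.res_mul (res_ge hσ hτx) (res_ge hτ hx), div_mul_div_cancel₀ hτx, AlgEquiv.mul_apply]
  · rw [h1, h1, h1, mul_one]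

theorem HasRes.tch_pow {σ : E ≃ₐ[K] E} (hσ : σ ∈ V.stab K) (n : ℕ) (m : ℚ) :
    V.tch k (σ ^ n : E ≃ₐ[K] E) m = V.tch k σ m ^ n := by
  induction n with
  | zero => rw [pow_zero, pow_zero, h.tch_one]
  | succ n ih => rw [pow_succ, h.tch_mul (pow_mem hσ n) hσ, ih, pow_succ]

theorem HasRes.tch_add (hs : ∀ m : ℚ, ∃ x, x ≠ 0 ∧ V.ord x = m) {σ : E ≃ₐ[K] E}
    (hσ : σ ∈ V.stab K) (a b : ℚ) : V.tch k σ (a + b) = V.tch k σ a * V.tch k σ b := by
  obtain ⟨x, hx, rfl⟩ := hs a
  obtain ⟨y, hy, rfl⟩ := hs b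
  rw [← V.ord_mul hx hy, ← h.res_div hσ (mul_ne_zero hx hy), ← h.res_div hσ hx, ← h.res_div hσ hy,
    ← h.res_mul (res_ge hσ hx) (res_ge hσ hy), map_mul, mul_div_mul_comm]

theorem HasRes.tch_zsmul (hs : ∀ m : ℚ, ∃ x, x ≠ 0 ∧ V.ord x = m) {σ : E ≃ₐ[K] E}
    (hσ : σ ∈ V.stab K) (n : ℤ) (a : ℚ) : V.tch k σ (n * a) = V.tch k σ a ^ n := by
  induction n using Int.induction_on with
  | zero =>
    have h1 := h.res_div hσ one_ne_zero
    rw [map_one, div_one, h.res_one, ord_one] at h1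
    rw [Int.cast_zero, zero_mul, zpow_zero, ← h1]
  | succ n ih =>
    rw [Int.cast_add, Int.cast_one, add_mul, one_mul, h.tch_add hs hσ, ih,
      zpow_add_one₀ (h.tch_ne_zero hσ a)]
  | pred n ih =>
    rw [zpow_sub_one₀ (h.tch_ne_zero hσ a), ← ih, eq_mul_inv_iff_mul_eq₀ (h.tch_ne_zero hσ a),
      ← h.tch_add hs hσ]
    congr 1
    push_cast
    ring

/-- `Place.exists_ord_eq` -/
theorem HasRes.tch_int {v : Place k K} (hV : V.Over v) {σ : E ≃ₐ[K] E} (hσ : σ ∈ V.stab K)
    (n : ℤ) : V.tch k σ n = 1 := by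
  obtain ⟨t, ht, rfl⟩ := v.exists_ord_eq n
  have h1 : algebraMap K E t ≠ 0 := by simpa using ht
  rw [← hV t, ← h.res_div hσ h1, σ.commutes, div_self h1, h.res_one]

/-- the `p ^ a`-th power of the value is `1` (if `m` is not an order the value is `1`) -/
theorem HasRes.tch_of_pow (p : ℕ) [Fact p.Prime] [CharP k p] {v : Place k K} (hV : V.Over v)
    {σ : E ≃ₐ[K] E} (hσ : σ ∈ V.stab K) {m : ℚ} {a : ℕ} {n : ℤ} (hm : p ^ a * m = n) :
    V.tch k σ m = 1 := by
  rcases res_cases (k := k) (V := V) m with ⟨x, hx, rfl⟩ | h1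
  · have h1 := h.res_div hσ (pow_ne_zero (p ^ a) hx)
    rw [ord_pow, Nat.cast_pow, hm, h.tch_int hV hσ, map_pow, ← div_pow, h.res_pow (res_ge hσ hx),
      h.res_div hσ hx] at h1
    have h2 : (V.tch k σ (V.ord x) - 1) ^ p ^ a = 0 := by
      rw [sub_pow_char_pow, h1, one_pow, sub_self]
    exact sub_eq_zero.1 (pow_eq_zero_iff (pow_pos (Fact.out : p.Prime).pos a).ne' |>.1 h2)
  · rw [h1]

/-- On a finite stable additive subgroup `W` with a stable subgroup `U` that contains the elements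
on which the tame character is nontrivial, a power of `σ - 1` maps `W` to `U`: as long as the
iterates are outside `U` their order increases strictly (`gt_tch`). -/
theorem HasRes.exists_nil {σ : E ≃ₐ[K] E} (hσ : σ ∈ V.stab K) (W U : AddSubgroup E)
    (hW : (W : Set E).Finite) (h1 : ∀ x ∈ W, σ x ∈ W) (h2 : ∀ x ∈ U, σ x ∈ U)
    (h3 : ∀ x ∈ W, x ∉ U → V.tch k σ (V.ord x) = 1) :
    ∃ n : ℕ, ∀ x ∈ W, ((σ.toLinearMap - 1 : Module.End K E) ^ n) x ∈ U := by
  set D : Module.End K E := σ.toLinearMap - 1 with hD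
  have hs : ∀ (n : ℕ) (x : E), (D ^ (n + 1)) x = σ ((D ^ n) x) - (D ^ n) x := fun n x => by
    rw [pow_succ', Module.End.mul_apply]
    rfl
  have h4 : ∀ x ∈ W, ∀ n : ℕ, (D ^ n) x ∈ W := fun x hx n => by
    induction n with
    | zero => exact hx
    | succ n ih => exact hs n x ▸ W.sub_mem (h1 _ ih) ih
  have h5 : ∀ (x : E) (n : ℕ), (D ^ n) x ∈ U → ∀ m, n ≤ m → (D ^ m) x ∈ U := fun x n hn m hm => by
    induction m, hm using Nat.le_induction with
    | base => exact hn
    | succ m _ ih => exact hs m x ▸ U.sub_mem (h2 _ ih) ih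
  have h6 : ∀ x ∈ W, ∃ n : ℕ, (D ^ n) x ∈ U := fun x hx => by
    by_contra h7
    push Not at h7
    have h8 : StrictMono fun n : ℕ => V.ord ((D ^ n) x) := strictMono_nat_of_lt_succ fun n => by
      have h9 := h.gt_tch hσ ((D ^ n) x)
      rw [h3 _ (h4 x hx n) (h7 n), map_one, one_mul, ← hs] at h9
      exact h9.lt fun e => h7 (n + 1) (e ▸ U.zero_mem)
    exact Set.infinite_of_injective_forall_mem (f := fun n : ℕ => (D ^ n) x)
      (fun a b e => h8.injective (congrArg V.ord e)) (h4 x hx) hW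
  choose! n hn using h6
  exact ⟨hW.toFinset.sup n, fun x hx =>
    h5 x _ (hn x hx) _ (Finset.le_sup (f := n) (hW.mem_toFinset.2 hx))⟩

end QVal

end Pool.Agent.Lib.MP_6adaea_nt
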