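import Pool.Agent.Lib.MP_6adaea_nt.V.Res

/-!
The tame character takes all roots of unity as values.
-/

set_option linter.unusedSectionVars false

namespace Pool.Agent.Lib.MP_6adaea_nt
open Module Polynomial

variable {k K E : Type} [Field k] [Field K] [Field E] [Algebra k E]

variable [Algebra k K] [Algebra K E] [IsScalarTower k K E] [IsAlgClosed k] [IsFF k K]
  {V : QVal E} {v : Place k K}

/-- V3: `Place.exists_laurent`, `QVal.eq_zero_of_ge` -/
theorem QVal.Over.fix (hV : V.Over v) {π : K} (hπ : v.ord π = 1) (τ : K →+* E)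
    (h1 : τ π = algebraMap K E π) (h2 : ∀ c, τ (algebraMap k K c) = algebraMap k E c)
    (h3 : ∀ x, V.ord (τ x) = v.ord x) (x : K) : τ x = algebraMap K E x := by
  have h4 : τ.comp (algebraMap k K) = (algebraMap K E).comp (algebraMap k K) :=
    RingHom.ext fun c => (h2 c).trans (IsScalarTower.algebraMap_apply k K E c)
  refine sub_eq_zero.mp (QVal.eq_zero_of_ge (V := V) fun n => ?_)
  obtain ⟨m, f, hf⟩ := v.exists_laurent hπ x n
  have h5 : τ (aeval π f / π ^ m) = algebraMap K E (aeval π f / π ^ m) := by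
    simp only [map_div₀, map_pow, aeval_def, hom_eval₂, h1, h4]
  have h6 : V.Ge (τ (x - aeval π f / π ^ m)) n :=
    hf.imp (fun e => by rw [e, map_zero]) fun e => by rw [h3]; exact_mod_cast e
  have h7 := h6.sub (by exact_mod_cast hV.ge_iff.mpr hf)
  rwa [map_sub, map_sub, h5, sub_sub_sub_cancel_right] at h7

/-- the order of a polynomial of degree `< M` in an element of order `1 / M` -/
theorem res2_ord (hV : V.Over v) {M : ℕ} {g : K[X]} (hg : g ≠ 0) (hd : g.natDegree < M) :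
    ∃ r : ℚ, ∀ y : E, y ≠ 0 → V.ord y = 1 / M → aeval y g ≠ 0 ∧ V.ord (aeval y g) = r := by
  have hM : (0 : ℚ) < M := by exact_mod_cast (Nat.zero_le _).trans_lt hd
  obtain ⟨i, hi, hmin⟩ := Finset.exists_min_image g.support
    (fun j => (v.ord (g.coeff j) : ℚ) + j * (1 / M)) (support_nonempty.mpr hg)
  refine ⟨v.ord (g.coeff i) + i * (1 / M), fun y hy h => ?_⟩
  have h0 : ∀ j ∈ g.support, algebraMap K E (g.coeff j) * y ^ j ≠ 0 := fun j hj =>
    mul_ne_zero (by simpa using hj) (pow_ne_zero _ hy)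
  have h1 : ∀ j ∈ g.support, V.ord (algebraMap K E (g.coeff j) * y ^ j) =
      v.ord (g.coeff j) + j * (1 / M) := fun j hj => by
    rw [V.ord_mul (by simpa using hj) (pow_ne_zero _ hy), hV, V.ord_pow, h]
  rw [aeval_def, eval₂_eq_sum, Polynomial.sum, ← h1 i hi]
  refine QVal.ord_sum_of_lt hi (h0 i hi) fun j hj hne => QVal.Gt.of_lt ?_
  rw [h1 i hi, h1 j hj]
  refine lt_of_le_of_ne (hmin j hj) fun e => hne ?_
  have h2 : (v.ord (g.coeff i) - v.ord (g.coeff j)) * (M : ℤ) = j - i := by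
    have : ((v.ord (g.coeff i) : ℚ) - v.ord (g.coeff j)) * M = j - i := by
      field_simp at e
      linarith
    exact_mod_cast this
  have h3 := (le_natDegree_of_mem_supp i hi).trans_lt hd
  have h4 := (le_natDegree_of_mem_supp j hj).trans_lt hd
  have h5 := Int.eq_zero_of_abs_lt_dvd (Dvd.intro_left _ h2) (abs_lt.mpr ⟨by omega, by omega⟩)
  omega

/-- LT3. Take a uniformiser `π` and `ϖ ∈ E` with `ϖ ^ M = π`. A nonzero `∑_{i < M} a i * ϖ ^ i`
has order `min (ord (a i) + i / M)` (the terms have different orders), the same for `ζ * ϖ`. So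
`X ^ M - C π` is the minimal polynomial of `ϖ` and `ϖ ↦ ζ * ϖ` is an embedding of `K⟮ϖ⟯` that
preserves `V`; `QVal.exists_lift`, `HasRes.tch_eq`. -/
theorem QVal.Over.exists_tch [IsGalois K E] [IsSepClosed E] (hV : V.Over v) {M : ℕ}
    (hM : (M : k) ≠ 0) {ζ : k} (hζ : ζ ^ M = 1) :
    ∃ σ ∈ V.stab K, V.tch k σ (1 / M) = ζ := by
  have hM0 : M ≠ 0 := fun e => hM (by simp [e])
  have hMq : (M : ℚ) ≠ 0 := by exact_mod_cast hM0
  obtain ⟨π, hπ0, hπ⟩ := v.surj
  have : NeZero (M : E) := ⟨by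
    rw [← map_natCast (algebraMap k E)]
    exact (_root_.map_ne_zero _).mpr hM⟩
  obtain ⟨ϖ, hϖ⟩ := IsSepClosed.exists_pow_nat_eq (algebraMap K E π) M
  have h0 : ϖ ≠ 0 := fun e => by
    rw [e, zero_pow hM0] at hϖ
    exact (_root_.map_ne_zero _).mpr hπ0 hϖ.symm
  have h1 : V.ord ϖ = 1 / M := by
    have := V.ord_pow ϖ M
    rw [hϖ, hV, hπ] at this
    rw [eq_div_iff hMq, mul_comm, ← this, Int.cast_one]
  have hζ0 : algebraMap k E ζ ≠ 0 := (_root_.map_ne_zero _).mpr fun e => by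
    rw [e, zero_pow hM0] at hζ
    exact zero_ne_one hζ
  have h2 : V.ord (algebraMap k E ζ * ϖ) = 1 / M := by
    rw [V.ord_mul hζ0 h0, hV.ord_const, zero_add, h1]
  have hm : (X ^ M - C π : K[X]).Monic := monic_X_pow_sub_C π hM0
  have r1 : aeval ϖ (X ^ M - C π : K[X]) = 0 := by simp [hϖ]
  have r2 : aeval (algebraMap k E ζ * ϖ) (X ^ M - C π : K[X]) = 0 := by
    rw [map_sub, map_pow, aeval_X, aeval_C, mul_pow, ← map_pow, hζ, map_one, one_mul, hϖ, sub_self]
  have h3 : X ^ M - C π = minpoly K ϖ := minpoly.unique K ϖ hm r1 fun q hq h => by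
    rw [degree_X_pow_sub_C (Nat.pos_of_ne_zero hM0), degree_eq_natDegree hq.ne_zero, Nat.cast_le]
    by_contra hc
    obtain ⟨r, hr⟩ := res2_ord hV hq.ne_zero (not_le.mp hc)
    exact (hr ϖ h0 h1).1 h
  obtain ⟨σ₀, hσ₀⟩ := minpoly.exists_algEquiv_of_root' (Algebra.IsAlgebraic.isAlgebraic ϖ) (h3 ▸ r2)
  have h4 : ∀ g : K[X], V.ord (σ₀ (aeval ϖ g)) = V.ord (aeval ϖ g) := fun g => by
    rw [← aeval_modByMonic_eq_self_of_root (p := g) r1]
    by_cases hg : g %ₘ (X ^ M - C π) = 0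
    · simp [hg]
    obtain ⟨r, hr⟩ := res2_ord hV hg (M := M) (by
      have := natDegree_lt_natDegree hg (degree_modByMonic_lt g hm)
      rwa [natDegree_X_pow_sub_C] at this)
    rw [← aeval_algHom_apply, hσ₀, (hr _ h0 h1).2, (hr _ (mul_ne_zero hζ0 h0) h2).2]
  obtain ⟨σ, hσ, h5⟩ := V.exists_lift (IntermediateField.adjoin K {ϖ})
    (σ₀.toAlgHom.comp (IntermediateField.val _)) fun x => by
      obtain ⟨r, s, e⟩ := (IntermediateField.mem_adjoin_simple_iff K x.1).mp x.2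
      change V.ord (σ₀ x.1) = V.ord x.1
      by_cases hr : aeval ϖ r = 0
      · simp [e, hr]
      by_cases hs : aeval ϖ s = 0
      · simp [e, hs]
      rw [e, map_div₀, V.ord_div hr hs, V.ord_div ((_root_.map_ne_zero _).mpr hr)
        ((_root_.map_ne_zero _).mpr hs), h4, h4]
  have h6 : σ ϖ = algebraMap k E ζ * ϖ :=
    (h5 ⟨ϖ, IntermediateField.mem_adjoin_simple_self K ϖ⟩).trans hσ₀
  exact ⟨σ, hσ, h1 ▸ hV.hasRes.tch_eq hσ h0 (by simp [h6])⟩

/-- write the denominator of `m` as `p ^ a * M`, take a primitive `M`-th root of unity in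
`exists_tch`; `QVal.exists_ord_eq`, `tch_zsmul` -/
theorem QVal.Over.int_of_tch [IsGalois K E] [IsSepClosed E] (p : ℕ) [Fact p.Prime] [CharP k p]
    (hV : V.Over v) {m : ℚ} (hm : ∀ σ ∈ V.stab K, V.tch k σ m = 1) :
    ∃ (a : ℕ) (n : ℤ), p ^ a * m = n := by
  obtain ⟨a, M, hM, e⟩ := Nat.exists_eq_pow_mul_and_not_dvd m.den_nz p (Fact.out : p.Prime).ne_one
  have : NeZero (M : k) := ⟨fun h => hM ((CharP.cast_eq_zero_iff k p M).mp h)⟩
  have : NeZero M := ⟨fun h => hM (h ▸ dvd_zero p)⟩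
  have : CharP E p := charP_of_injective_algebraMap (algebraMap k E).injective p
  obtain ⟨ζ, hζ⟩ := HasEnoughRootsOfUnity.exists_primitiveRoot k M
  obtain ⟨σ, hσ, h1⟩ := hV.exists_tch (NeZero.ne (M : k)) hζ.pow_eq_one
  obtain ⟨π, hπ0, hπ⟩ := v.surj
  have hs := V.exists_ord_eq p ⟨algebraMap K E π, (_root_.map_ne_zero _).mpr hπ0, by simp [hV π, hπ]⟩
  have hMq : (M : ℚ) ≠ 0 := by exact_mod_cast NeZero.ne M
  have h2 : (p : ℚ) ^ a * m = m.num * (1 / M) := by
    have := Rat.mul_den_eq_num m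
    rw [e] at this
    push_cast at this
    rw [← this]
    field_simp
  have h3 := hV.hasRes.tch_zsmul hs hσ (p ^ a) m
  rw [hm σ hσ, one_zpow, Int.cast_pow, Int.cast_natCast, h2, hV.hasRes.tch_zsmul hs hσ, h1,
    hζ.zpow_eq_one_iff_dvd] at h3
  obtain ⟨n, hn⟩ := h3
  refine ⟨a, n, ?_⟩
  rw [h2, hn]
  push_cast
  field_simp

end Pool.Agent.Lib.MP_6adaea_nt
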