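import Pool.Agent.Lib.MP_6adaea_nt.V.FF0

/-!
The places over a place in a Galois extension.
-/

set_option linter.unusedSectionVars false

namespace Pool.Agent.Lib.MP_6adaea_nt
open Module Polynomial

variable {k K : Type} [Field k] [Field K] [Algebra k K] [IsAlgClosed k]
  (p : ℕ) [Fact p.Prime] [CharP k p]

section galois
variable {L : Type} [Field L] [Algebra k L] [Algebra L K] [IsScalarTower k L K] [IsFF k L]
  [FiniteDimensional L K] [IsGalois L K]

/-- a conjugate place -/
def fibre_cj (w : Place k K) (σ : K ≃ₐ[L] K) : Place k K where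
  ord x := w.ord (σ x)
  ord_zero := by simp
  ord_mul hf hg := by
    rw [map_mul]
    exact w.ord_mul (by simpa using hf) (by simpa using hg)
  ord_add hf hg hs := by
    rw [map_add]
    exact w.ord_add (by simpa using hf) (by simpa using hg) (by rw [← map_add]; exact (map_ne_zero σ).2 hs)
  ord_const c := by
    rw [IsScalarTower.algebraMap_apply k L K, AlgEquiv.commutes, ← IsScalarTower.algebraMap_apply]
    exact w.ord_const c
  surj := by
    obtain ⟨t, h0, h1⟩ := w.surj
    exact ⟨σ.symm t, by simpa using h0, by simpa using h1⟩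

lemma fibre_over {w : Place k K} {v : Place k L} {e : ℕ} (h : w.Over v e) (σ : K ≃ₐ[L] K) :
    (fibre_cj w σ).Over v e :=
  ⟨h.1, fun x => by
    show w.ord (σ _) = _
    rw [AlgEquiv.commutes, h.2]⟩

lemma fibre_surj {w w' : Place k K} {v : Place k L} {e e' : ℕ} (h : w.Over v e)
    (h' : w'.Over v e') : ∃ σ : K ≃ₐ[L] K, fibre_cj w σ = w' := by
  obtain ⟨σ, hσ⟩ := exists_conj h' h
  exact ⟨σ, Place.ext (funext hσ)⟩

variable (K) in
/-- the places over `v` are the conjugates of one of them (`exists_over`, `exists_conj`) -/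
theorem Place.exists_fibre (v : Place k L) :
    ∃ S : Finset (Place k K), ∀ w, w ∈ S ↔ ∃ e, w.Over v e := by
  classical
  obtain ⟨w, e, h⟩ := exists_over (K := K) v
  refine ⟨Finset.univ.image (fibre_cj (L := L) w), fun w' => ?_⟩
  simp only [Finset.mem_image, Finset.mem_univ, true_and]
  exact ⟨fun ⟨σ, hσ⟩ => ⟨e, hσ ▸ fibre_over h σ⟩, fun ⟨_, h'⟩ => fibre_surj h h'⟩

include p

lemma fibre_sum {v : Place k L} {S : Finset (Place k K)} (hS : ∀ w, w ∈ S ↔ ∃ e, w.Over v e)
    {w : Place k K} {e : ℕ} (h : w.Over v e) (f : Place k K → ℤ) :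
    ∑ σ : K ≃ₐ[L] K, f (fibre_cj w σ) = e * ∑ u ∈ S, f u := by
  classical
  have : IsFF k K := IsFF.of_finite L K
  have : CharP L p := charP_of_injective_algebraMap (algebraMap k L).injective p
  have hc := card_inertia p (v.res_perfect p) h
  rw [← Finset.sum_fiberwise_of_maps_to (t := S) (g := fibre_cj (L := L) w)
    fun σ _ => (hS _).2 ⟨e, fibre_over h σ⟩, Finset.mul_sum]
  refine Finset.sum_congr rfl fun u hu => ?_
  obtain ⟨e', h'⟩ := (hS u).1 hu
  obtain ⟨τ, rfl⟩ := fibre_surj h h'
  rw [Finset.sum_congr rfl (g := fun _ => f (fibre_cj w τ))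
    fun σ hσ => by rw [(Finset.mem_filter.1 hσ).2], Finset.sum_const, nsmul_eq_mul]
  congr 2
  rw [← hc, ← Nat.card_eq_finsetCard]
  refine Nat.card_congr ((Equiv.mulRight τ⁻¹).subtypeEquiv fun σ => ?_)
  rw [Finset.mem_filter, Place.mem_inertia_iff]
  refine ⟨fun h1 x => ?_, fun h1 => ⟨Finset.mem_univ _, Place.ext (funext fun x => ?_)⟩⟩
  · have := congrArg (fun u : Place k K => u.ord (τ⁻¹ x)) h1.2
    simpa [fibre_cj] using this
  · simpa [fibre_cj] using h1 (τ x)

/-- The map `σ ↦ (x ↦ w.ord (σ x))` from the Galois group onto `S` has fibres the cosets of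
`w.inertia L` (`Place.mem_inertia_iff`, `IsFF.of_finite`), of cardinality `e` (`card_inertia`,
`Place.res_perfect`); `Algebra.norm_eq_prod_automorphisms`. -/
theorem Place.sum_fibre {v : Place k L} {S : Finset (Place k K)}
    (hS : ∀ w, w ∈ S ↔ ∃ e, w.Over v e) (x : K) :
    ∑ w ∈ S, w.ord x = v.ord (Algebra.norm L x) := by
  by_cases hx : x = 0
  · simp [hx]
  obtain ⟨w, e, h⟩ := exists_over (K := K) v
  have h1 := fibre_sum p hS h fun u => u.ord x
  have h2 := h.2 (Algebra.norm L x)
  rw [Algebra.norm_eq_prod_automorphisms, w.ord_prod _ _ fun σ _ => by simpa using hx] at h2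
  have he : (e : ℤ) ≠ 0 := by exact_mod_cast h.1.ne'
  exact mul_left_cancel₀ he (h1.symm.trans h2)

/-- all places in the fibre have the same ramification index; `sum_fibre` for a uniformiser -/
theorem Place.card_fibre {v : Place k L} {S : Finset (Place k K)}
    (hS : ∀ w, w ∈ S ↔ ∃ e, w.Over v e) {w : Place k K} {e : ℕ} (h : w.Over v e) :
    S.card * e = finrank L K := by
  have h1 := fibre_sum p hS h fun _ => 1
  rw [← IsGalois.card_aut_eq_finrank, Nat.card_eq_fintype_card]
  simp only [Finset.sum_const, Finset.card_univ, nsmul_eq_mul, mul_one] at h1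
  rw [mul_comm]
  exact_mod_cast h1.symm

end galois

end Pool.Agent.Lib.MP_6adaea_nt
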