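import Pool.Agent.Lib.MP_6adaea_nt.V.FF0

/-!
The places of the rational function field.
-/

set_option linter.unusedSectionVars false

namespace Pool.Agent.Lib.MP_6adaea_nt
open Module Polynomial

variable {k : Type} [Field k] [IsAlgClosed k]

omit [IsAlgClosed k] in
lemma rat_mk (φ : k[X] → ℤ) (h0 : φ 0 = 0) (hC : ∀ c, φ (C c) = 0)
    (hm : ∀ {f g : k[X]}, f ≠ 0 → g ≠ 0 → φ (f * g) = φ f + φ g)
    (ha : ∀ {f g : k[X]}, f ≠ 0 → g ≠ 0 → f + g ≠ 0 → min (φ f) (φ g) ≤ φ (f + g))
    {t : k[X]} (ht : t ≠ 0) (h1 : φ t = 1 ∨ φ t = -1) :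
    ∃ v : Place k (RatFunc k), ∀ f, v.ord (algebraMap k[X] _ f) = φ f := by
  have one : φ 1 = 0 := by simpa using hC 1
  have key : ∀ f : k[X], φ (RatFunc.num (algebraMap k[X] (RatFunc k) f)) -
      φ (RatFunc.denom (algebraMap k[X] (RatFunc k) f)) = φ f := fun f => by
    rw [RatFunc.num_algebraMap, RatFunc.denom_algebraMap, one, sub_zero]
  have mul : ∀ {x y : RatFunc k}, x ≠ 0 → y ≠ 0 → φ (x * y).num - φ (x * y).denom =
      φ x.num - φ x.denom + (φ y.num - φ y.denom) := fun {x y} hx hy => by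
    have h := congrArg φ (RatFunc.num_denom_mul x y)
    have a1 := RatFunc.num_ne_zero hx
    have a2 := RatFunc.num_ne_zero hy
    have b1 := x.denom_ne_zero
    have b2 := y.denom_ne_zero
    rw [hm (RatFunc.num_ne_zero (mul_ne_zero hx hy)) (mul_ne_zero b1 b2), hm b1 b2,
      hm (mul_ne_zero a1 a2) (x * y).denom_ne_zero, hm a1 a2] at h
    omega
  have hT := RatFunc.algebraMap_ne_zero ht
  refine ⟨⟨fun x => φ x.num - φ x.denom, by simp [h0, one], mul, fun {x y} hx hy hxy => ?_,
    fun c => ?_, ?_⟩, key⟩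
  · have e := RatFunc.num_denom_add x y
    have h := congrArg φ e
    have a1 := RatFunc.num_ne_zero hx
    have a2 := RatFunc.num_ne_zero hy
    have a3 := RatFunc.num_ne_zero hxy
    have b1 := x.denom_ne_zero
    have b2 := y.denom_ne_zero
    have c : x.num * y.denom + x.denom * y.num ≠ 0 := fun h => by
      rw [h, zero_mul] at e
      exact mul_ne_zero a3 (mul_ne_zero b1 b2) e
    have d := ha (mul_ne_zero a1 b2) (mul_ne_zero b1 a2) c
    rw [hm a3 (mul_ne_zero b1 b2), hm b1 b2, hm c (x + y).denom_ne_zero] at h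
    rw [hm a1 b2, hm b1 a2] at d
    omega
  · exact (key (C c)).trans (hC c)
  · rcases h1 with h1 | h1
    · exact ⟨_, hT, (key t).trans h1⟩
    · refine ⟨_, inv_ne_zero hT, ?_⟩
      have h := mul hT (inv_ne_zero hT)
      rw [mul_inv_cancel₀ hT, key, h1, RatFunc.num_one, RatFunc.denom_one] at h
      omega

omit [IsAlgClosed k] in
lemma rat_lin (a : k) : algebraMap k[X] (RatFunc k) (X - C a) = RatFunc.X - RatFunc.C a := by
  simp

omit [IsAlgClosed k] in
lemma rat_ne (a : k) : (RatFunc.X - RatFunc.C a : RatFunc k) ≠ 0 :=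
  rat_lin a ▸ RatFunc.algebraMap_ne_zero (X_sub_C_ne_zero a)

lemma rat_ind (P : RatFunc k → Prop) (hC : ∀ c, P (RatFunc.C c))
    (hX : ∀ c, P (RatFunc.X - RatFunc.C c))
    (hm : ∀ x y, x ≠ 0 → y ≠ 0 → P x → P y → P (x * y)) (hi : ∀ x, P x → P x⁻¹)
    (x : RatFunc k) : P x := by
  have h0 : P 0 := by simpa using hC 0
  have hm' : ∀ x y, P x → P y → P (x * y) := fun x y hx hy => by
    by_cases h1 : x = 0
    · simpa [h1] using h0
    by_cases h2 : y = 0
    · simpa [h2] using h0
    exact hm x y h1 h2 hx hy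
  have hp : ∀ f : k[X], P (algebraMap k[X] _ f) := fun f => by
    have hf : f.Splits := IsAlgClosed.splits f
    induction hf using Submonoid.closure_induction with
    | mem g hg =>
      rcases hg with ⟨a, rfl⟩ | ⟨a, rfl⟩
      · exact hC a
      · simpa using hX (-a)
    | one => simpa using hC 1
    | mul a b _ _ ha hb => simpa using hm' _ _ ha hb
  rw [← x.num_div_denom, div_eq_mul_inv]
  exact hm' _ _ (hp _) (hi _ (hp _))

lemma rat_scale {v w : Place k (RatFunc k)} {m : ℤ} (hm : 0 < m)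
    (h : ∀ a, w.ord (RatFunc.X - RatFunc.C a) = m * v.ord (RatFunc.X - RatFunc.C a)) : w = v := by
  have key : ∀ x, w.ord x = m * v.ord x := rat_ind _
    (fun c => by rw [← RatFunc.algebraMap_eq_C, w.ord_const, v.ord_const, mul_zero]) h
    (fun x y hx hy h1 h2 => by rw [w.ord_mul hx hy, v.ord_mul hx hy, h1, h2, mul_add])
    fun x hx => by rw [w.ord_inv, v.ord_inv, hx, mul_neg]
  obtain ⟨t, -, ht⟩ := w.surj
  have h1 : m = 1 := Int.eq_one_of_mul_eq_one_right hm.le ((key t).symm.trans ht)
  ext x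
  rw [key, h1, one_mul]

omit [IsAlgClosed k] in
lemma rat_other {w : Place k (RatFunc k)} {c a : k} (hw : 0 < w.ord (RatFunc.X - RatFunc.C c))
    (ha : a ≠ c) : w.ord (RatFunc.X - RatFunc.C a) = 0 := by
  have h0 : algebraMap k (RatFunc k) (c - a) ≠ 0 := by
    rw [ne_eq, map_eq_zero, sub_eq_zero]
    exact ha.symm
  have h := (Place.ord_add_of_ge (v := w) (g := RatFunc.X - RatFunc.C c) h0
    (Place.Ge.of_le (by rw [w.ord_const]; omega))).2
  rw [w.ord_const, RatFunc.algebraMap_eq_C, map_sub] at h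
  rw [← h]
  congr 1
  ring

omit [IsAlgClosed k] in
lemma rat_neg {w : Place k (RatFunc k)} {x : RatFunc k} (hw : w.ord x < 0) (a : k) :
    w.ord (x + RatFunc.C a) = w.ord x :=
  (Place.ord_add_of_ge (v := w) (fun h => by simp [h] at hw)
    ((w.ge_const a).mono (by omega))).2

/-- a place of the rational function field with `ord (X - c) > 0` -/
theorem rat_place_fin (c : k) : ∃ v : Place k (RatFunc k), v.ord (RatFunc.X - RatFunc.C c) = 1 ∧
    ∀ w : Place k (RatFunc k), 0 < w.ord (RatFunc.X - RatFunc.C c) → w = v := by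
  obtain ⟨v, hv⟩ := rat_mk (fun f : k[X] => (rootMultiplicity c f : ℤ)) (by simp) (by simp)
    (fun hf hg => by rw [rootMultiplicity_mul (mul_ne_zero hf hg), Nat.cast_add])
    (fun _ _ h => by exact_mod_cast rootMultiplicity_add c h) (X_sub_C_ne_zero c)
    (Or.inl (by rw [rootMultiplicity_X_sub_C_self, Nat.cast_one]))
  have h1 : v.ord (RatFunc.X - RatFunc.C c) = 1 := by
    rw [← rat_lin, hv, rootMultiplicity_X_sub_C_self, Nat.cast_one]
  refine ⟨v, h1, fun w hw => rat_scale hw fun a => ?_⟩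
  by_cases ha : a = c
  · rw [ha, h1, mul_one]
  · rw [rat_other hw ha, rat_other (by omega : 0 < v.ord (RatFunc.X - RatFunc.C c)) ha, mul_zero]

/-- the place at infinity -/
theorem rat_place_inf : ∃ v : Place k (RatFunc k), (∀ c : k, v.ord (RatFunc.X - RatFunc.C c) = -1) ∧
    ∀ w : Place k (RatFunc k), w.ord RatFunc.X < 0 → w = v := by
  obtain ⟨v, hv⟩ := rat_mk (fun f : k[X] => -(natDegree f : ℤ)) (by simp) (by simp)
    (fun hf hg => by rw [natDegree_mul hf hg, Nat.cast_add, neg_add])
    (fun {f g} _ _ _ => by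
      have := natDegree_add_le f g
      omega) X_ne_zero (Or.inr (by simp))
  have h1 : ∀ c : k, v.ord (RatFunc.X - RatFunc.C c) = -1 := fun c => by
    rw [← rat_lin, hv, natDegree_X_sub_C, Nat.cast_one]
  refine ⟨v, h1, fun w hw => rat_scale (neg_pos.2 hw) fun a => ?_⟩
  rw [h1, sub_eq_add_neg, ← map_neg, rat_neg hw]
  ring

/-- factor numerator and denominator into linear factors; `ord (X - c) < 0` iff `ord X < 0` -/
theorem rat_prod (x : RatFunc k) : {v : Place k (RatFunc k) | v.ord x ≠ 0}.Finite ∧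
    ∀ S : Finset (Place k (RatFunc k)), (∀ v, v.ord x ≠ 0 → v ∈ S) → ∑ v ∈ S, v.ord x = 0 := by
  classical
  have key : (Function.support fun v : Place k (RatFunc k) => v.ord x).Finite ∧
      ∑ᶠ v : Place k (RatFunc k), v.ord x = 0 := by
    induction x using rat_ind with
    | hC c =>
      have : ∀ v : Place k (RatFunc k), v.ord (RatFunc.C c) = 0 := fun v => v.ord_const c
      simp [this]
    | hX c =>
      obtain ⟨v, h1, h2⟩ := rat_place_fin c
      obtain ⟨u, h3, h4⟩ := rat_place_inf (k := k)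
      have hs : (Function.support fun w : Place k (RatFunc k) =>
          w.ord (RatFunc.X - RatFunc.C c)) ⊆ ({v, u} : Finset _) := fun w hw => by
        rcases lt_or_gt_of_ne hw with h | h
        · have := rat_neg h c
          rw [sub_add_cancel] at this
          simp [h4 w (this ▸ h)]
        · simp [h2 w h]
      have hne : v ≠ u := fun h => by
        have := h3 c
        rw [← h, h1] at this
        omega
      refine ⟨(Finset.finite_toSet _).subset hs, ?_⟩
      rw [finsum_eq_sum_of_support_subset _ hs, Finset.sum_pair hne, h1, h3, add_neg_cancel]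
    | hm x y hx hy h1 h2 =>
      have : ∀ v : Place k (RatFunc k), v.ord (x * y) = v.ord x + v.ord y :=
        fun v => v.ord_mul hx hy
      simp only [this]
      refine ⟨(h1.1.union h2.1).subset (Function.support_add _ _), ?_⟩
      rw [finsum_add_distrib h1.1 h2.1, h1.2, h2.2, add_zero]
    | hi x h =>
      simp only [Place.ord_inv]
      refine ⟨h.1.subset fun v hv => by simpa using hv, ?_⟩
      rw [finsum_neg_distrib, h.2, neg_zero]
  refine ⟨key.1, fun S hS => ?_⟩
  rw [← finsum_eq_sum_of_support_subset _ fun v hv => hS v hv, key.2]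

end Pool.Agent.Lib.MP_6adaea_nt
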