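import Pool.Agent.Lib.MP_6adaea_nt.V.FF1
import Pool.Agent.Lib.MP_6adaea_nt.V.Fibre
import Pool.Agent.Lib.MP_6adaea_nt.V.Rat

/-!
Function fields over an algebraically closed field: finite support and the product formula.
-/

set_option linter.unusedSectionVars false

namespace Pool.Agent.Lib.MP_6adaea_nt
open Module Polynomial

variable {k K : Type} [Field k] [Field K] [Algebra k K] [IsAlgClosed k]
  (p : ℕ) [Fact p.Prime] [CharP k p]

/-- a Galois closure -/
theorem ff2_closure (k F K : Type) [Field k] [Field F] [Field K] [Algebra k F] [Algebra k K]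
    [Algebra F K] [IsScalarTower k F K] [FiniteDimensional F K] [Algebra.IsSeparable F K] :
    ∃ (N : Type) (_ : Field N) (_ : Algebra k N) (_ : Algebra F N) (_ : Algebra K N),
      IsScalarTower k F N ∧ IsScalarTower k K N ∧ IsScalarTower F K N ∧ FiniteDimensional F N ∧
        IsGalois F N := by
  let E := SeparableClosure K
  have h1 : Algebra.IsSeparable F E := Algebra.IsSeparable.trans F K E
  have h2 : IsSepClosure F E := ⟨inferInstance, h1⟩
  have h3 : IsGalois F E := inferInstance
  let N := IntermediateField.normalClosure F K E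
  let _ : Algebra k N := ((algebraMap F N).comp (algebraMap k F)).toAlgebra
  have h4 : IsScalarTower k F N := IsScalarTower.of_algebraMap_eq fun _ => rfl
  have h5 : IsScalarTower k K N := IsScalarTower.of_algebraMap_eq fun c => by
    rw [IsScalarTower.algebraMap_apply k F K, ← IsScalarTower.algebraMap_apply F K N]
    rfl
  exact ⟨N, inferInstance, inferInstance, inferInstance, inferInstance, h4, h5, inferInstance,
    inferInstance, inferInstance⟩

/-- the algebra structure over the rational function field given by a transcendental element -/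
theorem ff2_alg [IsFF k K] {t : K} (ht : Transcendental k t) :
    ∃ _ : Algebra (RatFunc k) K, IsScalarTower k (RatFunc k) K ∧
      FiniteDimensional (RatFunc k) K ∧ algebraMap (RatFunc k) K RatFunc.X = t ∧
      (Algebra.IsSeparable (IntermediateField.adjoin k {t}) K →
        Algebra.IsSeparable (RatFunc k) K) := by
  have hf := IsFF.finite_adjoin ht
  let e := RatFunc.algEquivOfTranscendental t ht
  let _ : Algebra (RatFunc k) K :=
    ((algebraMap (IntermediateField.adjoin k {t}) K).comp e.toRingEquiv.toRingHom).toAlgebra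
  have he : RingHom.comp (algebraMap (RatFunc k) K) ↑e.toRingEquiv.symm =
      RingHom.comp ↑(RingEquiv.refl K) (algebraMap (IntermediateField.adjoin k {t}) K) := by
    ext x
    exact congrArg (algebraMap (IntermediateField.adjoin k {t}) K) (e.apply_symm_apply x)
  refine ⟨inferInstance, IsScalarTower.of_algebraMap_eq fun c => ?_,
    Module.Finite.of_equiv_equiv e.toRingEquiv.symm (RingEquiv.refl K) he,
    RatFunc.algEquivOfTranscendental_X t ht, fun _ =>
    Algebra.IsSeparable.of_equiv_equiv e.toRingEquiv.symm (RingEquiv.refl K) he⟩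
  rw [IsScalarTower.algebraMap_apply k (IntermediateField.adjoin k {t}) K, ← e.commutes]
  rfl

/-- a root of a monic polynomial with integral coefficients is integral -/
theorem ff2_ge {F : Type} [Field F] [Algebra F K] (w : Place k K) {x : K} {f : F[X]}
    (hf : f.Monic) (hx : aeval x f = 0) (h : ∀ i, w.Ge (algebraMap F K (f.coeff i)) 0) :
    w.Ge x 0 := by
  by_contra hc
  obtain ⟨h0, h1⟩ := Place.not_ge_iff.mp hc
  rw [aeval_def, eval₂_eq_sum_range] at hx
  refine (Place.ord_sum_of_lt (v := w) (Finset.self_mem_range_succ f.natDegree) ?_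
    fun i hi hne => ?_).1 hx
  · simp [hf.coeff_natDegree, h0]
  · have h2 : (i : ℤ) + 1 ≤ f.natDegree := by
      exact_mod_cast lt_of_le_of_ne (Nat.lt_succ_iff.mp (Finset.mem_range.mp hi)) hne
    simp only [hf.coeff_natDegree, map_one, one_mul, Place.ord_pow]
    exact ((h i).mul ((w.ge_ord x).pow i)).mono (by nlinarith)

section galois
variable {L : Type} [Field L] [Algebra k L] [Algebra L K] [IsScalarTower k L K] [IsFF k L]
  [FiniteDimensional L K] [IsGalois L K]

/-- finite support passes to Galois extensions -/
theorem ff2_fin_up (hL : ∀ y : L, {v : Place k L | v.ord y ≠ 0}.Finite) (x : K) :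
    {w : Place k K | w.ord x ≠ 0}.Finite := by
  classical
  by_cases hx : x = 0
  · simp [hx]
  choose fib hfib using fun v : Place k L => Place.exists_fibre K v
  have key : ∀ y : K, {w : Place k K | ¬ w.Ge y 0}.Finite := fun y => by
    have hT : (⋃ i ∈ (minpoly L y).support,
        {v : Place k L | v.ord ((minpoly L y).coeff i) ≠ 0}).Finite :=
      Set.Finite.biUnion (Finset.finite_toSet _) fun i _ => hL _
    refine (hT.biUnion fun v _ => (fib v).finite_toSet).subset fun w hw => ?_
    obtain ⟨v, e, hv⟩ := Place.exists_under (L := L) w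
    refine Set.mem_biUnion (x := v) ?_ ((hfib v w).mpr ⟨e, hv⟩)
    by_contra hc
    refine hw (ff2_ge w (minpoly.monic (Algebra.IsIntegral.isIntegral y)) (minpoly.aeval L y)
      fun i => hv.ge_zero.mpr ?_)
    by_cases hi : i ∈ (minpoly L y).support
    · refine Place.Ge.of_le (le_of_eq ?_)
      by_contra hne
      exact hc (Set.mem_biUnion (x := i) hi fun h => hne h.symm)
    · exact Or.inl (notMem_support_iff.mp hi)
  refine ((key x).union (key x⁻¹)).subset fun w hw => ?_
  by_contra hc
  simp only [Set.mem_union, Set.mem_ofPred_eq, not_or, not_not] at hc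
  have h1 := hc.1.le hx
  have h2 := hc.2.le (inv_ne_zero hx)
  rw [Place.ord_inv] at h2
  exact hw (by omega)

include p in
variable (K) in
/-- summation over the places above a finite set of places -/
theorem ff2_sum (T : Finset (Place k L)) : ∃ S : Finset (Place k K),
    (∀ w, w ∈ S ↔ ∃ v ∈ T, ∃ e, w.Over v e) ∧
      ∀ x : K, ∑ w ∈ S, w.ord x = ∑ v ∈ T, v.ord (Algebra.norm L x) := by
  classical
  choose fib hfib using fun v : Place k L => Place.exists_fibre K v
  refine ⟨T.biUnion fib, fun w => by simp [hfib], fun x => ?_⟩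
  rw [Finset.sum_biUnion]
  · exact Finset.sum_congr rfl fun v _ => Place.sum_fibre p (hfib v) x
  · intro v _ v' _ hne
    refine Finset.disjoint_left.mpr fun w h1 h2 => hne ?_
    obtain ⟨e, he⟩ := (hfib v w).mp h1
    obtain ⟨e', he'⟩ := (hfib v' w).mp h2
    exact he.unique_under he'

include p in
/-- the product formula passes to Galois extensions -/
theorem ff2_prod_up (hL : ∀ y : L, {v : Place k L | v.ord y ≠ 0}.Finite ∧
      ∀ T : Finset (Place k L), (∀ v, v.ord y ≠ 0 → v ∈ T) → ∑ v ∈ T, v.ord y = 0)
    (x : K) (S : Finset (Place k K)) (hS : ∀ w, w.ord x ≠ 0 → w ∈ S) :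
    ∑ w ∈ S, w.ord x = 0 := by
  classical
  choose und e hund using fun w : Place k K => Place.exists_under (L := L) w
  obtain ⟨S', h1, h2⟩ := ff2_sum K p (S.image und ∪ (hL (Algebra.norm L x)).1.toFinset)
  have h3 : S ⊆ S' := fun w hw => (h1 w).mpr
    ⟨und w, Finset.mem_union_left _ (Finset.mem_image_of_mem _ hw), e w, hund w⟩
  rw [Finset.sum_subset h3 fun w _ hw => by_contra fun h => hw (hS w h), h2]
  exact (hL _).2 _ fun v hv => Finset.mem_union_right _ (by simpa using hv)

omit [IsFF k L] in
/-- finite support passes to subfields -/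
theorem ff2_fin_down (hK : ∀ x : K, {w : Place k K | w.ord x ≠ 0}.Finite) (y : L) :
    {v : Place k L | v.ord y ≠ 0}.Finite := by
  choose und e hund using fun w : Place k K => Place.exists_under (L := L) w
  refine ((hK (algebraMap L K y)).image und).subset fun v hv => ?_
  obtain ⟨w, e', hw⟩ := exists_over K v
  refine ⟨w, ?_, (hund w).unique_under hw⟩
  rw [Set.mem_ofPred_eq, hw.2]
  exact mul_ne_zero (by exact_mod_cast hw.1.ne') hv

include p in
/-- the product formula passes to subfields -/
theorem ff2_prod_down (hK : ∀ (x : K) (S : Finset (Place k K)), (∀ w, w.ord x ≠ 0 → w ∈ S) →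
      ∑ w ∈ S, w.ord x = 0) (y : L) (T : Finset (Place k L)) (hT : ∀ v, v.ord y ≠ 0 → v ∈ T) :
    ∑ v ∈ T, v.ord y = 0 := by
  obtain ⟨S, h1, h2⟩ := ff2_sum K p T
  have h3 := hK (algebraMap L K y) S fun w hw => by
    obtain ⟨v, e, hv⟩ := Place.exists_under (L := L) w
    refine (h1 w).mpr ⟨v, hT v fun h => hw ?_, e, hv⟩
    rw [hv.2, h, mul_zero]
  rw [h2, Algebra.norm_algebraMap] at h3
  simp only [Place.ord_pow, ← Finset.mul_sum] at h3
  exact (mul_eq_zero.mp h3).resolve_left (by exact_mod_cast Module.finrank_pos.ne')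

end galois

include p in
/-- finite support and the product formula -/
theorem ff2_main [IsFF k K] : (∀ x : K, {v : Place k K | v.ord x ≠ 0}.Finite) ∧
    ∀ (x : K) (S : Finset (Place k K)), (∀ w, w.ord x ≠ 0 → w ∈ S) → ∑ w ∈ S, w.ord x = 0 := by
  obtain ⟨t, ht, -⟩ := IsFF.exists_gen k K p
  obtain ⟨_, h1, h2, -, h3⟩ := ff2_alg (IsFF.transcendental (k := k) p ht)
  have h4 := h3 (IsFF.sep_adjoin p ht)
  obtain ⟨N, _, _, _, _, h5, h6, h7, h8, h9⟩ := ff2_closure k (RatFunc k) K
  have h10 : IsFF k (RatFunc k) := (IsFF.of_sub (k := k) (K := K) (RatFunc k)).1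
  have h11 : FiniteDimensional K N := Module.Finite.of_restrictScalars_finite (RatFunc k) K N
  have h12 : IsGalois K N := IsGalois.tower_top_of_isGalois (RatFunc k) K N
  exact ⟨ff2_fin_down (K := N) (ff2_fin_up fun y => (rat_prod y).1),
    ff2_prod_down (K := N) p (ff2_prod_up p rat_prod)⟩

variable [IsFF k K]
include p

/-- Take a separating `t` (`IsFF.exists_gen`, `IsFF.sep_adjoin`), make `K` an algebra over
`F = RatFunc k` (as in `exists_psys_elt`), let `N` be a Galois closure of `K / F`
(`normalClosure F K (AlgebraicClosure K)`). In `N`: if all coefficients of the minimal polynomials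
of `x` and `x⁻¹` over `F` have order `0` or vanish at the place below `u` (`Place.exists_under`)
then `u.ord x = 0` (`Place.ge_of_isIntegral` or `QVal.exists_two_min`); fibres are finite. Every
place of `K` lies below a place of `N` (`exists_over`). -/
theorem IsFF.fin (x : K) : {v : Place k K | v.ord x ≠ 0}.Finite := by
  exact (ff2_main p).1 x

/-- With `F`, `N` as above: sum over the places of `N` fibrewise in two ways
(`Finset.sum_fiberwise_of_maps_to`, `Place.sum_fibre` for `N / F` and for `N / K`, where the norm
of `x` is `x ^ [N : K]`). -/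
theorem IsFF.prod (x : K) (S : Finset (Place k K)) (hS : ∀ v, v.ord x ≠ 0 → v ∈ S) :
    ∑ v ∈ S, v.ord x = 0 := by
  exact (ff2_main p).2 x S hS

/-- If `x` is not constant it is transcendental; write `x = y ^ p ^ a` with `y` not a `p`-th power
(possible since some place `v` exists and `x - c` has positive order there; or argue directly with
`exists_qval` and `QVal.Over.exists_place` for the finite extension `K / k⟮x⟯` and the place at
infinity `rat_place_inf`). -/
theorem IsFF.pole {x : K} (h : ∀ v : Place k K, v.Ge x 0) : ∃ c, x = algebraMap k K c := by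
  by_contra hc
  have ht : Transcendental k x := fun ha => by
    obtain ⟨c, hc'⟩ := minpoly.mem_range_of_degree_eq_one k x
      (IsAlgClosed.degree_eq_one_of_irreducible k (minpoly.irreducible ha.isIntegral))
    exact hc ⟨c, hc'.symm⟩
  have hx : x ≠ 0 := fun h0 => hc ⟨0, by simp [h0]⟩
  obtain ⟨_, h1, h2, h3, -⟩ := ff2_alg ht
  obtain ⟨v, hv, -⟩ := rat_place_inf (k := k)
  obtain ⟨V, hV⟩ := exists_qval K v
  obtain ⟨w, e, hw, -⟩ := hV.exists_place K
  have h4 := hw.2 RatFunc.X
  have h5 := hv 0
  rw [map_zero, sub_zero] at h5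
  rw [h3, h5] at h4
  have h6 := (h w).le hx
  have h7 := hw.1
  omega

end Pool.Agent.Lib.MP_6adaea_nt
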