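import Pool.Agent.Lib.MP_6adaea_nt.V.FFD

/-!
Coordinates over the subfield of powers.
-/

set_option linter.unusedSectionVars false

namespace Pool.Agent.Lib.MP_6adaea_nt
open Module Polynomial

variable {k K : Type} [Field k] [Field K] [Algebra k K] {p : ℕ} [IsAlgClosed k] [IsFF k K]
  [Fact p.Prime] [CharP k p]

/-- outside a finite set of places `t - c` is a uniformiser: if `κ v = 0`, `v.Ge t 0` and
`t - c = π * u` with `ord π = 1`, `v.Ge u 1`, then `1 = D (π * u)` has positive order -/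
theorem IsFF.unif {t : K} (ht : ¬ ∃ y, t = y ^ p) :
    {v : Place k K | ¬ ∃ c : k, v.ord (t - algebraMap k K c) = 1}.Finite := by
  have hp : p.Prime := Fact.out
  have hK : CharP K p := charP_of_injective_algebraMap (algebraMap k K).injective p
  obtain ⟨P, hP⟩ := IsFF.exists_ffd k ht
  refine (P.κ.hasFiniteSupport.union (IsFF.fin (k := k) p t)).subset fun v hv => ?_
  by_contra h
  simp only [Set.mem_union, Function.mem_support, Set.mem_ofPred_eq, not_or, not_not] at h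
  obtain ⟨c, hc⟩ := v.exists_res (x := t) (Place.Ge.of_le h.2.ge)
  obtain ⟨d, hd⟩ := IsAlgClosed.exists_pow_nat_eq c hp.pos
  have h0 : t - algebraMap k K c ≠ 0 := fun e =>
    ht ⟨algebraMap k K d, by rw [← map_pow, hd, ← sub_eq_zero, e]⟩
  have h1 := hc.le h0
  have h2 : v.ord (t - algebraMap k K c) ≠ 1 := fun e => hv ⟨c, e⟩
  obtain ⟨π, hπ0, hπ⟩ := v.surj
  have hu : v.Ge ((t - algebraMap k K c) / π) 1 :=
    Place.Ge.of_le (by rw [v.ord_div h0 hπ0]; omega)
  have hD : ∀ x, v.Ge x 0 → v.Ge (P.D x) 0 := fun x hx => by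
    simpa [h.1] using P.der v x hx
  have e : P.D (π * ((t - algebraMap k K c) / π)) = 1 := by
    rw [mul_div_cancel₀ _ hπ0, map_sub, hP, ← hd, map_pow, Derivation.leibniz_pow, nsmul_eq_mul,
      CharP.cast_eq_zero, zero_mul, sub_zero]
  rw [Derivation.leibniz, smul_eq_mul, smul_eq_mul] at e
  have h3 := ((Place.Ge.of_le hπ.ge).mul (hD _ (hu.mono zero_le_one))).add
    (hu.mul (hD _ (Place.Ge.of_le (hπ.ge.trans' zero_le_one))))
  rw [e] at h3
  simpa using h3.le one_ne_zero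

/-- for a uniformiser the terms have pairwise different orders -/
theorem Place.coord_unif (v : Place k K) {π : K} (hπ : v.ord π = 1) {Q : ℕ} (g : Fin Q → K) (m : ℤ)
    (h : v.Ge (∑ i : Fin Q, π ^ (i : ℕ) * g i ^ Q) (Q * m)) (i : Fin Q) : v.Ge (g i) m := by
  classical
  by_contra hi
  obtain ⟨h0, h1⟩ := Place.not_ge_iff.1 hi
  have hπ0 : π ≠ 0 := fun e => by simp [e] at hπ
  have ho : ∀ j : Fin Q, g j ≠ 0 → v.ord (π ^ (j : ℕ) * g j ^ Q) = j + Q * v.ord (g j) :=
    fun j hj => by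
      rw [v.ord_mul (pow_ne_zero _ hπ0) (pow_ne_zero _ hj), v.ord_pow, v.ord_pow, hπ, mul_one]
  obtain ⟨j, hj, hmin⟩ := (Finset.univ.filter fun j : Fin Q => g j ≠ 0).exists_min_image
    (fun j => (j : ℤ) + Q * v.ord (g j)) ⟨i, by simpa using h0⟩
  have hj0 : g j ≠ 0 := by simpa using hj
  obtain ⟨s0, s1⟩ := Place.ord_sum_of_lt (v := v) (f := fun i : Fin Q => π ^ (i : ℕ) * g i ^ Q)
    (Finset.mem_univ j) (mul_ne_zero (pow_ne_zero _ hπ0) (pow_ne_zero _ hj0)) fun l _ hl => by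
      by_cases hl0 : g l = 0
      · left
        rw [hl0, zero_pow i.pos.ne', mul_zero]
      · refine Place.Ge.of_le ?_
        rw [ho j hj0, ho l hl0]
        refine lt_of_le_of_ne (hmin l (by simpa using hl0)) fun e => hl (Fin.ext ?_)
        have a1 := j.2
        have a2 := l.2
        have a3 : (j : ℤ) - l = 0 := Int.eq_zero_of_abs_lt_dvd (m := Q)
          ⟨v.ord (g l) - v.ord (g j), by linear_combination e⟩ (abs_lt.2 ⟨by omega, by omega⟩)
        omega
  have h2 := h.le s0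
  have h3 := hmin i (by simpa using h0)
  have h4 : (i : ℤ) < Q := by exact_mod_cast i.2
  have h5 : (Q : ℤ) * v.ord (g i) ≤ Q * (m - 1) :=
    mul_le_mul_of_nonneg_left (by omega) (Int.natCast_nonneg Q)
  rw [s1, ho j hj0] at h2
  linarith

theorem coord_aux {t : K} (ht : ¬ ∃ y, t = y ^ p) (a : ℕ) (v : Place k K) {π : K}
    (hπ : v.ord π = 1) (b : Fin (p ^ a) → Fin (p ^ a) → K)
    (hb : ∀ j : Fin (p ^ a), π ^ (j : ℕ) = ∑ i : Fin (p ^ a), t ^ (i : ℕ) * b j i ^ p ^ a) (n : ℕ)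
    (hn : ∀ j i, v.Ge (b j i) (-n)) (g : Fin (p ^ a) → K) (m : ℤ)
    (h : v.Ge (∑ i : Fin (p ^ a), t ^ (i : ℕ) * g i ^ p ^ a) ((p ^ a : ℕ) * m)) (i : Fin (p ^ a)) :
    v.Ge (g i) (m - n) := by
  have hp : p.Prime := Fact.out
  have hK : CharP K p := charP_of_injective_algebraMap (algebraMap k K).injective p
  have hπ' : ¬ ∃ y, π = y ^ p := by
    rintro ⟨y, rfl⟩
    rw [v.ord_pow] at hπ
    exact hp.one_lt.ne' (by
      exact_mod_cast Int.eq_one_of_dvd_one (Int.natCast_nonneg p) ⟨_, hπ.symm⟩)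
  obtain ⟨h', e, -⟩ := IsFF.exists_coord k p hπ' a (∑ i : Fin (p ^ a), t ^ (i : ℕ) * g i ^ p ^ a)
  have h1 := v.coord_unif hπ h' m (e ▸ h)
  have h2 : g = fun i => ∑ j, b j i * h' j := by
    refine (IsFF.exists_coord k p ht a _).unique rfl (e.trans ?_)
    simp only [hb, sum_pow_char_pow, Finset.mul_sum, Finset.sum_mul, mul_pow, mul_assoc]
    exact Finset.sum_comm
  rw [h2, sub_eq_neg_add]
  exact Place.Ge.sum fun j _ => (hn j i).mul (h1 j)

/-- COORD. Let `π` be a uniformiser at `v` (not a `p`-th power), write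
`π ^ j = ∑ i, t ^ i * b j i ^ Q` and `f = ∑ j, π ^ j * h j ^ Q` (`IsFF.exists_coord`); then
`g i = ∑ j, b j i * h j` by uniqueness. For `π = t - c` the `b j i` are constants (binomial
formula, `k` is perfect). Use `IsFF.unif` and `coord_unif`. -/
theorem IsFF.coord_bound {t : K} (ht : ¬ ∃ y, t = y ^ p) (a : ℕ) :
    ∃ κ : Place k K →₀ ℕ, ∀ (v : Place k K) (g : Fin (p ^ a) → K) (m : ℤ),
      v.Ge (∑ i : Fin (p ^ a), t ^ (i : ℕ) * g i ^ p ^ a) ((p ^ a : ℕ) * m) →
        ∀ i, v.Ge (g i) (m - κ v) := by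
  classical
  have hp : p.Prime := Fact.out
  have h1 : ∀ v : Place k K, ∃ n : ℕ, ∀ (g : Fin (p ^ a) → K) (m : ℤ),
      v.Ge (∑ i : Fin (p ^ a), t ^ (i : ℕ) * g i ^ p ^ a) ((p ^ a : ℕ) * m) →
        ∀ i, v.Ge (g i) (m - n) := fun v => by
    obtain ⟨π, -, hπ⟩ := v.surj
    choose b hb using fun j : Fin (p ^ a) => (IsFF.exists_coord k p ht a (π ^ (j : ℕ))).exists
    refine ⟨Finset.univ.sup fun x : Fin (p ^ a) × Fin (p ^ a) => (-v.ord (b x.1 x.2)).toNat,
      coord_aux ht a v hπ b hb _ fun j i => Place.Ge.of_le ?_⟩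
    have := Finset.le_sup (f := fun x : Fin (p ^ a) × Fin (p ^ a) => (-v.ord (b x.1 x.2)).toNat)
      (Finset.mem_univ (j, i))
    simp only at this
    omega
  choose n hn using h1
  refine ⟨Finsupp.onFinset (IsFF.unif (k := k) ht).toFinset
    (fun v => if ∃ c : k, v.ord (t - algebraMap k K c) = 1 then 0 else n v) fun v hv => ?_,
    fun v => ?_⟩
  · rw [Set.Finite.mem_toFinset]
    exact fun h => hv (if_pos h)
  · rw [Finsupp.onFinset_apply]
    split_ifs with h
    · obtain ⟨c, hc⟩ := h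
      choose d hd using fun x : k => IsAlgClosed.exists_pow_nat_eq x (pow_pos hp.pos a)
      refine coord_aux ht a v hc (fun j i => algebraMap k K (d (((X - C c) ^ (j : ℕ)).coeff i)))
        (fun j => ?_) 0 fun j i => by simpa using v.ge_const _
      have e := aeval_eq_sum_range' (p := (X - C c) ^ (j : ℕ)) (n := p ^ a)
        (by rw [natDegree_pow, natDegree_X_sub_C, mul_one]; exact j.2) t
      rw [map_pow, map_sub, aeval_X, aeval_C, Finset.sum_range] at e
      rw [e]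
      refine Finset.sum_congr rfl fun i _ => ?_
      rw [← map_pow, hd, Algebra.smul_def, mul_comm]
    · exact hn v

end Pool.Agent.Lib.MP_6adaea_nt
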