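import Pool.Agent.Lib.MP_6adaea_nt.V.Ram1
import Pool.Agent.Lib.MP_6adaea_nt.V.Res2

/-!
Elements fixed by the stabiliser of a valuation; the total defect in a Galois extension.
-/

set_option linter.unusedSectionVars false

namespace Pool.Agent.Lib.MP_6adaea_nt
open Module Polynomial

variable {k K : Type} [Field k] [Field K] [Algebra k K] [IsAlgClosed k] [IsFF k K]
  (p : ℕ) [Fact p.Prime] [CharP k p]

variable {E : Type} [Field E] [Algebra k E] [Algebra K E] [IsScalarTower k K E] [IsGalois K E]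

theorem ram_lift {N : Type} [Field N] [Algebra k N] [Algebra K N] [Algebra N E]
    [IsScalarTower k K N] [IsScalarTower K N E] {V : QVal E} {w : Place k N} {e : ℕ} (he : 0 < e)
    (h : ∀ x : N, (w.ord x : ℚ) = e * V.ord (algebraMap N E x)) {σ : N ≃ₐ[K] N}
    (hσ : σ ∈ w.inertia K) :
    ∃ τ ∈ V.stab K, ∀ x : N, τ (algebraMap N E x) = algebraMap N E (σ x) :=
  V.exists_lift N ((IsScalarTower.toAlgHom K N E).comp σ) fun x =>
    mul_left_cancel₀ (Nat.cast_ne_zero.2 he.ne' : (e : ℚ) ≠ 0)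
      ((h (σ x)).symm.trans ((congrArg _ (Place.ord_inertia hσ x)).trans (h x)))

include p in
/-- LT1. `x` lies in a finite Galois subextension `N`; `QVal.Over.exists_place`,
`QVal.exists_lift`, `Place.mem_inertia_iff`, `Place.Over.approx`. -/
theorem QVal.Over.approx {V : QVal E} {v : Place k K} (hV : V.Over v) {x : E}
    (hx : ∀ σ ∈ V.stab K, σ x = x) (n : ℚ) : ∃ y : K, V.Ge (x - algebraMap K E y) n := by
  obtain ⟨N, h1, h2, hN⟩ : ∃ N : IntermediateField K E, FiniteDimensional K N ∧ IsGalois K N ∧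
      x ∈ N := ⟨FiniteGaloisIntermediateField.adjoin K {x}, inferInstance, inferInstance,
    FiniteGaloisIntermediateField.subset_adjoin K {x} rfl⟩
  have := IsFF.of_finite (k := k) K N
  obtain ⟨w, e, hw, h⟩ := hV.exists_place N
  obtain ⟨y, hy⟩ := hw.approx p (x := ⟨x, hN⟩) (fun σ hσ => by
    obtain ⟨τ, hτ, h3⟩ := ram_lift hw.1 h hσ
    exact Subtype.ext ((h3 ⟨x, hN⟩).symm.trans (hx τ hτ))) ⌈e * n⌉
  refine ⟨y, hy.imp (fun h3 => congrArg Subtype.val h3) fun h3 => ?_⟩
  have h4 : (e : ℚ) * n ≤ e * V.ord (x - algebraMap K E y) :=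
    ((Int.le_ceil _).trans (Int.cast_le.2 h3)).trans_eq (h _)
  exact le_of_mul_le_mul_left h4 (Nat.cast_pos.2 hw.1)

include p in
theorem QVal.Over.int_of_fix {V : QVal E} {v : Place k K} (hV : V.Over v) {x : E}
    (hx : ∀ σ ∈ V.stab K, σ x = x) : ∃ n : ℤ, V.ord x = n := by
  by_cases h0 : x = 0
  · exact ⟨0, by simp [h0]⟩
  obtain ⟨y, hy⟩ := hV.approx p hx (V.ord x + 1)
  have h1 : V.Gt (algebraMap K E y - x) (V.ord x) := by
    simpa using (hy.gt (lt_add_one _)).neg
  exact ⟨v.ord y, (QVal.ord_eq_of_sub h0 h1).2.symm.trans (hV y)⟩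

/-- RAM. For `w` over `v` with index `e` take `V` from `Place.Over.exists_qval`; inertia elements
lift (`QVal.exists_lift`); apply `der_bound` with `b = ⌊e * s v⌋₊` and put
`κ' w = e * κ v + e * b`; sum with `Place.exists_fibre`, `Place.card_fibre`
(`card * e = n`, `e ≤ n`). -/
theorem FFD.exists_ram (P : FFD k K p) (N : Type) [Field N] [Algebra k N] [Algebra K N]
    [Algebra N E] [IsScalarTower k K N] [IsScalarTower K N E] [FiniteDimensional K N]
    [IsGalois K N] (s : Place k K →₀ ℚ) (h0 : ∀ v, 0 ≤ s v)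
    (hs : ∀ (v : Place k K) (V : QVal E), V.Over v → ∀ σ ∈ V.stab K,
      (∃ x : N, σ (algebraMap N E x) ≠ algebraMap N E x) → ∃ u : N, V.Ge (algebraMap N E u) 0 ∧
        ¬ V.Gt (σ (algebraMap N E u) - algebraMap N E u) (s v)) :
    ∃ P' : FFD k N p, (P'.kap : ℚ) ≤ finrank K N * P.kap + finrank K N ^ 2 * s.sum fun _ a => a := by
  classical
  have := IsFF.of_finite (k := k) K N
  have : Algebra.IsAlgebraic N E := Algebra.IsAlgebraic.tower_top (K := K) N
  obtain ⟨D', hD, hker⟩ := IsFF.exists_der_ext (N := N) k p P.D P.ker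
  choose u e hu using fun w : Place k N => w.exists_under (L := K)
  choose S hS using fun v : Place k K => Place.exists_fibre N v
  let f : Place k N → ℕ := fun w => e w * P.κ (u w) + e w * ⌊e w * s (u w)⌋₊
  have hT : ∀ w, f w ≠ 0 → u w ∈ P.κ.support ∪ s.support := fun w hw => by
    by_contra h1
    simp only [Finset.mem_union, Finsupp.mem_support_iff, not_or, not_not] at h1
    exact hw (by simp [f, h1.1, h1.2])
  let κ : Place k N →₀ ℕ := Finsupp.onFinset ((P.κ.support ∪ s.support).biUnion S) f fun w hw =>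
    Finset.mem_biUnion.2 ⟨u w, hT w hw, (hS _ _).2 ⟨_, hu w⟩⟩
  refine ⟨⟨κ, D', fun w x hx => ?_, hker⟩, ?_⟩
  · refine (hu w).der_bound p P.D D' hD (P.der (u w)) (fun σ hσ h1 => ?_) x hx
    obtain ⟨V, hV, h⟩ := (hu w).exists_qval E
    obtain ⟨τ, hτ, h2⟩ := ram_lift (hu w).1 h hσ
    obtain ⟨y, hy, h3⟩ := hs (u w) V hV τ hτ (by
      by_contra h3
      push Not at h3
      exact h1 (AlgEquiv.ext fun y => (algebraMap N E).injective ((h2 y).symm.trans (h3 y))))
    refine ⟨y, hy.imp (fun h4 => by simpa using h4) fun h4 => ?_, fun h4 => h3 ?_⟩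
    · have h5 : (0 : ℚ) ≤ w.ord y := (h y).symm ▸ mul_nonneg (Nat.cast_nonneg _) h4
      exact_mod_cast h5
    · rw [h2, ← map_sub]
      refine h4.imp (fun h5 => by rw [h5, map_zero]) fun h5 => ?_
      have h6 : ((⌊e w * s (u w)⌋₊ : ℕ) : ℚ) + 1 ≤ w.ord (σ y - y) := by exact_mod_cast h5
      rw [h] at h6
      exact lt_of_mul_lt_mul_left ((Nat.lt_floor_add_one _).trans_le h6) (Nat.cast_nonneg _)
  · have hn : (0 : ℚ) ≤ finrank K N := Nat.cast_nonneg _
    have h1 : ∀ v, ∑ w ∈ κ.support with u w = v, (f w : ℚ) ≤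
        finrank K N * P.κ v + finrank K N ^ 2 * s v := fun v => by
      have hB : (0 : ℚ) ≤ finrank K N * P.κ v + finrank K N ^ 2 * s v :=
        add_nonneg (by positivity) (mul_nonneg (by positivity) (h0 v))
      have h2 : (κ.support.filter fun w => u w = v) ⊆ S v := fun w hw =>
        (hS _ _).2 ⟨_, (Finset.mem_filter.1 hw).2 ▸ hu w⟩
      rcases Nat.eq_zero_or_pos (S v).card with h3 | h3
      · rw [Finset.card_eq_zero.1 h3, Finset.subset_empty] at h2
        rwa [h2, Finset.sum_empty]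
      have h4 : (0 : ℚ) < (S v).card := Nat.cast_pos.2 h3
      refine le_of_mul_le_mul_left ?_ h4
      rw [Finset.mul_sum]
      refine (Finset.sum_le_card_nsmul _ _ _ fun w hw => ?_).trans (by
        rw [nsmul_eq_mul]
        exact mul_le_mul_of_nonneg_right (Nat.cast_le.2 (Finset.card_le_card h2)) hB)
      obtain rfl := (Finset.mem_filter.1 hw).2
      have h5 := Place.card_fibre p (hS (u w)) (hu w)
      have h6 : (e w : ℚ) ≤ finrank K N := Nat.cast_le.2 (h5 ▸ Nat.le_mul_of_pos_left _ h3)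
      have h7 : ((S (u w)).card : ℚ) * e w = finrank K N := by exact_mod_cast h5
      have h8 : ((⌊e w * s (u w)⌋₊ : ℕ) : ℚ) ≤ finrank K N * s (u w) :=
        (Nat.floor_le (mul_nonneg (Nat.cast_nonneg _) (h0 _))).trans
          (mul_le_mul_of_nonneg_right h6 (h0 _))
      simp only [f, Nat.cast_add, Nat.cast_mul]
      rw [mul_add, ← mul_assoc, ← mul_assoc, h7, sq, mul_assoc]
      exact add_le_add le_rfl (mul_le_mul_of_nonneg_left h8 hn)
    have h2 : ∑ v ∈ P.κ.support ∪ s.support, ∑ w ∈ κ.support with u w = v, (f w : ℚ) =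
        ∑ w ∈ κ.support, (f w : ℚ) :=
      Finset.sum_fiberwise_of_maps_to (fun w hw => hT w (Finsupp.mem_support_iff.1 hw)) _
    have h3 := Finset.sum_le_sum fun v (_ : v ∈ P.κ.support ∪ s.support) => h1 v
    rw [h2, Finset.sum_add_distrib, ← Finset.mul_sum, ← Finset.mul_sum] at h3
    rw [FFD.kap, FFD.kap, Finsupp.sum_of_support_subset P.κ Finset.subset_union_left _ (by simp),
      Finsupp.sum_of_support_subset s Finset.subset_union_right _ (by simp), Finsupp.sum]
    push_cast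
    exact h3

end Pool.Agent.Lib.MP_6adaea_nt
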