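import Pool.Agent.Lib.MP_6adaea_nt.V.QVal

/-!
The passage to the constant field extension.
-/

set_option linter.unusedSectionVars false

namespace Pool.Agent.Lib.MP_6adaea_nt
open Module Polynomial

section setup
variable (k L E : Type) [Field k] [Finite k] [Field L] [Field E] [Algebra k L] [Algebra L E]
  [Algebra k E] [IsScalarTower k L E]

/-- the algebraic closure of the constants -/
abbrev Kb : IntermediateField k E := algebraicClosure k E

/-- the constant field extension -/
abbrev Kc : IntermediateField L E := IntermediateField.adjoin L (Kb k E : Set E)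

instance algKbKc : Algebra (Kb k E) (Kc k L E) :=
  RingHom.toAlgebra ((Kb k E).val.toRingHom.codRestrict (Kc k L E).toSubring
    fun c => IntermediateField.subset_adjoin L _ c.2)

instance towerKbKc : IsScalarTower (Kb k E) (Kc k L E) E :=
  IsScalarTower.of_algebraMap_eq fun _ => rfl

instance towerkKb : IsScalarTower k (Kb k E) (Kc k L E) :=
  IsScalarTower.of_algebraMap_eq fun c => Subtype.ext (show algebraMap k E c = algebraMap k E c from rfl)

/-- `k` is perfect, so irreducible polynomials over `Kb` are separable and have a root in `E` -/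
theorem kb_isAlgClosed [IsSepClosed E] : IsAlgClosed (Kb k E) := by
  have : PerfectField (Kb k E) := Algebra.IsAlgebraic.perfectField k
  refine IsAlgClosed.of_exists_root _ fun p hp hi => ?_
  obtain ⟨x, hx⟩ := IsSepClosed.exists_aeval_eq_zero E p (degree_pos_of_irreducible hi).ne'
    (PerfectField.separable_of_irreducible hi)
  have h1 : x ∈ algebraicClosure (Kb k E) E := mem_algebraicClosure_iff.2 ⟨p, hp.ne_zero, hx⟩
  rw [algebraicClosure.algebraicClosure_eq_bot] at h1
  obtain ⟨y, rfl⟩ := IntermediateField.mem_bot.1 h1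
  refine ⟨y, (algebraMap (Kb k E) E).injective ?_⟩
  rw [map_zero, ← hx, aeval_algebraMap_apply, coe_aeval_eq_eval]

/-- automorphisms over `L` preserve `Kb` -/
theorem kb_map (σ : E ≃ₐ[L] E) : ∃ a : Kb k E ≃+* Kb k E, ∀ c : Kb k E, σ c = a c := by
  exact ⟨(algebraicClosure.algEquivOfAlgEquiv (σ.restrictScalars k)).toRingEquiv, fun _ => rfl⟩

theorem setup_mem (σ : E ≃ₐ[L] E) {x : E} (hx : x ∈ Kc k L E) : σ x ∈ Kc k L E := by
  obtain ⟨a, ha⟩ := kb_map k L E σ
  induction hx using IntermediateField.adjoin_induction with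
  | mem x hx => exact IntermediateField.subset_adjoin _ _ (by rw [ha ⟨x, hx⟩]; exact (a _).2)
  | algebraMap x => rw [σ.commutes]; exact IntermediateField.algebraMap_mem _ _
  | add x y _ _ h1 h2 => rw [map_add]; exact add_mem h1 h2
  | inv x _ h1 => rw [map_inv₀]; exact inv_mem h1
  | mul x y _ _ h1 h2 => rw [map_mul]; exact mul_mem h1 h2

theorem kc_map (σ : E ≃ₐ[L] E) : ∃ a : Kc k L E ≃+* Kc k L E, ∀ c : Kc k L E, σ c = a c := by
  exact ⟨{ toFun := fun c => ⟨σ c, setup_mem k L E σ c.2⟩
           invFun := fun c => ⟨σ.symm c, setup_mem k L E σ.symm c.2⟩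
           left_inv := fun c => Subtype.ext (σ.symm_apply_apply c)
           right_inv := fun c => Subtype.ext (σ.apply_symm_apply c)
           map_mul' := fun a b => Subtype.ext (map_mul σ (a : E) b)
           map_add' := fun a b => Subtype.ext (map_add σ (a : E) b) }, fun _ => rfl⟩

theorem setup_pow {x : E} (hx : IsIntegral k x) : x ^ Nat.card k ^ (minpoly k x).natDegree = x := by
  have := IntermediateField.adjoin.finiteDimensional hx
  have : Finite (IntermediateField.adjoin k {x}) := Module.finite_of_finite k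
  have := Fintype.ofFinite (IntermediateField.adjoin k {x})
  have h := FiniteField.pow_card (IntermediateField.AdjoinSimple.gen k x)
  rw [← Nat.card_eq_fintype_card, Module.natCard_eq_pow_finrank (K := k),
    IntermediateField.adjoin.finrank hx] at h
  exact congrArg Subtype.val h

theorem setup_order {x : E} (hx : x ∈ Kb k E) (h0 : x ≠ 0) : ∃ N, 0 < N ∧ x ^ N = 1 := by
  have h1 := mem_algebraicClosure_iff'.1 hx
  have h2 := setup_pow k E h1
  have h3 : 1 < Nat.card k ^ (minpoly k x).natDegree :=
    Nat.one_lt_pow (minpoly.natDegree_pos h1).ne' Finite.one_lt_card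
  refine ⟨Nat.card k ^ (minpoly k x).natDegree - 1, by omega, mul_right_cancel₀ h0 ?_⟩
  rw [← pow_succ, Nat.sub_add_cancel h3.le, h2, one_mul]

/-- an element of `Kb` lies in a finite field `k⟮c⟯`, on which automorphisms are powers of
Frobenius -/
theorem kb_comm (σ τ : E ≃ₐ[L] E) (c : Kb k E) : σ (τ c) = τ (σ c) := by
  by_cases hc : (c : E) = 0
  · simp [hc]
  obtain ⟨N, hN, h⟩ := setup_order k E c.2 hc
  have hf : IsOfFinOrder (c : E) := isOfFinOrder_iff_pow_eq_one.2 ⟨N, hN, h⟩
  have : NeZero (orderOf (c : E)) := ⟨hf.orderOf_pos.ne'⟩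
  have key : ∀ ρ : E ≃ₐ[L] E, ∃ i : ℕ, ρ c = (c : E) ^ i := fun ρ => by
    obtain ⟨i, -, hi⟩ := (IsPrimitiveRoot.orderOf (c : E)).eq_pow_of_pow_eq_one (ξ := ρ c)
      (by rw [← map_pow, pow_orderOf_eq_one, map_one])
    exact ⟨i, hi.symm⟩
  obtain ⟨i, hi⟩ := key σ
  obtain ⟨j, hj⟩ := key τ
  rw [hi, hj, map_pow, map_pow, hi, hj, ← pow_mul, ← pow_mul, mul_comm]

/-- an automorphism that fixes `Kb` fixes `Kc` -/
theorem kc_fix (σ : E ≃ₐ[L] E) (h : ∀ c : Kb k E, σ c = c) :
    ∃ σ' : E ≃ₐ[Kc k L E] E, ∀ x, σ' x = σ x := by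
  have key : ∀ x ∈ Kc k L E, σ x = x := fun x hx => by
    induction hx using IntermediateField.adjoin_induction with
    | mem x hx => exact h ⟨x, hx⟩
    | algebraMap x => exact σ.commutes x
    | add x y _ _ h1 h2 => rw [map_add, h1, h2]
    | inv x _ h1 => rw [map_inv₀, h1]
    | mul x y _ _ h1 h2 => rw [map_mul, h1, h2]
  exact ⟨{ σ.toRingEquiv with commutes' := fun x => key x x.2 }, fun _ => rfl⟩

variable [Algebra (RatFunc k) L] [IsScalarTower k (RatFunc k) L] [FiniteDimensional (RatFunc k) L]

theorem kc_transcendental : Transcendental (Kb k E)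
    (algebraMap L (Kc k L E) (algebraMap (RatFunc k) L RatFunc.X)) := by
  refine Transcendental.extendScalars (R := k) (S := Kb k E) ?_
  rw [transcendental_algebraMap_iff (algebraMap L (Kc k L E)).injective,
    transcendental_algebraMap_iff (algebraMap (RatFunc k) L).injective]
  exact RatFunc.transcendental_X

/-- `Kc` is generated over `Kb⟮θ⟯` by a basis of `L` over `RatFunc k` -/
theorem kc_isFF : IsFF (Kb k E) (Kc k L E) := by
  refine ⟨_, kc_transcendental k L E, ?_⟩
  set θ := algebraMap L (Kc k L E) (algebraMap (RatFunc k) L RatFunc.X) with hθ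
  set F₀ := IntermediateField.adjoin (Kb k E) {θ} with hF
  let ψ : RatFunc k →+* Kc k L E := (algebraMap L (Kc k L E)).comp (algebraMap (RatFunc k) L)
  have hp : ∀ p : k[X], ψ (algebraMap k[X] (RatFunc k) p) ∈ F₀ := fun p => by
    induction p using Polynomial.induction_on' with
    | add p q h1 h2 => rw [map_add, map_add]; exact add_mem h1 h2
    | monomial n a =>
      rw [← C_mul_X_pow_eq_monomial, map_mul, map_pow, map_mul, map_pow, RatFunc.algebraMap_X,
        RatFunc.algebraMap_C]
      refine mul_mem ?_ (pow_mem (IntermediateField.mem_adjoin_simple_self _ θ) n)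
      have e : ψ (RatFunc.C a) = algebraMap (Kb k E) (Kc k L E) (algebraMap k (Kb k E) a) := by
        rw [← IsScalarTower.algebraMap_apply, IsScalarTower.algebraMap_apply k L,
          IsScalarTower.algebraMap_apply k (RatFunc k) L]
        rfl
      rw [e]
      exact F₀.algebraMap_mem _
  have hψ : ∀ r, ψ r ∈ F₀ := fun r => by
    rw [← RatFunc.num_div_denom r, map_div₀]
    exact div_mem (hp _) (hp _)
  let b := Module.finBasis (RatFunc k) L
  let S : Set (Kc k L E) := Set.range fun i => algebraMap L (Kc k L E) (b i)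
  have hfd : FiniteDimensional F₀ (IntermediateField.adjoin F₀ S) :=
    IntermediateField.finiteDimensional_adjoin (by
      rintro _ ⟨i, rfl⟩
      exact IsIntegral.map_of_comp_eq (ψ.codRestrict F₀ hψ) (algebraMap L (Kc k L E))
        (RingHom.ext fun _ => rfl) (Algebra.IsIntegral.isIntegral (b i)))
  have htop : IntermediateField.adjoin F₀ S = ⊤ := by
    refine eq_top_iff.2 fun ⟨x, hx⟩ h0 => ?_
    clear h0
    induction hx using IntermediateField.adjoin_induction with
    | mem x hx =>
      exact (IntermediateField.adjoin F₀ S).algebraMap_mem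
        ⟨_, F₀.algebraMap_mem (⟨x, hx⟩ : Kb k E)⟩
    | algebraMap x =>
      change algebraMap L (Kc k L E) x ∈ _
      rw [← b.sum_repr x, map_sum]
      refine sum_mem fun i _ => ?_
      rw [Algebra.smul_def, map_mul]
      exact mul_mem ((IntermediateField.adjoin F₀ S).algebraMap_mem ⟨_, hψ (b.repr x i)⟩)
        (IntermediateField.subset_adjoin _ _ ⟨i, rfl⟩)
    | add x y _ _ h1 h2 => exact add_mem h1 h2
    | inv x _ h1 => exact inv_mem h1
    | mul x y _ _ h1 h2 => exact mul_mem h1 h2
  rw [htop] at hfd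
  exact IntermediateField.topEquiv.toLinearEquiv.finiteDimensional

theorem setup_const {a : L} (ha : IsIntegral k a) :
    a ^ Nat.card k ^ (finrank (RatFunc k) L).factorial = a := by
  have hi : IsIntegral (RatFunc k) a := Algebra.IsIntegral.isIntegral a
  have h1 : minpoly (RatFunc k) a ∈ lifts (algebraMap k (RatFunc k)) := by
    refine (lifts_iff_coeff_lifts _).2 fun n => ?_
    have h2 := isIntegral_coeff_of_dvd (minpoly k a) (minpoly (RatFunc k) a) (minpoly.monic ha)
      (minpoly.monic hi) (minpoly.dvd_map_of_isScalarTower k (RatFunc k) a) n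
    by_contra h3
    exact RatFunc.transcendental_of_ne_C _ (fun ⟨c, hc⟩ => h3 ⟨c, hc.symm⟩) h2.isAlgebraic
  obtain ⟨P, hP, hd, hm⟩ := lifts_and_natDegree_eq_and_monic h1 (minpoly.monic hi)
  have h2 : aeval a P = 0 := by
    rw [← aeval_map_algebraMap (RatFunc k), hP, minpoly.aeval]
  have h3 : (minpoly k a).natDegree ≤ finrank (RatFunc k) L :=
    (natDegree_le_natDegree (minpoly.min k a hm h2)).trans (hd.le.trans (minpoly.natDegree_le a))
  obtain ⟨m, hm'⟩ := Nat.dvd_factorial (minpoly.natDegree_pos ha) h3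
  have h4 := setup_pow k L ha
  rw [hm']
  clear hm'
  induction m with
  | zero => simp
  | succ m ih => rw [mul_add, mul_one, pow_add, pow_mul, ih, h4]

theorem setup_conj [Normal L E] {x : E} (hx : IsIntegral k x) :
    ∃ σ : E ≃ₐ[L] E, σ x = x ^ Nat.card k ^ (finrank (RatFunc k) L).factorial := by
  have hi : IsIntegral L x := hx.tower_top
  refine minpoly.exists_algEquiv_of_root' hi.isAlgebraic ?_
  have := Fintype.ofFinite k
  let Φ := FiniteField.frobeniusAlgHom k E ^ (finrank (RatFunc k) L).factorial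
  have hΦ : ∀ y, Φ y = y ^ Nat.card k ^ (finrank (RatFunc k) L).factorial := fun y => by
    simp only [Φ, AlgHom.coe_pow, FiniteField.coe_frobeniusAlgHom, pow_iterate,
      Nat.card_eq_fintype_card]
  have h1 := congrArg Φ (minpoly.aeval L x)
  rw [map_zero, aeval_eq_sum_range, map_sum] at h1
  rw [aeval_eq_sum_range, ← h1]
  refine Finset.sum_congr rfl fun i _ => ?_
  rw [Algebra.smul_def, Algebra.smul_def, map_mul, map_pow, hΦ, hΦ, ← map_pow,
    setup_const k L (isIntegral_coeff_of_dvd (minpoly k x) (minpoly L x) (minpoly.monic hx)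
      (minpoly.monic hi) (minpoly.dvd_map_of_isScalarTower k L x) i)]

theorem setup_closed [Algebra.IsIntegral L E] (x y : E) : IsClosed {σ : E ≃ₐ[L] E | σ x = y} := by
  refine isOpen_compl_iff.1 (isOpen_iff_forall_mem_open.2 fun σ hσ => ?_)
  refine ⟨(fun τ => σ⁻¹ * τ) ⁻¹' (MulAction.stabilizer (E ≃ₐ[L] E) x : Set (E ≃ₐ[L] E)),
    fun τ hτ h => hσ ?_, (stabilizer_isOpen_of_isIntegral x).preimage (continuous_const_mul _), ?_⟩
  · have h1 : σ.symm (τ x) = x := hτ
    rw [AlgEquiv.symm_apply_eq] at h1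
    exact h1.symm.trans h
  · simp

/-- The constant field `k' = Kb ∩ L` is finite (elements independent over `k` stay independent
over `RatFunc k`), of order `Q = q ^ c`. For every finite subfield `k''` of `Kb` containing `k'`
the restriction `Gal(E / L) → Gal(k'' / k')` is onto (the fixed field of the image is `k'`), so some
`σ` has `σ x ^ Q = x` on `k''`; these sets of `σ` are closed and decreasing; compactness of
`Gal(E / L)`. -/
theorem exists_gam [IsSepClosed E] [IsGalois L E] : ∃ (γ : E ≃ₐ[L] E) (c : ℕ), 0 < c ∧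
    ∀ x : Kb k E, γ x ^ Nat.card k ^ c = x := by
  set c := (finrank (RatFunc k) L).factorial with hc
  let C : ℕ → Set (E ≃ₐ[L] E) := fun n =>
    {σ | ∀ x : E, x ^ n.factorial = 1 → σ x = x ^ Nat.card k ^ c}
  have hcl : ∀ n, IsClosed (C n) := fun n => by
    have e : C n = ⋂ x ∈ {x : E | x ^ n.factorial = 1}, {σ | σ x = x ^ Nat.card k ^ c} := by
      ext σ
      simp [C]
    rw [e]
    exact isClosed_biInter fun x _ => setup_closed L E x _
  have hne : ∀ n, (C n).Nonempty := fun n => by
    have : NeZero n.factorial := ⟨n.factorial_ne_zero⟩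
    obtain ⟨g, hg⟩ := IsCyclic.exists_monoid_generator (α := rootsOfUnity n.factorial E)
    have h1 : ((g : Eˣ) : E) ^ n.factorial = 1 := (mem_rootsOfUnity' _ _).1 g.2
    obtain ⟨σ, hσ⟩ := setup_conj k L E (x := ((g : Eˣ) : E)) (IsIntegral.of_pow n.factorial_pos
      (by rw [h1]; exact isIntegral_one))
    refine ⟨σ, fun x hx => ?_⟩
    obtain ⟨i, hi⟩ := hg (rootsOfUnity.mkOfPowEq x hx)
    have h2 : ((g : Eˣ) : E) ^ i = x := by
      simpa using congrArg (fun y : rootsOfUnity n.factorial E => ((y : Eˣ) : E)) hi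
    rw [← h2, map_pow, hσ, ← pow_mul, ← pow_mul, mul_comm]
  obtain ⟨δ, hδ⟩ := IsCompact.nonempty_iInter_of_sequence_nonempty_isCompact_isClosed C
    (fun n σ hσ x hx => hσ x (by rw [Nat.factorial_succ, mul_comm, pow_mul, hx, one_pow]))
    hne (hcl 0).isCompact hcl
  refine ⟨δ.symm, c, Nat.factorial_pos _, fun x => ?_⟩
  rw [← map_pow, AlgEquiv.symm_apply_eq]
  by_cases hx : (x : E) = 0
  · rw [hx, map_zero, zero_pow (pow_ne_zero _ Nat.card_pos.ne')]
  obtain ⟨N, hN, h⟩ := setup_order k E x.2 hx
  obtain ⟨m, hm⟩ := Nat.dvd_factorial hN le_rfl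
  exact (Set.mem_iInter.1 hδ N x (by rw [hm, pow_mul, h, one_pow])).symm

end setup

end Pool.Agent.Lib.MP_6adaea_nt
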