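import Pool.Agent.Lib.MP_6adaea_nt.V.Aut
import Pool.Agent.Lib.MP_6adaea_nt.V.Coord
import Pool.Agent.Lib.MP_6adaea_nt.V.Ram
import Pool.Agent.Lib.MP_6adaea_nt.V.North
import Pool.Agent.Lib.MP_6adaea_nt.V.Setup
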