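import Pool.Agent.Lib.MP_6adaea_nt.V.Conj

/-!
Automorphisms of an algebraically closed field that preserve a rational valuation.
-/

set_option linter.unusedSectionVars false

namespace Pool.Agent.Lib.MP_6adaea_nt
open Module Polynomial

variable {k K E F : Type} [Field k] [Field K] [Field E] [Field F]

/-- V1. `E` is an algebraic closure of `F` through `i` and through `j`, so some automorphism `τ`
has `τ ∘ i = j` (`IsAlgClosure.equivOfEquiv` for the two field ranges). With the algebra structure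
given by `i`, `E` is Galois over `P = perfectClosure F E` (a perfect field), and `V`, `W.comap τ`
agree on `P` (a `p`-power of an element of `P` lies in `F`); use `exists_conj`. -/
theorem QVal.exists_aut [IsAlgClosed E] (V W : QVal E) (i j : F →+* E)
    (hi : ∀ x : E, IsAlgebraic i.fieldRange x) (hj : ∀ x : E, IsAlgebraic j.fieldRange x)
    (h : ∀ x, V.ord (i x) = W.ord (j x)) :
    ∃ σ : E ≃+* E, (∀ x, σ (i x) = j x) ∧ ∀ x, W.ord (σ x) = V.ord x := by
  have : IsAlgClosure i.fieldRange E := ⟨inferInstance, ⟨hi⟩⟩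
  have : IsAlgClosure j.fieldRange E := ⟨inferInstance, ⟨hj⟩⟩
  obtain ⟨τ, hτ⟩ : ∃ τ : E ≃+* E, ∀ x, τ (i x) = j x :=
    ⟨IsAlgClosure.equivOfEquiv E E (i.rangeRestrictFieldEquiv.symm.trans j.rangeRestrictFieldEquiv),
      fun x => by
        have h1 := IsAlgClosure.equivOfEquiv_algebraMap E E
          (i.rangeRestrictFieldEquiv.symm.trans j.rangeRestrictFieldEquiv)
          (i.rangeRestrictFieldEquiv x)
        rw [RingEquiv.trans_apply, RingEquiv.symm_apply_apply] at h1
        exact h1⟩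
  have : Algebra.IsAlgebraic (perfectClosure i.fieldRange E) E :=
    Algebra.IsAlgebraic.tower_top (K := i.fieldRange) _
  have : IsAlgClosure (perfectClosure i.fieldRange E) E := ⟨inferInstance, inferInstance⟩
  have : IsGalois (perfectClosure i.fieldRange E) E := {}
  obtain ⟨σ, hσ⟩ := QVal.exists_conj (F := perfectClosure i.fieldRange E) V
    (W.comap (τ : E →+* E)) fun x => by
      obtain ⟨n, ⟨_, y, rfl⟩, hy⟩ := mem_perfectClosure_iff.1 x.2
      have h1 : i y = (x : E) ^ ringExpChar i.fieldRange ^ n := hy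
      have h2 := h y
      rw [← hτ, h1, map_pow, QVal.ord_pow, QVal.ord_pow] at h2
      exact mul_left_cancel₀ (Nat.cast_ne_zero.2 (pow_ne_zero _
        (expChar_pos i.fieldRange _).ne')) h2
  refine ⟨σ.toRingEquiv.trans τ, fun x => ?_, hσ⟩
  exact (congrArg τ (σ.commutes
    ⟨i x, (perfectClosure i.fieldRange E).algebraMap_mem ⟨i x, x, rfl⟩⟩)).trans (hτ x)

/-- the order of a polynomial in an element of positive order -/
theorem QVal.ord_aeval [Algebra k E] (V : QVal E) (hk : ∀ c : k, V.ord (algebraMap k E c) = 0)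
    {π : E} (hπ : 0 < V.ord π) {f : k[X]} (hf : f ≠ 0) :
    aeval π f ≠ 0 ∧ V.ord (aeval π f) = f.natTrailingDegree * V.ord π := by
  have h0 : π ≠ 0 := fun h => by simp [h] at hπ
  have h1 : ∀ n ∈ f.support, algebraMap k E (f.coeff n) * π ^ n ≠ 0 ∧
      V.ord (algebraMap k E (f.coeff n) * π ^ n) = n * V.ord π := fun n hn => by
    have h2 : algebraMap k E (f.coeff n) ≠ 0 := (_root_.map_ne_zero _).2 (mem_support_iff.1 hn)
    exact ⟨mul_ne_zero h2 (pow_ne_zero _ h0), by
      rw [V.ord_mul h2 (pow_ne_zero _ h0), hk, QVal.ord_pow, zero_add]⟩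
  have h2 := natTrailingDegree_mem_support_of_nonzero hf
  rw [aeval_def, eval₂_eq_sum, Polynomial.sum_def, ← (h1 _ h2).2]
  refine QVal.ord_sum_of_lt (f := fun n => algebraMap k E (f.coeff n) * π ^ n) h2 (h1 _ h2).1
    fun n hn hne => QVal.Gt.of_lt ?_
  rw [(h1 _ h2).2, (h1 n hn).2]
  exact mul_lt_mul_of_pos_right (Nat.cast_lt.2
    (lt_of_le_of_ne (natTrailingDegree_le_of_mem_supp n hn) hne.symm)) hπ

theorem aut_alg [Algebra k E] {π : E} [Algebra.IsAlgebraic (IntermediateField.adjoin k {π}) E]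
    (S : Subfield E) (hc : ∀ c, algebraMap k E c ∈ S) (hπ : π ∈ S) (x : E) : IsAlgebraic S x := by
  have h1 : (IntermediateField.adjoin k {π}).toSubfield ≤ S :=
    (IntermediateField.adjoin_simple_le_iff (K := S.toIntermediateField hc)).2 hπ
  exact (Algebra.IsAlgebraic.isAlgebraic (R := IntermediateField.adjoin k {π})
    x).ringHom_of_comp_eq (Subfield.inclusion h1) (RingHom.id E) (RingHom.injective _) rfl

theorem aut_basis [Algebra k E] {π π' : E} (h1 : Transcendental k π) (h2 : Transcendental k π')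
    [h : Algebra.IsAlgebraic (IntermediateField.adjoin k {π}) E] :
    Algebra.IsAlgebraic (IntermediateField.adjoin k {π'}) E := by
  have h3 : IsTranscendenceBasis k fun _ : Unit => π :=
    (algebraicIndependent_unique_type_iff.2 h1).isTranscendenceBasis_iff_isAlgebraic.2 (by
      rw [Set.range_const]
      exact IntermediateField.isAlgebraic_adjoin_iff_top.1 h)
  have h4 : IsTranscendenceBasis k fun _ : Unit => π' :=
    (algebraicIndependent_unique_type_iff.2 h2).isTranscendenceBasis_of_trdeg_le_of_finite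
      h3.cardinalMk_eq_trdeg.ge
  have h5 := h4.isAlgebraic_field
  rwa [Set.range_const] at h5

theorem aut_trail (a : k ≃+* k) (f : k[X]) :
    (f.map (a : k →+* k)).natTrailingDegree = f.natTrailingDegree := by
  rw [natTrailingDegree, natTrailingDegree, trailingDegree, trailingDegree,
    support_map_of_injective _ a.injective]

/-- `exists_aut` for `F = RatFunc k`, `i X = π`, `j X = π'`, `j` acts on the constants through `a`
(`RatFunc.liftRingHom`, `ord_aeval`). `E` is algebraic over `k⟮π'⟯` since both `π` and `π'` are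
transcendence bases (transcendence degree one). -/
theorem QVal.exists_aut_rat [IsAlgClosed E] [Algebra k E] (V : QVal E)
    (hk : ∀ c : k, V.ord (algebraMap k E c) = 0) {π π' : E} (hπ : 0 < V.ord π)
    (h : V.ord π' = V.ord π) [Algebra.IsAlgebraic (IntermediateField.adjoin k {π}) E]
    (a : k ≃+* k) : ∃ σ : E ≃+* E, σ π = π' ∧
      (∀ c, σ (algebraMap k E c) = algebraMap k E (a c)) ∧ ∀ x, V.ord (σ x) = V.ord x := by
  have hπ' : 0 < V.ord π' := h ▸ hπ
  have := aut_basis (π := π) (π' := π') (fun ⟨f, hf, h0⟩ => (V.ord_aeval hk hπ hf).1 h0)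
    fun ⟨f, hf, h0⟩ => (V.ord_aeval hk hπ' hf).1 h0
  obtain ⟨φ, hφ⟩ : ∃ φ : k[X] →+* E, ∀ f, φ f = aeval π f :=
    ⟨(aeval π : k[X] →ₐ[k] E), fun _ => rfl⟩
  obtain ⟨ψ, hψ⟩ : ∃ ψ : k[X] →+* E, ∀ f, ψ f = aeval π' (f.map (a : k →+* k)) :=
    ⟨((aeval π' : k[X] →ₐ[k] E) : k[X] →+* E).comp (mapRingHom (a : k →+* k)), fun _ => rfl⟩
  have h1 : ∀ f : k[X], f ≠ 0 → φ f ≠ 0 ∧ ψ f ≠ 0 ∧ V.ord (φ f) = V.ord (ψ f) := fun f hf => by
    have h2 := V.ord_aeval hk hπ hf
    have h3 := V.ord_aeval hk hπ' (Polynomial.map_ne_zero (f := (a : k →+* k)) hf)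
    rw [hφ, hψ]
    exact ⟨h2.1, h3.1, by rw [h2.2, h3.2, aut_trail, h]⟩
  have h2 : nonZeroDivisors k[X] ≤ (nonZeroDivisors E).comap φ := fun f hf =>
    mem_nonZeroDivisors_of_ne_zero (h1 f (nonZeroDivisors.ne_zero hf)).1
  have h3 : nonZeroDivisors k[X] ≤ (nonZeroDivisors E).comap ψ := fun f hf =>
    mem_nonZeroDivisors_of_ne_zero (h1 f (nonZeroDivisors.ne_zero hf)).2.1
  have e1 : RatFunc.liftRingHom φ h2 RatFunc.X = π := by rw [RatFunc.liftRingHom_X, hφ, aeval_X]
  have e2 : RatFunc.liftRingHom ψ h3 RatFunc.X = π' := by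
    rw [RatFunc.liftRingHom_X, hψ, Polynomial.map_X, aeval_X]
  have e3 : ∀ c, RatFunc.liftRingHom φ h2 (RatFunc.C c) = algebraMap k E c := fun c => by
    rw [RatFunc.liftRingHom_C, hφ, aeval_C]
  have e4 : ∀ c, RatFunc.liftRingHom ψ h3 (RatFunc.C c) = algebraMap k E (a c) := fun c => by
    rw [RatFunc.liftRingHom_C, hψ, Polynomial.map_C, aeval_C]
    rfl
  obtain ⟨σ, h4, h5⟩ := V.exists_aut V (RatFunc.liftRingHom φ h2) (RatFunc.liftRingHom ψ h3)
    (aut_alg (k := k) (π := π) _ (fun c => ⟨_, e3 c⟩) ⟨_, e1⟩)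
    (aut_alg (k := k) (π := π') _
      (fun c => ⟨_, (e4 (a.symm c)).trans (by rw [a.apply_symm_apply])⟩) ⟨_, e2⟩) fun x => by
    by_cases hx : x = 0
    · rw [hx, map_zero, map_zero]
    obtain ⟨a1, a2, a3⟩ := h1 _ (RatFunc.num_ne_zero hx)
    obtain ⟨b1, b2, b3⟩ := h1 _ x.denom_ne_zero
    rw [← x.num_div_denom, RatFunc.liftRingHom_apply_div, RatFunc.liftRingHom_apply_div,
      V.ord_div a1 b1, V.ord_div a2 b2, a3, b3]
  exact ⟨σ, by rw [← e1, h4, e2], fun c => by rw [← e3, h4, e4], h5⟩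

end Pool.Agent.Lib.MP_6adaea_nt
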