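import Pool.Agent.Lib.MP_6adaea_nt.V.Ext

/-!
Conjugacy of the extensions of a rational valuation.
-/

set_option linter.unusedSectionVars false

namespace Pool.Agent.Lib.MP_6adaea_nt
open Module Polynomial

variable {k K E F : Type} [Field k] [Field K] [Field E] [Field F]

/-- a relation with integral coefficients, one of them a unit -/
theorem conj_rel [Algebra F E] (V : QVal E) {x : E} (hx : IsAlgebraic F x) :
    ∃ (n : ℕ) (a : ℕ → F), (∀ i, V.Ge (algebraMap F E (a i)) 0) ∧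
      (∃ j < n, ¬ V.Gt (algebraMap F E (a j)) 0) ∧
      ∑ i ∈ Finset.range n, algebraMap F E (a i) * x ^ i = 0 := by
  obtain ⟨p, hp, h⟩ := hx
  obtain ⟨j, hj, hmin⟩ := Finset.exists_min_image p.support
    (fun i => V.ord (algebraMap F E (p.coeff i))) (support_nonempty.2 hp)
  have h0 : p.coeff j ≠ 0 := mem_support_iff.1 hj
  have h1 : algebraMap F E (p.coeff j) ≠ 0 := by simpa using h0
  refine ⟨p.natDegree + 1, fun i => p.coeff i / p.coeff j, fun i => ?_,
    ⟨j, Nat.lt_succ_of_le (le_natDegree_of_mem_supp j hj), ?_⟩, ?_⟩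
  · by_cases hi : p.coeff i = 0
    · simp [hi]
    · rw [map_div₀, QVal.ge_div_iff h1, zero_add]
      exact QVal.Ge.of_le (hmin i (mem_support_iff.2 hi))
  · simp [h0, QVal.Gt]
  · rw [aeval_def, eval₂_eq_sum_range] at h
    simp only [map_div₀, div_mul_eq_mul_div]
    rw [← Finset.sum_div, h, zero_div]

/-- Scale a relation `∑ a i * x ^ i = 0` so that all `a i` have order `≥ 0` and some has order
`0`; let `s` be the largest index with `ord (a s) = 0`; `y = ∑_{i ≥ s} a i * x ^ (i - s)`, then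
`x * y = - ∑_{i < s} a i * x⁻¹ ^ (s - 1 - i)`. For `U` distinguish `U.Ge x 0` and `U.Ge x⁻¹ 0`. -/
theorem QVal.exists_denom [Algebra F E] (V : QVal E) {x : E} (hx : IsAlgebraic F x)
    (h0 : V.Ge x 0) : ∃ y : E, y ≠ 0 ∧ V.ord y = 0 ∧ ∀ U : QVal E,
      (∀ c : F, U.ord (algebraMap F E c) = V.ord (algebraMap F E c)) →
        U.Ge y 0 ∧ U.Ge (x * y) 0 := by
  classical
  obtain ⟨n, a, h1, ⟨j, hj, h2⟩, h3⟩ := conj_rel V hx
  obtain ⟨s, hs, hmax⟩ := Finset.exists_max_image
    ((Finset.range n).filter fun i => ¬ V.Gt (algebraMap F E (a i)) 0) id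
    ⟨j, Finset.mem_filter.2 ⟨Finset.mem_range.2 hj, h2⟩⟩
  obtain ⟨hs1, hs2⟩ := Finset.mem_filter.1 hs
  obtain ⟨m, rfl⟩ := Nat.exists_eq_add_of_lt (Finset.mem_range.1 hs1)
  obtain ⟨hs3, hs4⟩ := QVal.not_gt_iff.1 hs2
  have hs5 : V.ord (algebraMap F E (a s)) = 0 := le_antisymm hs4 ((h1 s).le hs3)
  have h4 := QVal.ord_sum_of_lt (V := V) (s := Finset.range (m + 1))
    (f := fun i => algebraMap F E (a (s + i)) * x ^ i) (i₀ := 0) (by simp) (by simpa using hs3)
    fun i hi hi0 => by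
      have h5 : V.Gt (algebraMap F E (a (s + i))) 0 := by
        by_contra h5
        have h6 := hmax (s + i) (Finset.mem_filter.2 ⟨Finset.mem_range.2 (by
          have := Finset.mem_range.1 hi
          omega), h5⟩)
        simp only [id] at h6
        omega
      simpa [hs5] using h5.mul_ge (h0.pow₀ i)
  simp only [add_zero, pow_zero, mul_one, hs5] at h4
  refine ⟨_, h4.1, h4.2, fun U hU => ?_⟩
  have h5 : ∀ i, U.Ge (algebraMap F E (a i)) 0 := fun i => (h1 i).imp id fun h => by rwa [hU]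
  by_cases hx0 : U.Ge x 0
  · have h6 : U.Ge (∑ i ∈ Finset.range (m + 1), algebraMap F E (a (s + i)) * x ^ i) 0 :=
      QVal.Ge.sum fun i _ => (h5 _).mul₀ (hx0.pow₀ i)
    exact ⟨h6, hx0.mul₀ h6⟩
  obtain ⟨h6, h7⟩ := QVal.not_ge_iff.1 hx0
  have h8 : U.Ge x⁻¹ 0 := QVal.Ge.of_le (by rw [QVal.ord_inv]; linarith)
  have h9 : x * ∑ i ∈ Finset.range (m + 1), algebraMap F E (a (s + i)) * x ^ i =
      -∑ i ∈ Finset.range s, algebraMap F E (a i) * x⁻¹ ^ (s - 1 - i) := by
    rw [add_assoc, Finset.sum_range_add] at h3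
    apply mul_left_cancel₀ (mul_ne_zero (pow_ne_zero s h6) (inv_ne_zero h6))
    rw [mul_assoc, inv_mul_cancel_left₀ h6, mul_neg, eq_neg_iff_add_eq_zero, add_comm, ← h3,
      Finset.mul_sum, Finset.mul_sum]
    congr 1
    · refine Finset.sum_congr rfl fun i hi => ?_
      obtain ⟨l, rfl⟩ := Nat.exists_eq_add_of_lt (Finset.mem_range.1 hi)
      rw [show i + l + 1 - 1 - i = l by omega, inv_pow]
      field_simp
      ring
    · exact Finset.sum_congr rfl fun i _ => by ring
  have h10 : U.Ge (x * ∑ i ∈ Finset.range (m + 1), algebraMap F E (a (s + i)) * x ^ i) 0 := by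
    rw [h9]
    exact (QVal.Ge.sum fun i _ => (h5 _).mul₀ (h8.pow₀ _)).neg
  refine ⟨?_, h10⟩
  have h11 := h8.mul₀ h10
  rwa [inv_mul_cancel_left₀ h6] at h11

variable (F) in
/-- the elements that are integral for all extensions -/
def conj_B [Algebra F E] (V : QVal E) : Subring E where
  carrier := {x | ∀ U : QVal E,
    (∀ c : F, U.ord (algebraMap F E c) = V.ord (algebraMap F E c)) → U.Ge x 0}
  zero_mem' U _ := U.ge_zero 0
  one_mem' U _ := U.ge_one
  add_mem' hx hy U h := (hx U h).add (hy U h)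
  neg_mem' hx U h := (hx U h).neg
  mul_mem' hx hy U h := (hx U h).mul₀ (hy U h)

/-- the centre of an extension -/
def conj_P [Algebra F E] {V U : QVal E}
    (h : ∀ c : F, U.ord (algebraMap F E c) = V.ord (algebraMap F E c)) : Ideal (conj_B F V) where
  carrier := {x | U.Gt (x : E) 0}
  zero_mem' := U.gt_zero 0
  add_mem' := QVal.Gt.add
  smul_mem' c _ hx := (c.2 U h).mul_gt₀ hx

theorem conj_not [Algebra F E] {V U : QVal E}
    (h : ∀ c : F, U.ord (algebraMap F E c) = V.ord (algebraMap F E c)) {x : conj_B F V} :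
    x ∉ conj_P h ↔ (x : E) ≠ 0 ∧ U.ord x = 0 := by
  refine QVal.not_gt_iff.trans ⟨fun h1 => ⟨h1.1, le_antisymm h1.2 ((x.2 U h).le h1.1)⟩,
    fun h1 => ⟨h1.1, h1.2.le⟩⟩

theorem conj_prime [Algebra F E] {V U : QVal E}
    (h : ∀ c : F, U.ord (algebraMap F E c) = V.ord (algebraMap F E c)) : (conj_P h).IsPrime := by
  refine ⟨(Ideal.ne_top_iff_one _).2 ((conj_not h).2 ⟨one_ne_zero, U.ord_one⟩), fun {x y} hxy => ?_⟩
  by_contra h1
  obtain ⟨h2, h3⟩ := not_or.1 h1
  rw [conj_not] at h2 h3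
  refine (conj_not h).2 ⟨mul_ne_zero h2.1 h3.1, ?_⟩ hxy
  rw [Subring.coe_mul, U.ord_mul h2.1 h3.1, h2.2, h3.2, add_zero]

/-- Let `B` be the subring of elements that are integral for all extensions `U` of the valuation
of `F`; it is stable under the Galois group. `P U = {x ∈ B | U.Gt x 0}` is a prime ideal.
If `P W` is not contained in some `P (V.comap τ)`, prime avoidance (`Ideal.subset_union_prime`)
gives `x ∈ P W` with all `V.ord (τ x) = 0`; the norm `∏ τ x` (`Algebra.norm_eq_prod_automorphisms`)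
has `V`-order `0` and positive `W`-order. If `P W ≤ P (V.comap τ)` then `exists_denom` and
`ext_of_ge` give `V.comap τ = W`; take `σ = τ⁻¹`. -/
theorem QVal.exists_conj_fin [Algebra F E] [FiniteDimensional F E] [IsGalois F E] (V W : QVal E)
    (h : ∀ x : F, V.ord (algebraMap F E x) = W.ord (algebraMap F E x)) :
    ∃ σ : E ≃ₐ[F] E, ∀ x, W.ord (σ x) = V.ord x := by
  classical
  have hc : ∀ (U : QVal E) (τ : E ≃ₐ[F] E) (c : F),
      (U.comap (τ : E →+* E)).ord (algebraMap F E c) = U.ord (algebraMap F E c) := fun U τ c => by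
    simp
  have hW : ∀ c : F, W.ord (algebraMap F E c) = V.ord (algebraMap F E c) := fun c => (h c).symm
  by_cases h1 : ∃ τ ∈ (Finset.univ : Finset (E ≃ₐ[F] E)), conj_P hW ≤ conj_P (hc V τ)
  · obtain ⟨τ, -, hτ⟩ := h1
    have h2 : V.comap (τ : E →+* E) = W := by
      refine QVal.ext_of_ge (F := F) (fun c => (hc V τ c).trans (h c)) fun x hx => ?_
      obtain ⟨y, h3, h4, h5⟩ := QVal.exists_denom (F := F) _ (Algebra.IsAlgebraic.isAlgebraic x) hx
      have h6 : y ∈ conj_B F V := fun U hU => (h5 U fun c => (hU c).trans (hc V τ c).symm).1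
      have h7 := (conj_not hW (x := ⟨y, h6⟩)).1 fun h7 => (conj_not (hc V τ)).2 ⟨h3, h4⟩ (hτ h7)
      have h8 := (QVal.ge_mul_iff h3).1 (h5 W fun c => (hW c).trans (hc V τ c).symm).2
      rwa [h7.2, sub_zero] at h8
    refine ⟨τ.symm, fun x => ?_⟩
    rw [← h2]
    simp
  exfalso
  rw [← Ideal.subset_union_prime 1 1 fun τ _ _ _ => conj_prime (hc V τ), Set.not_subset] at h1
  obtain ⟨x, hx, h2⟩ := h1
  have h3 : ∀ τ : E ≃ₐ[F] E, (x : E) ≠ 0 ∧ V.ord (τ x) = 0 := fun τ =>
    (conj_not (hc V τ)).1 fun h3 => h2 (Set.mem_biUnion (Finset.mem_coe.2 (Finset.mem_univ τ)) h3)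
  have h4 : ∀ τ : E ≃ₐ[F] E, τ x ≠ 0 := fun τ => by simpa using (h3 τ).1
  have h5 := h (Algebra.norm F (x : E))
  rw [Algebra.norm_eq_prod_automorphisms, V.ord_prod _ _ fun τ _ => h4 τ,
    Finset.sum_eq_zero fun τ _ => (h3 τ).2] at h5
  have h6 : W.Gt (∏ τ : E ≃ₐ[F] E, τ x) 0 := by
    rw [← Finset.mul_prod_erase _ _ (Finset.mem_univ 1)]
    have h7 := QVal.Ge.prod (V := W) (s := Finset.univ.erase (1 : E ≃ₐ[F] E))
      (f := fun τ => τ x) (m := fun _ => 0) fun τ _ =>
        (W.comap_ge (τ : E →+* E) _ _).1 (x.2 _ fun c => (hc W τ c).trans (hW c))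
    simpa using QVal.Gt.mul_ge (show W.Gt (x : E) 0 from hx) h7
  exact (h6.lt (Finset.prod_ne_zero_iff.2 fun τ _ => h4 τ)).ne h5

theorem conj_closed [Algebra F E] [IsGalois F E] (x : E) (S : Set E) :
    IsClosed {σ : E ≃ₐ[F] E | σ x ∈ S} := by
  refine isOpen_compl_iff.1 (isOpen_iff_mem_nhds.2 fun σ hσ => ?_)
  have h1 : IsOpen ((fun τ : E ≃ₐ[F] E => σ⁻¹ * τ) ⁻¹' (MulAction.stabilizer (E ≃ₐ[F] E) x)) :=
    (stabilizer_isOpen_of_isIntegral x).preimage (continuous_const.mul continuous_id)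
  refine Filter.mem_of_superset (h1.mem_nhds (by simp)) fun τ hτ h2 => hσ ?_
  have h3 : σ⁻¹ (τ x) = x := hτ
  have h4 : σ x = τ x := by
    conv_lhs => rw [← h3]
    exact σ.apply_symm_apply _
  exact (congrArg (· ∈ S) h4).mpr h2

/-- Compactness of the Galois group: for a finite Galois subextension `N`
(`FiniteGaloisIntermediateField`) the set of `σ` that work on `N` is nonempty (`exists_conj_fin`,
`AlgEquiv.liftNormal`) and closed (a union of cosets of the open subgroup `N.fixingSubgroup`);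
`IsCompact.nonempty_iInter_of_directed_nonempty_isCompact_isClosed`. -/
theorem QVal.exists_conj [Algebra F E] [IsGalois F E] (V W : QVal E)
    (h : ∀ x : F, V.ord (algebraMap F E x) = W.ord (algebraMap F E x)) :
    ∃ σ : E ≃ₐ[F] E, ∀ x, W.ord (σ x) = V.ord x := by
  have hcl : ∀ N : FiniteGaloisIntermediateField F E,
      IsClosed {σ : E ≃ₐ[F] E | ∀ x ∈ N.toIntermediateField, W.ord (σ x) = V.ord x} := fun N => by
    simp only [Set.ofPred_forall]
    exact isClosed_iInter fun x => isClosed_iInter fun _ => conj_closed x {y | W.ord y = V.ord x}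
  obtain ⟨σ, hσ⟩ := IsCompact.nonempty_iInter_of_directed_nonempty_isCompact_isClosed
    (fun N : FiniteGaloisIntermediateField F E =>
      {σ : E ≃ₐ[F] E | ∀ x ∈ N.toIntermediateField, W.ord (σ x) = V.ord x})
    (fun N N' => ⟨N ⊔ N',
      fun σ hσ x hx => hσ x ((FiniteGaloisIntermediateField.le_iff _ _).1 le_sup_left hx),
      fun σ hσ x hx => hσ x ((FiniteGaloisIntermediateField.le_iff _ _).1 le_sup_right hx)⟩)
    (fun N => by
      obtain ⟨τ, hτ⟩ := QVal.exists_conj_fin (F := F) (V.comap (algebraMap N E))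
        (W.comap (algebraMap N E)) h
      exact ⟨τ.liftNormal E, fun x hx =>
        (congrArg W.ord (τ.liftNormal_commutes E ⟨x, hx⟩)).trans (hτ ⟨x, hx⟩)⟩)
    (fun N => (hcl N).isCompact) hcl
  exact ⟨σ, fun x => Set.mem_iInter.1 hσ (FiniteGaloisIntermediateField.adjoin F {x}) x
    (FiniteGaloisIntermediateField.subset_adjoin F {x} rfl)⟩

/-- extend `τ` to an automorphism `τ'` of `E` (`AlgHom.liftNormal`, bijective since algebraic),
and correct it by `exists_conj` for `E / N` -/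
theorem QVal.exists_lift [Algebra K E] [IsGalois K E] (N : Type) [Field N] [Algebra K N]
    [Algebra N E] [IsScalarTower K N E] (V : QVal E) (τ : N →ₐ[K] E)
    (h : ∀ x : N, V.ord (τ x) = V.ord (algebraMap N E x)) :
    ∃ σ ∈ V.stab K, ∀ x : N, σ (algebraMap N E x) = τ x := by
  have := IsGalois.tower_top_of_isGalois K N E
  let τ' : E ≃ₐ[K] E := AlgEquiv.ofBijective (τ.liftNormal E) (AlgHom.normal_bijective K E E _)
  have h1 : ∀ x : N, τ' (algebraMap N E x) = τ x := fun x => τ.liftNormal_commutes E x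
  obtain ⟨σ, hσ⟩ := QVal.exists_conj (F := N) V (V.comap (τ' : E →+* E)) fun x =>
    ((congrArg V.ord (h1 x)).trans (h x)).symm
  refine ⟨τ' * σ.restrictScalars K, hσ, fun x => ?_⟩
  rw [AlgEquiv.mul_apply, AlgEquiv.restrictScalars_apply, σ.commutes, h1]

end Pool.Agent.Lib.MP_6adaea_nt
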