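import Pool.Agent.Lib.MP_6adaea_nt.V.QVal

/-!
Extension of rational valuations to algebraic extensions.
-/

set_option linter.unusedSectionVars false

namespace Pool.Agent.Lib.MP_6adaea_nt
open Module Polynomial

variable {k K E F : Type} [Field k] [Field K] [Field E] [Field F] [Algebra F E]

theorem ext_sum (F : Type) [Field F] [Algebra F E] (x : E) :
    ∑ i ∈ Finset.range ((minpoly F x).natDegree + 1),
      algebraMap F E ((minpoly F x).coeff i) * x ^ i = 0 := by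
  have h := minpoly.aeval F x
  rw [aeval_eq_sum_range] at h
  simpa only [Algebra.smul_def] using h

theorem ext_top {x : E} (hx : IsAlgebraic F x) (h0 : x ≠ 0) :
    algebraMap F E ((minpoly F x).coeff (minpoly F x).natDegree) *
      x ^ (minpoly F x).natDegree ≠ 0 := by
  rw [(minpoly.monic hx.isIntegral).coeff_natDegree, map_one, one_mul]
  exact pow_ne_zero _ h0

/-- `QVal.exists_two_min` for the terms `a i * x ^ i` of the minimal polynomial; `y = a i / a j` -/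
theorem QVal.exists_tors (V : QVal E) {x : E} (hx : IsAlgebraic F x) (h0 : x ≠ 0) :
    ∃ (n : ℕ) (y : F), 0 < n ∧ n ≤ (minpoly F x).natDegree ∧ y ≠ 0 ∧
      n * V.ord x = V.ord (algebraMap F E y) := by
  have key : ∀ (i j : ℕ) (a b : F), i < j → algebraMap F E a * x ^ i ≠ 0 →
      algebraMap F E b * x ^ j ≠ 0 →
      V.ord (algebraMap F E a * x ^ i) = V.ord (algebraMap F E b * x ^ j) →
      a / b ≠ 0 ∧ ((j - i : ℕ) : ℚ) * V.ord x = V.ord (algebraMap F E (a / b)) := by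
    intro i j a b hij ha hb he
    have ha1 := left_ne_zero_of_mul ha
    have hb1 := left_ne_zero_of_mul hb
    refine ⟨div_ne_zero (by simpa using ha1) (by simpa using hb1), ?_⟩
    rw [V.ord_mul ha1 (pow_ne_zero _ h0), V.ord_mul hb1 (pow_ne_zero _ h0), V.ord_pow,
      V.ord_pow] at he
    rw [map_div₀, V.ord_div ha1 hb1, Nat.cast_sub hij.le]
    linarith
  obtain ⟨i, hi, j, hj, hij, h1, h2, h3, -⟩ := QVal.exists_two_min (V := V) (ext_sum F x)
    (Finset.self_mem_range_succ _) (ext_top hx h0)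
  rw [Finset.mem_range] at hi hj
  rcases lt_or_gt_of_ne hij with h | h
  · obtain ⟨h4, h5⟩ := key i j _ _ h h1 h2 h3
    exact ⟨j - i, _, by omega, by omega, h4, h5⟩
  · obtain ⟨h4, h5⟩ := key j i _ _ h h2 h1 h3.symm
    exact ⟨i - j, _, by omega, by omega, h4, h5⟩

/-- from `exists_tors` -/
theorem QVal.ord_eq_zero_of_isAlgebraic (V : QVal E) (h : ∀ c : F, V.ord (algebraMap F E c) = 0)
    {x : E} (hx : IsAlgebraic F x) : V.ord x = 0 := by
  by_cases h0 : x = 0
  · rw [h0, V.ord_zero]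
  obtain ⟨n, y, hn, -, -, h1⟩ := V.exists_tors hx h0
  rw [h y] at h1
  exact (mul_eq_zero.mp h1).resolve_left (by exact_mod_cast hn.ne')

/-- apply `hge` to `x ^ n / y` and its inverse -/
theorem QVal.ext_of_ge [Algebra.IsAlgebraic F E] {V W : QVal E}
    (h : ∀ x : F, V.ord (algebraMap F E x) = W.ord (algebraMap F E x))
    (hge : ∀ x, V.Ge x 0 → W.Ge x 0) : V = W := by
  ext x
  by_cases h0 : x = 0
  · rw [h0, V.ord_zero, W.ord_zero]
  obtain ⟨n, y, hn, -, hy, h1⟩ := V.exists_tors (Algebra.IsAlgebraic.isAlgebraic (R := F) x) h0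
  have hy' : algebraMap F E y ≠ 0 := by simpa using hy
  have hz : x ^ n / algebraMap F E y ≠ 0 := div_ne_zero (pow_ne_zero _ h0) hy'
  have h2 : V.ord (x ^ n / algebraMap F E y) = 0 := by
    rw [V.ord_div (pow_ne_zero _ h0) hy', V.ord_pow, h1, sub_self]
  have h3 := (hge _ (QVal.Ge.of_le h2.ge)).le hz
  have h4 := (hge (x ^ n / algebraMap F E y)⁻¹
    (QVal.Ge.of_le (by rw [V.ord_inv, h2, neg_zero]))).le (inv_ne_zero hz)
  rw [W.ord_inv] at h4
  rw [W.ord_div (pow_ne_zero _ h0) hy', W.ord_pow, ← h y, ← h1] at h3 h4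
  have h5 : (n : ℚ) ≠ 0 := by exact_mod_cast hn.ne'
  exact mul_left_cancel₀ h5 (by linarith)

theorem ext_val_tors {Γ : Type*} [LinearOrderedCommGroupWithZero Γ] (v : Valuation E Γ) {x : E}
    (hx : IsAlgebraic F x) (h0 : x ≠ 0) :
    ∃ (n : ℕ) (y : F), 0 < n ∧ y ≠ 0 ∧ v x ^ n = v (algebraMap F E y) := by
  have key : ∀ (i j : ℕ) (a b : F), i < j → algebraMap F E a * x ^ i ≠ 0 →
      algebraMap F E b * x ^ j ≠ 0 →
      v (algebraMap F E a * x ^ i) = v (algebraMap F E b * x ^ j) →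
      a / b ≠ 0 ∧ v x ^ (j - i) = v (algebraMap F E (a / b)) := by
    intro i j a b hij ha hb he
    have ha1 := left_ne_zero_of_mul ha
    have hb1 := left_ne_zero_of_mul hb
    refine ⟨div_ne_zero (by simpa using ha1) (by simpa using hb1), ?_⟩
    have hx0 : v x ≠ 0 := v.ne_zero_iff.mpr h0
    have hb0 : v (algebraMap F E b) ≠ 0 := v.ne_zero_iff.mpr hb1
    obtain ⟨d, rfl⟩ := Nat.exists_eq_add_of_le hij.le
    rw [map_mul, map_mul, map_pow, map_pow, pow_add, mul_comm (v x ^ i), ← mul_assoc] at he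
    rw [map_div₀, map_div₀, Nat.add_sub_cancel_left, mul_right_cancel₀ (pow_ne_zero i hx0) he,
      mul_div_cancel_left₀ _ hb0]
  obtain ⟨f, hf⟩ : ∃ f : ℕ → E, ∀ i, f i = algebraMap F E ((minpoly F x).coeff i) * x ^ i :=
    ⟨_, fun _ => rfl⟩
  have hs : ∑ i ∈ Finset.range ((minpoly F x).natDegree + 1), f i = 0 := by
    rw [Finset.sum_congr rfl fun i _ => hf i]
    exact ext_sum F x
  have ht : f (minpoly F x).natDegree ≠ 0 := by
    rw [hf]
    exact ext_top hx h0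
  obtain ⟨i, hi, hmax⟩ := Finset.exists_max_image (Finset.range ((minpoly F x).natDegree + 1))
    (fun l => v (f l)) ⟨_, Finset.self_mem_range_succ _⟩
  have hi0 : v (f i) ≠ 0 := by
    intro h
    have h1 := hmax _ (Finset.self_mem_range_succ _)
    rw [h, le_zero_iff] at h1
    exact ht (v.zero_iff.mp h1)
  obtain ⟨j, hji, hj⟩ : ∃ j, j ≠ i ∧ v (f j) = v (f i) := by
    by_contra hc
    have h1 := v.map_sum_eq_of_lt (f := f) hi fun j hj => by
      rw [Finset.mem_sdiff, Finset.mem_singleton] at hj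
      exact lt_of_le_of_ne (hmax j hj.1) fun h => hc ⟨j, hj.2, h⟩
    rw [hs, map_zero] at h1
    exact hi0 h1.symm
  have h1 : f i ≠ 0 := v.ne_zero_iff.mp hi0
  have h2 : f j ≠ 0 := v.ne_zero_iff.mp (hj ▸ hi0)
  rw [hf] at h1 h2
  rw [hf, hf] at hj
  rcases lt_or_gt_of_ne hji with h | h
  · obtain ⟨h4, h5⟩ := key j i _ _ h h2 h1 hj
    exact ⟨i - j, _, by omega, h4, h5⟩
  · obtain ⟨h4, h5⟩ := key i j _ _ h h1 h2 hj.symm
    exact ⟨j - i, _, by omega, h4, h5⟩

theorem ext_exists_sub (W : QVal F) : ∃ B : ValuationSubring E,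
    (∀ c : F, W.Ge c 0 → B.valuation (algebraMap F E c) ≤ 1) ∧
      ∀ c : F, W.Gt c 0 → B.valuation (algebraMap F E c) < 1 := by
  let A : Subring E := W.O.map (algebraMap F E)
  let J : Ideal A :=
    { carrier := {a | ∃ c : F, W.Gt c 0 ∧ algebraMap F E c = a}
      zero_mem' := ⟨0, W.gt_zero 0, map_zero _⟩
      add_mem' := by
        rintro a b ⟨c, hc, h1⟩ ⟨d, hd, h2⟩
        exact ⟨c + d, hc.add hd, by rw [map_add, h1, h2]; rfl⟩
      smul_mem' := by
        rintro ⟨_, r, hr, rfl⟩ a ⟨c, hc, h1⟩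
        exact ⟨r * c, QVal.Ge.mul_gt₀ hr hc, by rw [map_mul, h1]; rfl⟩ }
  have hJ : J ≠ ⊤ := by
    rw [Ideal.ne_top_iff_one]
    rintro ⟨c, hc, h1⟩
    have h2 : c = 1 := (algebraMap F E).injective (by rw [h1, map_one]; rfl)
    rw [h2] at hc
    have h3 := hc.lt one_ne_zero
    rw [W.ord_one] at h3
    exact lt_irrefl _ h3
  obtain ⟨B, h1, h2⟩ := J.image_subset_nonunits_valuationSubring hJ
  refine ⟨B, fun c hc => ?_, fun c hc => ?_⟩
  · exact (B.valuation_le_one_iff _).mpr (h1 ⟨c, hc, rfl⟩)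
  · exact B.mem_nonunits_iff.mp (h2 ⟨⟨_, c, hc.ge, rfl⟩, ⟨c, hc, rfl⟩, rfl⟩)

theorem ext_of_val {Γ : Type*} [LinearOrderedCommGroupWithZero Γ] [Algebra.IsAlgebraic F E]
    (W : QVal F) (v : Valuation E Γ) (hlt : ∀ c : F, W.Gt c 0 → v (algebraMap F E c) < 1) :
    ∃ V : QVal E, ∀ x, V.ord (algebraMap F E x) = W.ord x := by
  classical
  have hcmp : ∀ a b : F, a ≠ 0 → b ≠ 0 → v (algebraMap F E a) ≤ v (algebraMap F E b) →
      W.ord b ≤ W.ord a := by
    intro a b ha hb h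
    by_contra hc
    have h1 : W.Gt (b / a) 0 := QVal.Gt.of_lt (by
      rw [W.ord_div hb ha]
      linarith [not_le.mp hc])
    have h2 := hlt _ h1
    have h3 : 0 < v (algebraMap F E a) := zero_lt_iff.mpr (v.ne_zero_iff.mpr (by simpa using ha))
    rw [map_div₀, map_div₀, div_lt_one₀ h3] at h2
    exact absurd h (not_le.mpr h2)
  obtain ⟨P, hP⟩ : ∃ P : E → ℚ → Prop, ∀ x q, P x q ↔
      ∃ (n : ℕ) (y : F), 0 < n ∧ y ≠ 0 ∧ v x ^ n = v (algebraMap F E y) ∧ n * q = W.ord y :=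
    ⟨_, fun _ _ => Iff.rfl⟩
  have hex : ∀ x, x ≠ 0 → ∃ q, P x q := by
    intro x h0
    obtain ⟨n, y, hn, hy, h⟩ := ext_val_tors v (Algebra.IsAlgebraic.isAlgebraic (R := F) x) h0
    have h1 : (n : ℚ) ≠ 0 := by exact_mod_cast hn.ne'
    exact ⟨W.ord y / n, (hP _ _).mpr ⟨n, y, hn, hy, h, mul_div_cancel₀ _ h1⟩⟩
  have hmono : ∀ x q x' q', P x q → P x' q' → v x ≤ v x' → q' ≤ q := by
    intro x q x' q' h1 h2 h
    obtain ⟨n, y, hn, hy, h3, h4⟩ := (hP _ _).mp h1
    obtain ⟨n', y', hn', hy', h5, h6⟩ := (hP _ _).mp h2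
    have h7 := hcmp (y ^ n') (y' ^ n) (pow_ne_zero _ hy) (pow_ne_zero _ hy') (by
      rw [map_pow, map_pow, map_pow, map_pow, ← h3, ← h5, ← pow_mul, ← pow_mul, mul_comm n' n]
      exact pow_le_pow_left₀ zero_le h _)
    rw [W.ord_pow, W.ord_pow, ← h4, ← h6] at h7
    have h8 : (0 : ℚ) < (n : ℚ) * n' := by exact_mod_cast Nat.mul_pos hn hn'
    exact le_of_mul_le_mul_left (by linarith) h8
  have huniq : ∀ x q q', P x q → P x q' → q = q' := fun x q q' h1 h2 =>
    le_antisymm (hmono x q' x q h2 h1 le_rfl) (hmono x q x q' h1 h2 le_rfl)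
  have hmul : ∀ x q x' q', P x q → P x' q' → P (x * x') (q + q') := by
    intro x q x' q' h1 h2
    obtain ⟨n, y, hn, hy, h3, h4⟩ := (hP _ _).mp h1
    obtain ⟨n', y', hn', hy', h5, h6⟩ := (hP _ _).mp h2
    refine (hP _ _).mpr ⟨n * n', y ^ n' * y' ^ n, Nat.mul_pos hn hn',
      mul_ne_zero (pow_ne_zero _ hy) (pow_ne_zero _ hy'), ?_, ?_⟩
    · rw [map_mul, map_mul, map_mul, map_pow, map_pow, map_pow, map_pow, ← h3, ← h5, ← pow_mul,
        ← pow_mul, mul_comm n' n, mul_pow]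
    · rw [W.ord_mul (pow_ne_zero _ hy) (pow_ne_zero _ hy'), W.ord_pow, W.ord_pow, ← h4, ← h6]
      push_cast
      ring
  obtain ⟨o, ho0, ho⟩ : ∃ o : E → ℚ, o 0 = 0 ∧ ∀ x, x ≠ 0 → P x (o x) := by
    refine ⟨fun x => if h : x = 0 then 0 else (hex x h).choose, by simp, fun x h => ?_⟩
    simp only [dif_neg h]
    exact (hex x h).choose_spec
  refine ⟨⟨o, ho0, fun {f g} hf hg => ?_, fun {f g} hf hg h => ?_⟩, fun x => ?_⟩
  · exact huniq _ _ _ (ho _ (mul_ne_zero hf hg)) (hmul _ _ _ _ (ho f hf) (ho g hg))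
  · rcases le_max_iff.mp (v.map_add f g) with h1 | h1
    · exact (min_le_left _ _).trans (hmono _ _ _ _ (ho _ h) (ho f hf) h1)
    · exact (min_le_right _ _).trans (hmono _ _ _ _ (ho _ h) (ho g hg) h1)
  · by_cases h0 : x = 0
    · rw [h0, map_zero, W.ord_zero]
      exact ho0
    · exact huniq _ _ _ (ho _ (by simpa using h0))
        ((hP _ _).mpr ⟨1, x, one_pos, h0, pow_one _, by simp⟩)

/-- `W.O` is a valuation ring, hence local; its image in `E` is dominated by a valuation subring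
`B` (`LocalSubring.exists_le_valuationSubring`). For `a b : F` one has
`B.valuation a ≤ B.valuation b` iff `W.Ge (a / b) 0`. For `x ≠ 0` there are `n > 0`, `y ≠ 0` in
`F` with `B.valuation x ^ n = B.valuation y` (two terms of the minimal polynomial,
`Valuation.map_sum_eq_of_lt`); put `ord x = W.ord y / n`, independent of the choice. -/
theorem QVal.exists_ext [Algebra.IsAlgebraic F E] (W : QVal F) :
    ∃ V : QVal E, ∀ x, V.ord (algebraMap F E x) = W.ord x := by
  obtain ⟨B, -, h2⟩ := ext_exists_sub (E := E) W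
  exact ext_of_val W B.valuation h2

/-- V0 -/
theorem exists_qval (E : Type) [Field E] [Algebra k K] [Algebra K E] [Algebra.IsAlgebraic K E]
    (v : Place k K) : ∃ V : QVal E, V.Over v :=
  v.toQ.exists_ext

theorem ext_div_char [IsSepClosed E] (p : ℕ) [Fact p.Prime] [CharP E p] (V : QVal E) {y : E}
    (hy : y ≠ 0) (h : 0 < V.ord y) : ∃ x, x ≠ 0 ∧ p * V.ord x = V.ord y := by
  have hp : 2 ≤ p := (Fact.out : p.Prime).two_le
  obtain ⟨x, hx⟩ := IsSepClosed.exists_root_C_mul_X_pow_add_C_mul_X_add_C' p p 1 (-y) (-y)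
    dvd_rfl hp (neg_ne_zero.mpr hy)
  have h1 : x ^ p = y * (1 + x) := by linear_combination hx
  have h0 : x ≠ 0 := by
    rintro rfl
    rw [zero_pow (by omega), add_zero, mul_one] at h1
    exact hy h1.symm
  have hq : (2 : ℚ) ≤ p := by exact_mod_cast hp
  have h2 : 0 < V.ord x := by
    by_contra hc
    have h3 : V.ord x ≤ 0 := not_lt.mp hc
    have h4 : V.Ge (y * (1 + x)) (V.ord y + V.ord x) :=
      (V.ge_ord y).mul ((V.ge_one.mono h3).add (V.ge_ord x))
    rw [← h1] at h4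
    have h5 := h4.le (pow_ne_zero _ h0)
    rw [V.ord_pow] at h5
    nlinarith
  obtain ⟨h3, h4⟩ := QVal.ord_add_of_gt (V := V) (f := 1) (g := x) one_ne_zero
    (QVal.Gt.of_lt (by rwa [V.ord_one]))
  refine ⟨x, h0, ?_⟩
  rw [← V.ord_pow, h1, V.ord_mul hy h3, h4, V.ord_one, add_zero]

theorem ext_div_prime [IsSepClosed E] (p : ℕ) [Fact p.Prime] [CharP E p] (V : QVal E) {l : ℕ}
    (hl : l.Prime) {y : E} (hy : y ≠ 0) : ∃ x, x ≠ 0 ∧ l * V.ord x = V.ord y := by
  by_cases hlp : l = p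
  · subst hlp
    rcases lt_trichotomy 0 (V.ord y) with h | h | h
    · exact ext_div_char l V hy h
    · exact ⟨1, one_ne_zero, by rw [V.ord_one, mul_zero, h]⟩
    · obtain ⟨x, h0, hx⟩ := ext_div_char l V (inv_ne_zero hy) (by rw [V.ord_inv]; linarith)
      refine ⟨x⁻¹, inv_ne_zero h0, ?_⟩
      rw [V.ord_inv] at hx ⊢
      linarith
  · have : NeZero (l : E) := ⟨fun h => hlp
      ((Nat.prime_dvd_prime_iff_eq Fact.out hl).mp ((CharP.cast_eq_zero_iff E p l).mp h)).symm⟩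
    obtain ⟨x, hx⟩ := IsSepClosed.exists_pow_nat_eq y l
    refine ⟨x, ?_, by rw [← V.ord_pow, hx]⟩
    rintro rfl
    rw [zero_pow hl.ne_zero] at hx
    exact hy hx.symm

/-- in a separably closed field of characteristic `p` every rational number is an order: it is
enough to divide by primes `l`; for `l ≠ p` take an `l`-th root, for `l = p` and `ord y > 0` a root
of the separable polynomial `X ^ p - y * X - y` has order `ord y / p`; invert if `ord y < 0` -/
theorem QVal.exists_ord_eq [IsSepClosed E] (p : ℕ) [Fact p.Prime] [CharP E p] (V : QVal E)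
    (h1 : ∃ t, t ≠ 0 ∧ V.ord t = 1) (m : ℚ) : ∃ x, x ≠ 0 ∧ V.ord x = m := by
  have hdiv : ∀ n : ℕ, n ≠ 0 → ∀ y : E, y ≠ 0 → ∃ x, x ≠ 0 ∧ n * V.ord x = V.ord y := by
    intro n
    induction n using induction_on_primes with
    | zero => exact fun h => absurd rfl h
    | one => exact fun _ y hy => ⟨y, hy, by simp⟩
    | prime_mul l a hl ih =>
      intro h y hy
      obtain ⟨z, hz, h2⟩ := ext_div_prime p V hl hy
      obtain ⟨x, hx, h3⟩ := ih (right_ne_zero_of_mul h) z hz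
      refine ⟨x, hx, ?_⟩
      rw [← h2, ← h3]
      push_cast
      ring
  obtain ⟨t, ht, h2⟩ := h1
  obtain ⟨x, hx, h3⟩ := hdiv m.den m.den_nz (t ^ m.num) (zpow_ne_zero _ ht)
  refine ⟨x, hx, ?_⟩
  rw [V.ord_zpow, h2, mul_one] at h3
  have h4 : (m.den : ℚ) ≠ 0 := by exact_mod_cast m.den_nz
  rw [← mul_right_inj' h4, h3, mul_comm, Rat.mul_den_eq_num]

end Pool.Agent.Lib.MP_6adaea_nt
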