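import Pool.Agent.Lib.MP_6adaea_nt.V.FF0

/-!
Function fields over an algebraically closed field: separating elements.
-/

set_option linter.unusedSectionVars false

namespace Pool.Agent.Lib.MP_6adaea_nt
open Module Polynomial

variable {k K : Type} [Field k] [Field K] [Algebra k K] [IsAlgClosed k] [IsFF k K]
  (p : ℕ) [Fact p.Prime] [CharP k p]

variable (k K) in
include k in
theorem ff1_char : CharP K p := charP_of_injective_algebraMap (algebraMap k K).injective p

variable (k K) in
theorem ff1_sep : ∃ t : K, Transcendental k t ∧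
    Algebra.IsSeparable (IntermediateField.adjoin k {t}) K := by
  obtain ⟨t₀, hX, hfin⟩ := IsFF.ex (k := k) (K := K)
  have : Algebra.EssFiniteType k (IntermediateField.adjoin k {t₀}) :=
    IntermediateField.essFiniteType_iff.2 ⟨{t₀}, by simp⟩
  have : Algebra.EssFiniteType k K :=
    Algebra.EssFiniteType.comp k (IntermediateField.adjoin k {t₀}) K
  obtain ⟨s, hs, hsep⟩ := exists_isTranscendenceBasis_and_isSeparable_of_perfectField k K
  have hb : IsTranscendenceBasis k fun _ : PUnit.{1} => t₀ := by
    refine (algebraicIndependent_unique_type_iff.2 hX).isTranscendenceBasis_iff_isAlgebraic.2 ?_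
    rw [Set.range_const, ← IntermediateField.isAlgebraic_adjoin_iff_top]
    infer_instance
  have hc := hs.cardinalMk_eq hb
  rw [Cardinal.mk_coe_finset, Cardinal.mk_punit, Nat.cast_eq_one] at hc
  obtain ⟨t, rfl⟩ := Finset.card_eq_one.1 hc
  have ht : Transcendental k t := hs.1.transcendental ⟨t, Finset.mem_singleton_self t⟩
  rw [Finset.coe_singleton] at hsep
  exact ⟨t, ht, hsep⟩

/-- the degree of a purely inseparable simple extension -/
theorem ff1_deg [CharP K p] {E : Type} [Field E] [Algebra E K] {t : K} (ht : ¬ ∃ y, t = y ^ p)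
    (a : ℕ) (h1 : t ^ p ^ a ∈ (algebraMap E K).range)
    (h2 : ∀ b : E, ∃ y, algebraMap E K b = y ^ p ^ a) :
    IsIntegral E t ∧ (minpoly E t).natDegree = p ^ a := by
  have hp : p.Prime := Fact.out
  have hE : CharP E p := (Algebra.charP_iff E K p).2 inferInstance
  have : ExpChar E p := ExpChar.prime hp
  have : ExpChar K p := ExpChar.prime hp
  obtain ⟨c, hc⟩ := id h1
  have hmo : (X ^ p ^ a - C c : E[X]).Monic := monic_X_pow_sub_C c (pow_pos hp.pos a).ne'
  have h0 : aeval t (X ^ p ^ a - C c : E[X]) = 0 := by simp [hc]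
  refine ⟨⟨_, hmo, h0⟩, ?_⟩
  obtain ⟨n, y, hy⟩ := (minpoly.natSepDegree_eq_one_iff_eq_X_pow_sub_C p).1
    ((minpoly.natSepDegree_eq_one_iff_pow_mem p).2 ⟨a, h1⟩)
  have h3 : (minpoly E t).natDegree ≤ p ^ a := by
    have := natDegree_le_natDegree (minpoly.degree_le_of_ne_zero E t hmo.ne_zero h0)
    rwa [natDegree_X_pow_sub_C] at this
  have h4 := minpoly.aeval E t
  rw [hy, natDegree_X_pow_sub_C] at h3 ⊢
  rw [hy] at h4
  have h5 : n ≤ a := (Nat.pow_le_pow_iff_right hp.one_lt).1 h3
  rcases h5.eq_or_lt with rfl | h5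
  · rfl
  · exfalso
    obtain ⟨z, hz⟩ := h2 y
    obtain ⟨m, rfl⟩ := Nat.exists_eq_add_of_lt h5
    refine ht ⟨z ^ p ^ m, (iterateFrobenius_inj K p n) ?_⟩
    simp only [map_sub, map_pow, aeval_X, aeval_C, sub_eq_zero] at h4
    rw [iterateFrobenius_def, iterateFrobenius_def, h4, hz, ← pow_mul, ← pow_mul]
    congr 1
    ring

variable (k K) in
include k in
/-- adapt `exists_sep` and `exists_der` of `Der.lean` (they only use that `k` is perfect):
with `E = (frobenius K p).fieldRange` and a separating `t` one has `t ∉ E`, `K = E⟮t⟯` -/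
theorem IsFF.exists_gen : ∃ t : K, (¬ ∃ y, t = y ^ p) ∧
    ∀ M : Subfield K, (∀ y, y ^ p ∈ M) → t ∈ M → M = ⊤ := by
  have hp : p.Prime := Fact.out
  have := ff1_char k K p
  have : ExpChar k p := ExpChar.prime hp
  obtain ⟨t, ht, hsep⟩ := ff1_sep k K
  refine ⟨t, ?_, fun M h1 h2 => ?_⟩
  · rintro ⟨y, hy⟩
    let e := RatFunc.algEquivOfTranscendental t ht
    let _ : Algebra (RatFunc k) K :=
      ((algebraMap (IntermediateField.adjoin k {t}) K).comp e.toRingEquiv.toRingHom).toAlgebra
    have he : RingHom.comp (algebraMap (RatFunc k) K) ↑e.toRingEquiv.symm =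
        RingHom.comp ↑(RingEquiv.refl K) (algebraMap (IntermediateField.adjoin k {t}) K) := by
      ext x
      exact congrArg (algebraMap (IntermediateField.adjoin k {t}) K) (e.apply_symm_apply x)
    have : Algebra.IsSeparable (RatFunc k) K :=
      Algebra.IsSeparable.of_equiv_equiv e.toRingEquiv.symm (RingEquiv.refl K) he
    exact der_not_pow k K p y (hy.symm.trans (RatFunc.algEquivOfTranscendental_X t ht).symm)
  · have hk : ∀ c : k, algebraMap k K c ∈ M := fun c => by
      obtain ⟨d, rfl⟩ := surjective_frobenius k p c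
      rw [frobenius_def, map_pow]
      exact h1 _
    have hF : IntermediateField.adjoin k {t} ≤ M.toIntermediateField hk :=
      IntermediateField.adjoin_simple_le_iff.2 h2
    have hF' : ∀ c : IntermediateField.adjoin k {t},
        algebraMap (IntermediateField.adjoin k {t}) K c ∈ M := fun c => hF c.2
    have : ExpChar (IntermediateField.adjoin k {t}) p :=
      expChar_of_injective_algebraMap (algebraMap k _).injective p
    have h3 := IntermediateField.adjoin_eq_adjoin_pow_expChar_of_isSeparable'
      (IntermediateField.adjoin k {t}) K Set.univ p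
    have h4 : IntermediateField.adjoin (IntermediateField.adjoin k {t})
        ((· ^ p) '' (Set.univ : Set K)) ≤ M.toIntermediateField hF' := by
      rw [IntermediateField.adjoin_le_iff]
      rintro _ ⟨y, -, rfl⟩
      exact h1 y
    rw [← h3, IntermediateField.adjoin_univ] at h4
    exact top_le_iff.1 fun x _ => h4 (IntermediateField.mem_top (x := x))

variable (k) in
include k in
/-- `K` has prime degree `p` over `E = (frobenius K p).fieldRange` by `exists_gen`
(`X_pow_sub_C_irreducible_of_prime`), so `E⟮t⟯ = K` for every `t ∉ E` -/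
theorem IsFF.eq_top {t : K} (ht : ¬ ∃ y, t = y ^ p) (M : Subfield K) (h1 : ∀ y, y ^ p ∈ M)
    (h2 : t ∈ M) : M = ⊤ := by
  have hp : p.Prime := Fact.out
  have := ff1_char k K p
  have : ExpChar K p := ExpChar.prime hp
  obtain ⟨t₀, a1, a2⟩ := IsFF.exists_gen k K p
  let E : Subfield K := (frobenius K p).fieldRange
  have htop : IntermediateField.adjoin E {t₀} = ⊤ := by
    have := a2 (IntermediateField.adjoin E {t₀}).toSubfield
      (fun y => IntermediateField.algebraMap_mem _ (⟨y ^ p, y, rfl⟩ : E))
      (IntermediateField.mem_adjoin_simple_self E t₀)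
    exact top_le_iff.1 fun x _ => this.ge (Subfield.mem_top x)
  obtain ⟨b1, b2⟩ := ff1_deg (E := E) p a1 1 ⟨⟨t₀ ^ p, t₀, rfl⟩, by rw [pow_one]; rfl⟩ (by
    rintro ⟨_, y, rfl⟩
    exact ⟨y, by rw [pow_one]; rfl⟩)
  have hr : Module.finrank E K = p := by
    rw [← IntermediateField.finrank_top', ← htop, IntermediateField.adjoin.finrank b1, b2, pow_one]
  have hM : ∀ c : E, algebraMap E K c ∈ M := by
    rintro ⟨_, y, rfl⟩
    exact h1 y
  rcases (IntermediateField.isSimpleOrder_of_finrank_prime E K (hr ▸ hp)).eq_bot_or_eq_top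
    (M.toIntermediateField hM) with h | h
  · have h3 : t ∈ M.toIntermediateField hM := h2
    rw [h, IntermediateField.mem_bot] at h3
    obtain ⟨⟨_, y, rfl⟩, h4⟩ := h3
    exact absurd ⟨y, h4.symm⟩ ht
  · exact top_le_iff.1 fun x _ => h.ge (IntermediateField.mem_top (x := x))

variable (k) in
include k in
theorem ff1_top {t : K} (ht : ¬ ∃ y, t = y ^ p) (a : ℕ) (M : Subfield K)
    (h1 : ∀ y, y ^ p ^ a ∈ M) (h2 : t ∈ M) : M = ⊤ := by
  have hp : p.Prime := Fact.out
  have := ff1_char k K p
  have : ExpChar K p := ExpChar.prime hp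
  induction a generalizing M with
  | zero => exact top_le_iff.1 fun x _ => by simpa using h1 x
  | succ a ih =>
    have h3 := ih (M.comap (frobenius K p)) (fun y => by
      rw [Subfield.mem_comap, frobenius_def, ← pow_mul, ← pow_succ]
      exact h1 y) (pow_mem h2 p)
    exact IsFF.eq_top k p ht M (fun y => h3.ge (Subfield.mem_top y)) h2

variable (k) in
include k in
/-- `der_simple` -/
theorem IsFF.exists_der {t : K} (ht : ¬ ∃ y, t = y ^ p) :
    ∃ D : Derivation ℤ K K, D t = 1 ∧ ∀ x, D x = 0 → ∃ y, x = y ^ p := by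
  have hp : p.Prime := Fact.out
  have := ff1_char k K p
  have : ExpChar K p := ExpChar.prime hp
  let E : Subfield K := (frobenius K p).fieldRange
  have htop : IntermediateField.adjoin E {t} = ⊤ := by
    have := IsFF.eq_top k p ht (IntermediateField.adjoin E {t}).toSubfield
      (fun y => IntermediateField.algebraMap_mem _ (⟨y ^ p, y, rfl⟩ : E))
      (IntermediateField.mem_adjoin_simple_self E t)
    exact top_le_iff.1 fun x _ => this.ge (Subfield.mem_top x)
  obtain ⟨D, h1, h2⟩ := der_simple (E := E) p (t := t) (a := ⟨t ^ p, t, rfl⟩) rfl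
    (fun b hb => by
      obtain ⟨_, y, rfl⟩ := b
      exact ht ⟨y, hb.symm⟩) htop
  refine ⟨D.restrictScalars ℤ, h1, fun x hx => ?_⟩
  obtain ⟨⟨_, y, rfl⟩, rfl⟩ := h2 x hx
  exact ⟨y, rfl⟩

variable (k) in
include k p in
/-- the elements where both sides agree form a subfield; `eq_top` -/
theorem IsFF.der_eq {t : K} (D D' : Derivation ℤ K K) (h : D' t = 1) (x : K) :
    D x = D t * D' x := by
  have := ff1_char k K p
  have hpow : ∀ (Δ : Derivation ℤ K K) (y : K), Δ (y ^ p) = 0 := fun Δ y => by
    rw [Derivation.leibniz_pow, nsmul_eq_mul, CharP.cast_eq_zero, zero_mul]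
  let Δ : Derivation ℤ K K := D - D t • D'
  let M : Subfield K :=
    { carrier := {x | Δ x = 0}
      mul_mem' := fun {a b} ha hb => by
        simp only [Set.mem_ofPred_eq] at ha hb ⊢
        rw [Derivation.leibniz, ha, hb, smul_zero, smul_zero, add_zero]
      one_mem' := Δ.map_one_eq_zero
      add_mem' := fun {a b} ha hb => by
        simp only [Set.mem_ofPred_eq] at ha hb ⊢
        rw [map_add, ha, hb, add_zero]
      zero_mem' := map_zero Δ
      neg_mem' := fun {a} ha => by
        simp only [Set.mem_ofPred_eq] at ha ⊢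
        rw [map_neg, ha, neg_zero]
      inv_mem' := fun a ha => by
        simp only [Set.mem_ofPred_eq] at ha ⊢
        rw [Derivation.leibniz_inv, ha, smul_zero] }
  have ht : ¬ ∃ y, t = y ^ p := by
    rintro ⟨y, rfl⟩
    rw [hpow] at h
    exact zero_ne_one h
  have hM := IsFF.eq_top k p ht M (hpow Δ) (show Δ t = 0 by simp [Δ, h])
  have hx : Δ x = 0 := hM.ge (Subfield.mem_top x)
  simpa [Δ, sub_eq_zero] using hx

/-- constants are `p`-th powers -/
theorem IsFF.transcendental {t : K} (ht : ¬ ∃ y, t = y ^ p) : Transcendental k t := by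
  intro h
  obtain ⟨c, rfl⟩ := minpoly.mem_range_of_degree_eq_one k t
    (IsAlgClosed.degree_eq_one_of_irreducible k (minpoly.irreducible h.isIntegral))
  obtain ⟨d, rfl⟩ := IsAlgClosed.exists_pow_nat_eq c (Fact.out : p.Prime).pos
  exact ht ⟨algebraMap k K d, map_pow _ _ _⟩

/-- Let `S` be the separable closure of `k⟮t⟯` in `K`; `K / S` is finite and purely inseparable,
so `K ^ (p ^ a) ⊆ S` for some `a`. By induction on `a` and `eq_top` every subfield that contains
`t` and all `y ^ p ^ a` is `K` (apply Frobenius to `K = K ^ (p ^ a) (t)`). -/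
theorem IsFF.sep_adjoin {t : K} (ht : ¬ ∃ y, t = y ^ p) :
    Algebra.IsSeparable (IntermediateField.adjoin k {t}) K := by
  have hp : p.Prime := Fact.out
  have := ff1_char k K p
  have : ExpChar k p := ExpChar.prime hp
  have := IsFF.finite_adjoin (IsFF.transcendental (k := k) p ht)
  let S := separableClosure (IntermediateField.adjoin k {t}) K
  have : ExpChar (IntermediateField.adjoin k {t}) p :=
    expChar_of_injective_algebraMap (algebraMap k _).injective p
  have : ExpChar S p :=
    expChar_of_injective_algebraMap (algebraMap (IntermediateField.adjoin k {t}) S).injective p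
  have h := ff1_top k p ht (IsPurelyInseparable.exponent S K) S.toSubfield (fun y => by
    obtain ⟨c, hc⟩ := IsPurelyInseparable.exponent_def' S p y
    rw [← hc]
    exact c.2)
    (S.algebraMap_mem ⟨t, IntermediateField.mem_adjoin_simple_self k t⟩)
  exact (separableClosure.eq_top_iff _ _).1
    (top_le_iff.1 fun x _ => h.ge (Subfield.mem_top x))

variable (k) in
include k in
/-- Induction on `a`. For `a = 1`: the set of such sums is a subring that is a finite dimensional
domain over `E`, hence a subfield, `eq_top`; uniqueness by applying the derivation of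
`exists_der` (or the minimal polynomial `X ^ p - C (t ^ p)`). -/
theorem IsFF.exists_coord {t : K} (ht : ¬ ∃ y, t = y ^ p) (a : ℕ) (f : K) :
    ∃! g : Fin (p ^ a) → K, f = ∑ i : Fin (p ^ a), t ^ (i : ℕ) * g i ^ p ^ a := by
  have hp : p.Prime := Fact.out
  have := ff1_char k K p
  have : ExpChar K p := ExpChar.prime hp
  let E : Subfield K := (iterateFrobenius K p a).fieldRange
  have htop : IntermediateField.adjoin E {t} = ⊤ := by
    have := ff1_top k p ht a (IntermediateField.adjoin E {t}).toSubfield
      (fun y => IntermediateField.algebraMap_mem _ (⟨y ^ p ^ a, y, rfl⟩ : E))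
      (IntermediateField.mem_adjoin_simple_self E t)
    exact top_le_iff.1 fun x _ => this.ge (Subfield.mem_top x)
  obtain ⟨b1, b2⟩ := ff1_deg (E := E) p ht a ⟨⟨t ^ p ^ a, t, rfl⟩, rfl⟩ (by
    rintro ⟨_, y, rfl⟩
    exact ⟨y, rfl⟩)
  have hr : Module.finrank E K = p ^ a := by
    rw [← IntermediateField.finrank_top', ← htop, IntermediateField.adjoin.finrank b1, b2]
  have hli : LinearIndependent E fun i : Fin (p ^ a) => t ^ (i : ℕ) := by
    have := linearIndependent_pow (K := E) t
    rwa [b2] at this
  have : Nonempty (Fin (p ^ a)) := ⟨⟨0, pow_pos hp.pos a⟩⟩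
  let b := basisOfLinearIndependentOfCardEqFinrank hli (by rw [hr, Fintype.card_fin])
  have hb : ∀ i, b i = t ^ (i : ℕ) := fun i => by simp [b]
  choose g hg using fun i => (b.repr f i).2
  refine ⟨g, ?_, fun g' hg' => funext fun i => ?_⟩
  · refine (b.sum_repr f).symm.trans (Finset.sum_congr rfl fun i _ => ?_)
    rw [hb, mul_comm, ← iterateFrobenius_def, hg]
    rfl
  · have h1 : f = ∑ j, (⟨g' j ^ p ^ a, g' j, rfl⟩ : E) • b j :=
      hg'.trans (Finset.sum_congr rfl fun j _ => by
        rw [hb, mul_comm]
        rfl)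
    have h2 : b.repr f i = ⟨g' i ^ p ^ a, g' i, rfl⟩ := by
      rw [h1]
      exact congrFun (b.repr_sum_self _) i
    apply iterateFrobenius_inj K p a
    rw [hg, h2]
    rfl

end Pool.Agent.Lib.MP_6adaea_nt
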