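import Pool.Agent.Lib.MP_6adaea_nt.Defs

/-!
The theorem of Mason and its consequences, without hypothesis on the residue fields.
-/

set_option linter.unusedSectionVars false

namespace Pool.Agent.Lib.MP_6adaea_nt
open Module Polynomial

universe u v

/-- a family of places with positive weights, the product formula and a derivation whose
kernel consists of `p`-th powers and which is almost integral -/
structure MSys (K : Type u) (L : Type v) [Field K] [Field L] [Algebra K L] (p : ℕ) where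
  ι : Type v
  pl : ι → Place K L
  w : ι → ℕ
  κ : ι →₀ ℕ
  D : Derivation ℤ L L
  w_pos : ∀ i, 0 < w i
  fin : ∀ x : L, {i | (pl i).ord x ≠ 0}.Finite
  prod : ∀ x : L, x ≠ 0 → ∀ S : Finset ι, (∀ i, (pl i).ord x ≠ 0 → i ∈ S) →
    ∑ i ∈ S, (w i : ℤ) * (pl i).ord x = 0
  der : ∀ i x, (pl i).Ge x 0 → (pl i).Ge (D x) (-(κ i : ℤ))
  ker : ∀ x, D x = 0 → ∃ y, x = y ^ p

/-- the total defect of the derivation -/
noncomputable def MSys.kap {K : Type u} {L : Type v} [Field K] [Field L] [Algebra K L] {p : ℕ}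
    (P : MSys K L p) : ℕ := P.κ.sum fun i k => P.w i * k

variable {K : Type u} {L : Type v} [Field K] [Finite K] [Field L] [Algebra K L]
  {p : ℕ} [Fact p.Prime] [CharP L p] (P : MSys K L p)

/-- write `x = π ^ n * ε` with a uniformiser `π` (`Place.surj`) and `ord ε = 0`;
`D x = n π ^ (n - 1) D π ε + π ^ n D ε` (`Derivation.leibniz_zpow`); integers have order `≥ 0` -/
theorem MSys.der_ge (i : P.ι) (x : L) :
    (P.pl i).Ge (P.D x) ((P.pl i).ord x - 1 - P.κ i) := by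
  by_cases hx : x = 0
  · simp [hx]
  obtain ⟨t, ht0, ht1⟩ := (P.pl i).surj
  set n := (P.pl i).ord x with hn
  have hz : t ^ n ≠ 0 := zpow_ne_zero _ ht0
  have he : (P.pl i).Ge (x / t ^ n) 0 :=
    Place.Ge.of_le (by rw [(P.pl i).ord_div hx hz, Place.ord_zpow, ht1]; omega)
  have hxe : x = t ^ n * (x / t ^ n) := by field_simp
  have hint : (P.pl i).Ge ((n : ℤ) : L) 0 := by
    have := (P.pl i).ge_const ((n : ℤ) : K)
    rwa [map_intCast] at this
  have hD : P.D x = t ^ n * P.D (x / t ^ n) + x / t ^ n * ((n : L) * (t ^ (n - 1) * P.D t)) := by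
    conv_lhs => rw [hxe]
    rw [Derivation.leibniz, Derivation.leibniz_zpow, smul_eq_mul, smul_eq_mul, smul_eq_mul,
      zsmul_eq_mul]
  have h1 : (P.pl i).Ge (t ^ n) n := Place.Ge.of_le (by rw [Place.ord_zpow, ht1]; omega)
  have h2 : (P.pl i).Ge (t ^ (n - 1)) (n - 1) :=
    Place.Ge.of_le (by rw [Place.ord_zpow, ht1]; omega)
  have h3 := P.der i t (Place.Ge.of_le (by omega))
  rw [hD]
  exact ((h1.mul (P.der i _ he)).mono (by omega)).add
    ((he.mul (hint.mul (h2.mul h3))).mono (by omega))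

open Classical in
/-- the local inequality -/
lemma msys_local {u : L} (hD : P.D u ≠ 0) (T : Finset P.ι)
    (hT : ∀ i, i ∉ T → (P.pl i).ord u = 0 ∧ (P.pl i).ord (1 - u) = 0) (i : P.ι) :
    |(P.pl i).ord u| ≤ 2 * (P.pl i).ord (P.D u) - (P.pl i).ord u - 2 * (P.pl i).ord (1 - u) +
      2 * (if i ∈ T then 1 else 0) + 2 * (P.κ i : ℤ) := by
  have hu0 : u ≠ 0 := fun h => hD (by simp [h])
  have hu1 : 1 - u ≠ 0 := fun h => hD (by rw [← sub_eq_zero.mp h]; simp)
  have ha := (P.der_ge i u).le hD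
  have hb : (P.pl i).ord (1 - u) - 1 - P.κ i ≤ (P.pl i).ord (P.D u) := by
    have h1 : P.D (1 - u) = -P.D u := by simp
    have h2 := (P.der_ge i (1 - u)).le (by rw [h1]; exact neg_ne_zero.mpr hD)
    rwa [h1, Place.ord_neg] at h2
  by_cases hi : i ∈ T
  · rw [if_pos hi]
    rcases lt_trichotomy ((P.pl i).ord u) 0 with h | h | h
    · have h1 := (Place.ord_add_of_ge (v := P.pl i) (f := -u) (g := 1) (neg_ne_zero.mpr hu0)
        ((P.pl i).ge_one.mono (by rw [Place.ord_neg]; omega))).2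
      rw [neg_add_eq_sub, Place.ord_neg] at h1
      rw [abs_of_neg h]
      omega
    · rw [h, abs_zero]
      omega
    · have h1 := (Place.ord_add_of_ge (v := P.pl i) (f := 1) (g := -u) one_ne_zero
        (Place.Ge.of_le (by rw [Place.ord_neg, Place.ord_one]; omega))).2
      rw [← sub_eq_add_neg, Place.ord_one] at h1
      rw [abs_of_pos h]
      omega
  · obtain ⟨h1, h2⟩ := hT i hi
    have h3 := (P.der i u (Place.Ge.of_le h1.ge)).le hD
    rw [if_neg hi, h1, h2, abs_zero]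
    omega

/-- the case of a nonzero derivative -/
lemma msys_sep {u : L} (hD : P.D u ≠ 0) (T : Finset P.ι)
    (hT : ∀ i, i ∉ T → (P.pl i).ord u = 0 ∧ (P.pl i).ord (1 - u) = 0) :
    ∑ i ∈ T, (P.w i : ℤ) * |(P.pl i).ord u| ≤ 2 * (∑ i ∈ T, (P.w i : ℤ) + P.kap) := by
  classical
  have hu0 : u ≠ 0 := fun h => hD (by simp [h])
  have hu1 : 1 - u ≠ 0 := fun h => hD (by rw [← sub_eq_zero.mp h]; simp)
  set S := T ∪ P.κ.support ∪ (P.fin (P.D u)).toFinset with hS
  have hTS : T ⊆ S := fun i hi => by simp [hS, hi]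
  have e1 := P.prod u hu0 S fun i hi => hTS (by_contra fun h => hi (hT i h).1)
  have e2 := P.prod (1 - u) hu1 S fun i hi => hTS (by_contra fun h => hi (hT i h).2)
  have e3 := P.prod (P.D u) hD S fun i hi => by simp [hS, hi]
  have e4 : ∑ i ∈ S, (P.w i : ℤ) * (if i ∈ T then 1 else 0) = ∑ i ∈ T, (P.w i : ℤ) := by
    simp only [mul_ite, mul_one, mul_zero, Finset.sum_ite_mem, Finset.inter_eq_right.mpr hTS]
  have e5 : ∑ i ∈ S, (P.w i : ℤ) * (P.κ i : ℤ) = P.kap := by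
    rw [MSys.kap, Finsupp.sum_of_support_subset _ (s := S) (fun i hi => by simp [hS, hi]) _
      (by simp)]
    push_cast
    rfl
  calc ∑ i ∈ T, (P.w i : ℤ) * |(P.pl i).ord u| ≤ ∑ i ∈ S, (P.w i : ℤ) * |(P.pl i).ord u| :=
        Finset.sum_le_sum_of_subset_of_nonneg hTS fun i _ _ => by positivity
    _ ≤ ∑ i ∈ S, (P.w i : ℤ) * (2 * (P.pl i).ord (P.D u) - (P.pl i).ord u -
        2 * (P.pl i).ord (1 - u) + 2 * (if i ∈ T then 1 else 0) + 2 * (P.κ i : ℤ)) :=
        Finset.sum_le_sum fun i _ => mul_le_mul_of_nonneg_left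
          (by convert msys_local P hD T hT i) (by positivity)
    _ = 2 * ∑ i ∈ S, (P.w i : ℤ) * (P.pl i).ord (P.D u) - ∑ i ∈ S, (P.w i : ℤ) * (P.pl i).ord u -
        2 * ∑ i ∈ S, (P.w i : ℤ) * (P.pl i).ord (1 - u) +
        2 * ∑ i ∈ S, (P.w i : ℤ) * (if i ∈ T then 1 else 0) +
        2 * ∑ i ∈ S, (P.w i : ℤ) * (P.κ i : ℤ) := by
        simp only [Finset.mul_sum, ← Finset.sum_add_distrib, ← Finset.sum_sub_distrib]
        exact Finset.sum_congr rfl fun i _ => by ring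
    _ = _ := by
        rw [e1, e2, e3, e4, e5]
        ring

/-- First the case `D u ≠ 0`: with `a = ord u`, `b = ord (1 - u)`, `d = ord (D u)`
(`D (1 - u) = - D u`) one has at every place
`|a| ≤ 2 d - a - 2 b + 2 * (if i ∈ T then 1 else 0) + 2 κ` (cases `a > 0`, `a < 0`, `a = 0`);
sum with weights over `T ∪ supp κ ∪ supp ord (D u)` and use the product formula three times.
Then induction on `m`: if `D u = 0` then `u = y ^ p`, `1 - u = (1 - y) ^ p`. -/
theorem MSys.mason (m : ℕ) (u : L) (hu : ¬ ∃ y, u = y ^ p ^ m) (T : Finset P.ι)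
    (hT : ∀ i, i ∉ T → (P.pl i).ord u = 0 ∧ (P.pl i).ord (1 - u) = 0) :
    ∑ i ∈ T, (P.w i : ℤ) * |(P.pl i).ord u| ≤ 2 * p ^ m * (∑ i ∈ T, (P.w i : ℤ) + P.kap) := by
  induction m generalizing u with
  | zero => exact absurd ⟨u, by simp⟩ hu
  | succ m ih =>
    have hp : 0 < p := (Fact.out : p.Prime).pos
    have hp' : (0 : ℤ) < p := by exact_mod_cast hp
    have hA : (0 : ℤ) ≤ ∑ i ∈ T, (P.w i : ℤ) + P.kap := by positivity
    by_cases hD : P.D u = 0
    · obtain ⟨y, rfl⟩ := P.ker u hD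
      have h1 : 1 - y ^ p = (1 - y) ^ p := by rw [sub_pow_char, one_pow]
      have h2 := ih y (fun ⟨z, hz⟩ => hu ⟨z, by rw [hz, ← pow_mul, pow_succ]⟩) fun i hi => by
        have h3 := hT i hi
        rw [h1, Place.ord_pow, Place.ord_pow] at h3
        exact ⟨(mul_eq_zero.mp h3.1).resolve_left hp'.ne', (mul_eq_zero.mp h3.2).resolve_left hp'.ne'⟩
      calc ∑ i ∈ T, (P.w i : ℤ) * |(P.pl i).ord (y ^ p)|
          = p * ∑ i ∈ T, (P.w i : ℤ) * |(P.pl i).ord y| := by
            rw [Finset.mul_sum]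
            refine Finset.sum_congr rfl fun i _ => ?_
            rw [Place.ord_pow, abs_mul, abs_of_pos hp']
            ring
        _ ≤ p * (2 * p ^ m * (∑ i ∈ T, (P.w i : ℤ) + P.kap)) :=
            mul_le_mul_of_nonneg_left h2 hp'.le
        _ = _ := by ring
    · refine (msys_sep P hD T hT).trans (mul_le_mul_of_nonneg_right ?_ hA)
      have : (1 : ℤ) ≤ p ^ (m + 1) := one_le_pow₀ (by omega)
      omega

/-- the case of a quotient that is not a power -/
lemma msys_quot (m : ℕ) (Y : Submodule K L) (T : Finset P.ι)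
    (hT : ∀ i, i ∉ T → Flat (P.pl i) Y) {y y' : L} (hy : y ∈ Y) (hy' : y' ∈ Y) (h0 : y ≠ 0)
    (h0' : y' ≠ 0) (hq : ¬ ∃ z, y / y' = z ^ p ^ m) :
    ∑ i ∈ T, (P.w i : ℤ) * |(P.pl i).ord y - (P.pl i).ord y'| ≤
      2 * p ^ m * (∑ i ∈ T, (P.w i : ℤ) + P.kap) := by
  have hne : y' - y ≠ 0 := fun h => hq ⟨1, by rw [sub_eq_zero.mp h, div_self h0, one_pow]⟩
  have h1 := P.mason m (y / y') hq T fun i hi => by
    rw [one_sub_div h0', (P.pl i).ord_div h0 h0', (P.pl i).ord_div hne h0',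
      hT i hi y hy y' hy' h0 h0', hT i hi _ (Y.sub_mem hy' hy) y' hy' hne h0']
    simp
  simpa only [Place.ord_div _ h0 h0'] using h1

/-- If `y / y'` is not a `p ^ m`-th power apply `mason` to `u = y / y'`,
`1 - u = (y' - y) / y'`. Otherwise one of `a`, `b`, say `z`, has `y / z` not a power, and then
`z / y'` is not a power; triangle inequality. -/
theorem MSys.pair (m : ℕ) (Y : Submodule K L)
    (hY : ∃ a ∈ Y, ∃ b ∈ Y, a ≠ 0 ∧ b ≠ 0 ∧ ¬ ∃ y, a / b = y ^ p ^ m) (T : Finset P.ι)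
    (hT : ∀ i, i ∉ T → Flat (P.pl i) Y) {y y' : L} (hy : y ∈ Y) (hy' : y' ∈ Y) (h0 : y ≠ 0)
    (h0' : y' ≠ 0) : ∑ i ∈ T, (P.w i : ℤ) * |(P.pl i).ord y - (P.pl i).ord y'| ≤
      4 * p ^ m * (∑ i ∈ T, (P.w i : ℤ) + P.kap) := by
  have hA : (0 : ℤ) ≤ p ^ m * (∑ i ∈ T, (P.w i : ℤ) + P.kap) := by positivity
  by_cases hq : ∃ z, y / y' = z ^ p ^ m
  · obtain ⟨c, hc⟩ := hq
    obtain ⟨z, hz, hz0, hzq⟩ : ∃ z ∈ Y, z ≠ 0 ∧ ¬ ∃ s, y / z = s ^ p ^ m := by
      obtain ⟨a, ha, b, hb, ha0, hb0, hab⟩ := hY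
      by_contra hcon
      push Not at hcon
      obtain ⟨s, hs⟩ := hcon a ha ha0
      obtain ⟨t, ht⟩ := hcon b hb hb0
      exact hab ⟨t / s, by rw [div_pow, ← hs, ← ht]; field_simp⟩
    have hzq' : ¬ ∃ s, z / y' = s ^ p ^ m := fun ⟨e, he⟩ =>
      hzq ⟨c / e, by rw [div_pow, ← hc, ← he]; field_simp⟩
    have h1 := msys_quot P m Y T hT hy hz h0 hz0 hzq
    have h2 := msys_quot P m Y T hT hz hy' hz0 h0' hzq'
    calc ∑ i ∈ T, (P.w i : ℤ) * |(P.pl i).ord y - (P.pl i).ord y'|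
        ≤ ∑ i ∈ T, ((P.w i : ℤ) * |(P.pl i).ord y - (P.pl i).ord z| +
          (P.w i : ℤ) * |(P.pl i).ord z - (P.pl i).ord y'|) := by
          refine Finset.sum_le_sum fun i _ => ?_
          rw [← mul_add]
          exact mul_le_mul_of_nonneg_left (abs_sub_le _ _ _) (by positivity)
      _ ≤ _ := by
          rw [Finset.sum_add_distrib]
          linarith
  · have h1 := msys_quot P m Y T hT hy hy' h0 h0' hq
    linarith

lemma MSys.exists_nonflat (Y : Submodule K L) [FiniteDimensional K Y] :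
    ∃ T : Finset P.ι, ∀ i, i ∈ T ↔ ¬ Flat (P.pl i) Y := by
  have : {i | ¬ Flat (P.pl i) Y}.Finite := by
    refine ((fin_sub Y).biUnion fun y _ => P.fin y).subset fun i hi => ?_
    by_contra h
    simp only [Set.mem_iUnion, Set.mem_ofPred_eq, not_exists, not_not, SetLike.mem_coe] at h
    exact hi fun y hy y' hy' _ _ => by rw [h y hy, h y' hy']
  exact ⟨this.toFinset, fun i => this.mem_toFinset⟩

lemma MSys.sum_var (m : ℕ) (Y : Submodule K L) [FiniteDimensional K Y]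
    (hY : ∃ a ∈ Y, ∃ b ∈ Y, a ≠ 0 ∧ b ≠ 0 ∧ ¬ ∃ y, a / b = y ^ p ^ m) (T : Finset P.ι)
    (hT : ∀ i, i ∉ T → Flat (P.pl i) Y) :
    ∑ i ∈ T, (P.w i : ℤ) * var (P.pl i) Y ≤
      Nat.card K ^ (2 * finrank K Y) * (4 * p ^ m * (∑ i ∈ T, (P.w i : ℤ) + P.kap)) := by
  classical
  set c : ℤ := 4 * p ^ m * (∑ i ∈ T, (P.w i : ℤ) + P.kap) with hc
  have hc0 : 0 ≤ c := by positivity
  have hcard : (((els Y).erase 0).card : ℤ) ≤ Nat.card K ^ finrank K Y := by
    have := Finset.card_erase_le (s := els Y) (a := 0)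
    rw [card_els] at this
    exact_mod_cast this
  simp only [var, Finset.mul_sum]
  rw [Finset.sum_comm]
  refine (Finset.sum_le_card_nsmul _ _ (Nat.card K ^ finrank K Y * c) fun y hy => ?_).trans ?_
  · rw [Finset.sum_comm]
    refine (Finset.sum_le_card_nsmul _ _ c fun y' hy' => ?_).trans ?_
    · have h1 := Finset.mem_erase.mp (show y ∈ (els Y).erase 0 by convert hy)
      have h2 := Finset.mem_erase.mp (show y' ∈ (els Y).erase 0 by convert hy')
      exact P.pair m Y hY T hT (mem_els.mp h1.2) (mem_els.mp h2.2) h1.1 h2.1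
    · rw [nsmul_eq_mul]
      exact mul_le_mul_of_nonneg_right (by convert hcard) hc0
  · rw [nsmul_eq_mul, two_mul, pow_add, mul_assoc]
    exact mul_le_mul_of_nonneg_right (by convert hcard) (by positivity)

end Pool.Agent.Lib.MP_6adaea_nt
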