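import Pool.Agent.Lib.MP_6adaea_nt.V.FF2
import Pool.Agent.Lib.MP_6adaea_nt.V.Mason

/-!
The derivation of a function field is almost integral.
-/

set_option linter.unusedSectionVars false

namespace Pool.Agent.Lib.MP_6adaea_nt
open Module Polynomial

/-- a derivation whose kernel consists of `p`-th powers, with its defect of integrality -/
structure FFD (k K : Type) [Field k] [Field K] [Algebra k K] (p : ℕ) where
  κ : Place k K →₀ ℕ
  D : Derivation ℤ K K
  der : ∀ (v : Place k K) x, v.Ge x 0 → v.Ge (D x) (-(κ v : ℤ))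
  ker : ∀ x, D x = 0 → ∃ y, x = y ^ p

variable {k K : Type} [Field k] [Field K] [Algebra k K] {p : ℕ}

/-- the total defect -/
noncomputable def FFD.kap (P : FFD k K p) : ℕ := P.κ.sum fun _ n => n

variable [IsAlgClosed k] [IsFF k K] [Fact p.Prime] [CharP k p]

/-- all places with weight one -/
noncomputable def FFD.toMSys (P : FFD k K p) (k₀ : Type) [Field k₀] [Algebra k₀ k] [Algebra k₀ K]
    [IsScalarTower k₀ k K] : MSys k₀ K p where
  ι := Place k K
  pl v := v.restrict k₀
  w _ := 1
  κ := P.κ
  D := P.D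
  w_pos _ := one_pos
  fin := IsFF.fin p
  prod x _ S hS := by simpa using IsFF.prod p x S hS
  der := P.der
  ker := P.ker

lemma FFD.toMSys_kap (P : FFD k K p) (k₀ : Type) [Field k₀] [Algebra k₀ k] [Algebra k₀ K]
    [IsScalarTower k₀ k K] : (P.toMSys k₀).kap = P.kap := by
  simp [MSys.kap, FFD.kap, FFD.toMSys]

/-- the derivation part of `exists_half` for all places that are nonnegative on `R` -/
lemma ffd_half (R F : Type) [CommRing R] [IsDomain R] [IsPrincipalIdealRing R] [Field F]
    [Algebra R F] [IsFractionRing R F] [Algebra F K] [Algebra R K] [IsScalarTower R F K]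
    [FiniteDimensional F K] [Algebra.IsSeparable F K]
    (hK : ∀ c : k, IsIntegral R (algebraMap k K c)) (D : Derivation ℤ K K)
    (hD : ∀ a : R, IsIntegral R (D (algebraMap R K a))) :
    ∃ c : K, c ≠ 0 ∧ ∀ v : Place k K, (∀ a : R, v.Ge (algebraMap R K a) 0) →
      (∃ a : R, algebraMap R K a ≠ 0 ∧ v.Ge (algebraMap R K a) 1) →
      ∀ x, v.Ge x 0 → v.Ge (D x) (-v.ord c) := by
  classical
  have hded : IsDedekindDomain (integralClosure R K) := integralClosure.isDedekindDomain R F K
  have hfin : Module.Finite R (integralClosure R K) :=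
    IsIntegralClosure.finite R F K (integralClosure R K)
  have hfrac : IsFractionRing (integralClosure R K) K :=
    IsIntegralClosure.isFractionRing_of_finite_extension R F K (integralClosure R K)
  have hK' : ∀ c : k, ∃ a : integralClosure R K,
      algebraMap (integralClosure R K) K a = algebraMap k K c := fun c => ⟨⟨_, hK c⟩, rfl⟩
  have hinj := IsFractionRing.injective (integralClosure R K) K
  obtain ⟨s, hs⟩ := Module.Finite.fg_top (R := R) (M := integralClosure R K)
  obtain ⟨c, hc⟩ := IsLocalization.exist_integer_multiples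
    (nonZeroDivisors (integralClosure R K)) s fun e => D (algebraMap _ K e)
  have hc0 : (c : integralClosure R K) ≠ 0 := nonZeroDivisors.ne_zero c.2
  have hcD : ∀ a : integralClosure R K, ∃ a' : integralClosure R K,
      algebraMap _ K a' = algebraMap _ K (c : integralClosure R K) * D (algebraMap _ K a) := by
    intro a
    have ha : a ∈ Submodule.span R (s : Set (integralClosure R K)) := hs ▸ Submodule.mem_top
    induction ha using Submodule.span_induction with
    | mem e he =>
      obtain ⟨a', ha'⟩ := hc e he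
      exact ⟨a', by rw [ha', Algebra.smul_def]⟩
    | zero => exact ⟨0, by simp⟩
    | add x y _ _ hx hy =>
      obtain ⟨x', hx'⟩ := hx
      obtain ⟨y', hy'⟩ := hy
      exact ⟨x' + y', by rw [map_add, map_add, map_add, hx', hy', mul_add]⟩
    | smul r x _ hx =>
      obtain ⟨x', hx'⟩ := hx
      refine ⟨r • x' + c * x * ⟨_, hD r⟩, ?_⟩
      have e1 : ∀ z : integralClosure R K, algebraMap _ K (r • z) =
          algebraMap R K r * algebraMap _ K z := fun z => by
        rw [Algebra.smul_def, map_mul, ← IsScalarTower.algebraMap_apply]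
      have e2 : algebraMap (integralClosure R K) K ⟨_, hD r⟩ = D (algebraMap R K r) := rfl
      rw [map_add, e1, e1, map_mul, map_mul, e2, hx', D.leibniz, smul_eq_mul, smul_eq_mul]
      ring
  refine ⟨algebraMap _ K (c : integralClosure R K), (map_ne_zero_iff _ hinj).mpr hc0,
    fun v hv ha x hx => ?_⟩
  have h0 : ∀ a : integralClosure R K, v.Ge (algebraMap _ K a) 0 := fun a =>
    v.ge_of_isIntegral hv a.2
  let P : IsDedekindDomain.HeightOneSpectrum (integralClosure R K) :=
    { asIdeal :=
        { carrier := {a | v.Ge (algebraMap _ K a) 1}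
          add_mem' := fun ha hb => by simpa using Place.Ge.add ha hb
          zero_mem' := by simp
          smul_mem' := fun c a ha => by simpa using (h0 c).mul ha }
      isPrime := by
        refine ⟨fun h1 => ?_, fun {a b} hab => ?_⟩
        · have h2 : v.Ge (algebraMap (integralClosure R K) K 1) 1 :=
            (Ideal.eq_top_iff_one _).mp h1
          rw [map_one, Place.ge_iff one_ne_zero, Place.ord_one] at h2
          omega
        · by_contra hc
          obtain ⟨ha, hb⟩ := not_or.mp hc
          obtain ⟨a1, a2⟩ := Place.not_ge_iff.mp ha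
          obtain ⟨b1, b2⟩ := Place.not_ge_iff.mp hb
          have h3 : v.Ge (algebraMap _ K (a * b)) 1 := hab
          rw [map_mul, Place.ge_iff (mul_ne_zero a1 b1), v.ord_mul a1 b1] at h3
          omega
      ne_bot := by
        obtain ⟨a, a0, a1⟩ := ha
        intro h2
        have h3 : algebraMap R (integralClosure R K) a ∈ (⊥ : Ideal (integralClosure R K)) := by
          rw [← h2]
          exact a1
        exact a0 (congrArg Subtype.val (Ideal.mem_bot.mp h3)) }
  have hP : half_pl hK' P = v := inert_eq_half hK' P v h0 fun _ => Iff.rfl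
  rw [← hP] at hx ⊢
  exact half_der hK' D hc0 hcD P hx

variable (p) in
include p in
/-- constants are killed by every derivation -/
lemma ffd_const (D : Derivation ℤ K K) (c : k) : D (algebraMap k K c) = 0 := by
  have hp : p.Prime := Fact.out
  have hK : CharP K p := charP_of_injective_algebraMap (algebraMap k K).injective p
  obtain ⟨d, rfl⟩ := IsAlgClosed.exists_pow_nat_eq c hp.pos
  rw [map_pow, Derivation.leibniz_pow, nsmul_eq_mul, CharP.cast_eq_zero, zero_mul]

variable (p) in
include p in
/-- the chain rule -/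
lemma ffd_aeval (D : Derivation ℤ K K) (s : K) (f : k[X]) :
    D (aeval s f) = aeval s (derivative f) * D s := by
  induction f using Polynomial.induction_on' with
  | add a b ha hb => rw [map_add, map_add, map_add, map_add, ha, hb, add_mul]
  | monomial n c =>
    rw [derivative_monomial, aeval_monomial, aeval_monomial, D.leibniz, ffd_const p D c,
      Derivation.leibniz_pow, map_mul, map_natCast]
    simp only [smul_eq_mul, nsmul_eq_mul]
    ring

/-- polynomials in an integral element are integral -/
lemma ffd_ge_aeval (v : Place k K) {s : K} (hs : v.Ge s 0) (f : k[X]) : v.Ge (aeval s f) 0 :=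
  Place.ge_of_mem_adjoin (s := {s}) (by simpa using hs) (aeval_mem_adjoin_singleton k s)

/-- `MSys.der_ge` for a single place -/
lemma ffd_der_ge (D : Derivation ℤ K K) (v : Place k K) {c : ℤ}
    (h : ∀ x, v.Ge x 0 → v.Ge (D x) (-c)) (x : K) : v.Ge (D x) (v.ord x - 1 - c) := by
  by_cases hx : x = 0
  · simp [hx]
  obtain ⟨t, ht0, ht1⟩ := v.surj
  set n := v.ord x with hn
  have hz : t ^ n ≠ 0 := zpow_ne_zero _ ht0
  have he : v.Ge (x / t ^ n) 0 :=
    Place.Ge.of_le (by rw [v.ord_div hx hz, Place.ord_zpow, ht1]; omega)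
  have hxe : x = t ^ n * (x / t ^ n) := by field_simp
  have hint : v.Ge ((n : ℤ) : K) 0 := by
    have := v.ge_const ((n : ℤ) : k)
    rwa [map_intCast] at this
  have hD : D x = t ^ n * D (x / t ^ n) + x / t ^ n * ((n : K) * (t ^ (n - 1) * D t)) := by
    conv_lhs => rw [hxe]
    rw [Derivation.leibniz, Derivation.leibniz_zpow, smul_eq_mul, smul_eq_mul, smul_eq_mul,
      zsmul_eq_mul]
  have h1 : v.Ge (t ^ n) n := Place.Ge.of_le (by rw [Place.ord_zpow, ht1]; omega)
  have h2 : v.Ge (t ^ (n - 1)) (n - 1) :=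
    Place.Ge.of_le (by rw [Place.ord_zpow, ht1]; omega)
  have h3 := h t (Place.Ge.of_le (by omega))
  rw [hD]
  exact ((h1.mul (h _ he)).mono (by omega)).add
    ((he.mul (hint.mul (h2.mul h3))).mono (by omega))

variable (p) in
include p in
/-- `K` is finite separable over `k⟮s⟯` (`IsFF.sep_adjoin`, `IsFF.finite_adjoin`). Make `K` an
algebra over `RatFunc k` and `R = k[X]` with `X ↦ s` and copy the derivation part of `exists_half`
(`Half.lean`): `O = integralClosure R K`, `c * D O ⊆ O`. A place with `v.Ge s 0` is `half_pl` of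
the prime `{a | v.Ge a 1}` (`inert_eq_half`, compare `inert_prime`; it is nonzero since it contains
`s - c`, `Place.exists_res`); then `half_der`. -/
theorem IsFF.der_half {s : K} (hs : ¬ ∃ y, s = y ^ p) (D : Derivation ℤ K K)
    (hD : ∃ f : k[X], D s = aeval s f) : ∃ c : K, c ≠ 0 ∧ ∀ v : Place k K, v.Ge s 0 →
      ∀ x, v.Ge x 0 → v.Ge (D x) (-v.ord c) := by
  have ht : Transcendental k s := IsFF.transcendental p hs
  have h1 := IsFF.finite_adjoin ht
  have h2 := IsFF.sep_adjoin (k := k) p hs
  let e := RatFunc.algEquivOfTranscendental s ht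
  let _ : Algebra (RatFunc k) K :=
    ((algebraMap (IntermediateField.adjoin k {s}) K).comp e.toRingEquiv.toRingHom).toAlgebra
  have he : RingHom.comp (algebraMap (RatFunc k) K) ↑e.toRingEquiv.symm =
      RingHom.comp ↑(RingEquiv.refl K) (algebraMap (IntermediateField.adjoin k {s}) K) := by
    ext x
    exact congrArg (algebraMap (IntermediateField.adjoin k {s}) K) (e.apply_symm_apply x)
  have : FiniteDimensional (RatFunc k) K :=
    Module.Finite.of_equiv_equiv e.toRingEquiv.symm (RingEquiv.refl K) he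
  have : Algebra.IsSeparable (RatFunc k) K :=
    Algebra.IsSeparable.of_equiv_equiv e.toRingEquiv.symm (RingEquiv.refl K) he
  let _ : Algebra k[X] K := (aeval s : k[X] →ₐ[k] K).toRingHom.toAlgebra
  have hev : ∀ f : k[X], algebraMap k[X] K f = aeval s f := fun _ => rfl
  have : IsScalarTower k[X] (RatFunc k) K := IsScalarTower.of_algebraMap_eq fun f => by
    rw [hev]
    change _ = algebraMap (IntermediateField.adjoin k {s}) K (e (algebraMap k[X] (RatFunc k) f))
    rw [RatFunc.algEquivOfTranscendental_algebraMap, ← aeval_algebraMap_apply]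
    rfl
  obtain ⟨g, hg⟩ := hD
  obtain ⟨c, hc0, hc⟩ := ffd_half (k := k) (K := K) k[X] (RatFunc k)
    (fun c => by
      rw [← aeval_C s c, ← hev]
      exact isIntegral_algebraMap) D
    (fun a => by
      rw [hev, ffd_aeval p, hg, ← map_mul, ← hev]
      exact isIntegral_algebraMap)
  refine ⟨c, hc0, fun v hv => hc v (fun a => ffd_ge_aeval v hv a) ?_⟩
  obtain ⟨d, hd⟩ := v.exists_res hv
  have h3 : algebraMap k[X] K (X - C d) = s - algebraMap k K d := by simp [hev]
  refine ⟨X - C d, ?_, h3 ▸ hd⟩
  rw [h3, sub_ne_zero]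
  exact fun h => ht (h ▸ isAlgebraic_algebraMap d)

variable (k) in
/-- `IsFF.exists_der` and `der_half` for `s = t` and `s = t⁻¹` (`D t⁻¹ = - t⁻¹ ^ 2`);
`κ v = (max (ord c₁) (ord c₂)).toNat` has finite support by `IsFF.fin` -/
theorem IsFF.exists_ffd {t : K} (ht : ¬ ∃ y, t = y ^ p) : ∃ P : FFD k K p, P.D t = 1 := by
  obtain ⟨D, h1, h2⟩ := IsFF.exists_der k p ht
  have ht' : ¬ ∃ y, t⁻¹ = y ^ p := fun ⟨y, hy⟩ => ht ⟨y⁻¹, by rw [inv_pow, ← hy, inv_inv]⟩
  obtain ⟨c₁, -, hc₁⟩ := IsFF.der_half (k := k) p ht D ⟨1, by rw [h1, map_one]⟩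
  obtain ⟨c₂, -, hc₂⟩ := IsFF.der_half (k := k) p ht' D ⟨-X ^ 2, by
    rw [Derivation.leibniz_inv, h1]
    simp⟩
  refine ⟨⟨Finsupp.ofSupportFinite (fun v => (max (v.ord c₁) (v.ord c₂)).toNat)
    (((IsFF.fin p c₁).union (IsFF.fin p c₂)).subset fun v hv => ?_), D, fun v x hx => ?_, h2⟩, h1⟩
  · by_contra h
    simp only [Set.mem_union, Set.mem_ofPred_eq, not_or, not_not] at h
    exact hv (by simp only [h.1, h.2, max_self, Int.toNat_zero])
  · rw [Finsupp.ofSupportFinite_coe]
    by_cases h : v.Ge t 0
    · exact (hc₁ v h x hx).mono (by omega)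
    · have h3 := (Place.not_ge_iff.mp h).2
      exact (hc₂ v (Place.Ge.of_le (by rw [Place.ord_inv]; omega)) x hx).mono (by omega)

variable (p) in
include p in
/-- every derivation is continuous: `IsFF.exists_gen`, `exists_ffd`, `IsFF.der_eq`, and
`MSys.der_ge` for `P.toMSys k` -/
theorem IsFF.der_cont (D : Derivation ℤ K K) (v : Place k K) :
    ∃ c : ℤ, ∀ x m, v.Ge x m → v.Ge (D x) (m - c) := by
  obtain ⟨t, ht, -⟩ := IsFF.exists_gen k K p
  obtain ⟨P, hP⟩ := IsFF.exists_ffd k ht
  refine ⟨1 + P.κ v - v.ord (D t), fun x m hx => ?_⟩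
  by_cases h0 : x = 0
  · simp [h0]
  have h1 := hx.le h0
  rw [IsFF.der_eq k p D P.D hP x]
  exact ((v.ge_ord (D t)).mul (ffd_der_ge P.D v (P.der v) x)).mono (by omega)

end Pool.Agent.Lib.MP_6adaea_nt
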