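import Pool.Agent.Lib.MP_6adaea_nt.V.FFD

/-!
Elements fixed by inertia, and the defect of the derivation in a Galois extension.
-/

set_option linter.unusedSectionVars false

namespace Pool.Agent.Lib.MP_6adaea_nt
open Module Polynomial

variable {k K : Type} [Field k] [Field K] [Algebra k K] [IsAlgClosed k] [IsFF k K]
  (p : ℕ) [Fact p.Prime] [CharP k p]

theorem ram1_pow {N : Type} [Field N] [CharP N p] (D : Derivation ℤ N N) (y : N) :
    D (y ^ p) = 0 := by
  rw [D.leibniz_pow, nsmul_eq_mul, CharP.cast_eq_zero, zero_mul]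

theorem ram1_eval {N : Type} [Field N] (D : Derivation ℤ N N) (f : N[X]) (y : N) :
    D (f.eval y) = (∑ i ∈ f.support, y ^ i * D (f.coeff i)) + f.derivative.eval y * D y := by
  rw [eval_eq_sum, derivative_eval, Polynomial.sum, Polynomial.sum, map_sum, Finset.sum_mul,
    ← Finset.sum_add_distrib]
  refine Finset.sum_congr rfl fun i _ => ?_
  simp only [D.leibniz, D.leibniz_pow, smul_eq_mul, nsmul_eq_mul]
  ring

section fin
variable {N : Type} [Field N] [Algebra k N] [Algebra K N] [IsScalarTower k K N]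
  [FiniteDimensional K N] [IsGalois K N] {w : Place k N} {v : Place k K} {e : ℕ}

include p in
/-- Let `Z = fixedField (w.inertia K)`, `u` the place of `Z` below `w` (`Place.exists_under`) with
index `e'`. The inertia groups over `Z` and over `K` have the same cardinality, so `e' = e`
(`card_inertia`). So a uniformiser `π` of `v` is a uniformiser of `u`; `Place.exists_laurent`
for `u` (`IsFF.of_finite`). -/
theorem Place.Over.approx (h : w.Over v e) {x : N} (hx : ∀ σ ∈ w.inertia K, σ x = x) (n : ℤ) :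
    ∃ y : K, w.Ge (x - algebraMap K N y) n := by
  set Z := IntermediateField.fixedField (w.inertia K) with hZ
  have : IsScalarTower k Z N := IsScalarTower.of_algebraMap_eq fun _ => rfl
  have : IsFF k Z := IsFF.of_finite K Z
  have : CharP K p := charP_of_injective_algebraMap (algebraMap k K).injective p
  have : CharP Z p := charP_of_injective_algebraMap (algebraMap k Z).injective p
  obtain ⟨u, e', h'⟩ := Place.exists_under (L := Z) w
  have h1 : e ≤ e' := by
    rw [← card_inertia p (v.res_perfect p) h, ← card_inertia p (u.res_perfect p) h']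
    refine Nat.card_le_card_of_injective (fun σ => ⟨{ σ.1.toRingEquiv with
      commutes' := fun z => (IntermediateField.mem_fixedField_iff _ _).mp z.2 σ.1 σ.2 }, σ.2⟩)
      fun σ τ e => Subtype.ext (AlgEquiv.ext fun z => ?_)
    exact DFunLike.congr_fun (congrArg Subtype.val e) z
  obtain ⟨π, -, hπ⟩ := v.surj
  have h2 : u.ord (algebraMap K Z π) = 1 := by
    have h3 := h'.2 (algebraMap K Z π)
    rw [← IsScalarTower.algebraMap_apply, h.2, hπ, mul_one] at h3
    have h4 : (0 : ℤ) < e := by exact_mod_cast h.1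
    have h5 : (e : ℤ) ≤ e' := by exact_mod_cast h1
    refine le_antisymm ?_ ?_ <;> nlinarith
  obtain ⟨m, f, hf⟩ := u.exists_laurent h2 ⟨x, (IntermediateField.mem_fixedField_iff _ _).mpr hx⟩ |n|
  refine ⟨aeval π f / π ^ m, ?_⟩
  have h6 := h'.ge_iff.mpr hf
  rw [aeval_algebraMap_apply, ← map_pow, ← map_div₀, map_sub, ← IsScalarTower.algebraMap_apply] at h6
  refine h6.mono ((le_abs_self n).trans (le_mul_of_one_le_left (abs_nonneg n) ?_))
  exact_mod_cast h'.1

/-- `u - aeval ϖ f` has large order (`Place.exists_poly`), and `σ ϖ - ϖ` divides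
`aeval (σ ϖ) f - aeval ϖ f` (`Polynomial.sub_dvd_eval_sub`-type identity with integral quotient) -/
theorem Place.ge_sub_unif {σ : N ≃ₐ[K] N} (hσ : σ ∈ w.inertia K) {ϖ : N} (hϖ : w.ord ϖ = 1)
    {m : ℤ} (hm : w.Ge (σ ϖ - ϖ) m) {u : N} (hu : w.Ge u 0) : w.Ge (σ u - u) m := by
  have : IsFF k N := IsFF.of_finite K N
  have h0 : ∀ a ∈ ({ϖ} : Set N), w.Ge a 0 := fun a ha => Place.Ge.of_le (by rw [ha, hϖ]; omega)
  have h1 : ∀ a ∈ Algebra.adjoin k {ϖ}, w.Ge (σ a - a) m := fun a ha => by
    induction ha using Algebra.adjoin_induction with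
    | mem a ha => exact ha ▸ hm
    | algebraMap c => simp [IsScalarTower.algebraMap_apply k K N]
    | add a b _ _ ha hb => rw [map_add, add_sub_add_comm]; exact ha.add hb
    | mul a b h2 h3 ha hb =>
      have h4 := ((Place.ge_inertia hσ).mpr (Place.ge_of_mem_adjoin h0 h2)).mul hb
      have h5 := (Place.ge_of_mem_adjoin h0 h3).mul ha
      rw [zero_add] at h4 h5
      convert h4.add h5 using 1
      rw [map_mul]
      ring
  obtain ⟨f, -, hf⟩ := w.exists_poly hϖ hu m.toNat
  replace hf := hf.mono (m' := m) (by omega)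
  convert (((Place.ge_inertia hσ).mpr hf).sub hf).add (h1 _ (aeval_mem_adjoin_singleton k ϖ (p := f)))
    using 1
  rw [map_sub]
  ring

variable (k) in
include k p in
/-- a derivation extends to a finite separable extension: take `t` not a `p`-th power in `K`
(`IsFF.exists_gen`), it is not a `p`-th power in `N` (separability), `IsFF.exists_der` in `N`,
multiply by `D t`, compare on `K` as in `IsFF.der_eq`; `D t ≠ 0` since otherwise `D = 0` -/
theorem IsFF.exists_der_ext (D : Derivation ℤ K K) (hD : ∀ x, D x = 0 → ∃ y, x = y ^ p) :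
    ∃ D' : Derivation ℤ N N, (∀ x, D' (algebraMap K N x) = algebraMap K N (D x)) ∧
      ∀ x, D' x = 0 → ∃ y, x = y ^ p := by
  have : IsFF k N := IsFF.of_finite K N
  have : CharP K p := charP_of_injective_algebraMap (algebraMap k K).injective p
  have : CharP N p := charP_of_injective_algebraMap (algebraMap k N).injective p
  have : ExpChar K p := ExpChar.prime Fact.out
  obtain ⟨t, ht, hM⟩ := IsFF.exists_gen k K p
  have h1 : ¬ ∃ y, algebraMap K N t = y ^ p := by
    rintro ⟨y, hy⟩
    have h2 : y ∈ perfectClosure K N :=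
      (mem_perfectClosure_iff_pow_mem p).mpr ⟨1, t, by rw [pow_one, hy]⟩
    rw [perfectClosure.eq_bot_of_isSeparable] at h2
    obtain ⟨z, rfl⟩ := IntermediateField.mem_bot.mp h2
    exact ht ⟨z, (algebraMap K N).injective (by rw [hy, map_pow])⟩
  obtain ⟨D₀, h2, h3⟩ := IsFF.exists_der k p h1
  refine ⟨algebraMap K N (D t) • D₀, fun x => ?_, fun x hx => h3 x ?_⟩
  · let M : Subfield K :=
      { carrier := {x | algebraMap K N (D t) * D₀ (algebraMap K N x) = algebraMap K N (D x)}
        zero_mem' := by simp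
        one_mem' := by simp
        add_mem' := fun {a b} ha hb => by
          simp only [Set.mem_ofPred_eq, map_add, mul_add] at ha hb ⊢
          rw [ha, hb]
        neg_mem' := fun {a} ha => by simpa using ha
        mul_mem' := fun {a b} ha hb => by
          simp only [Set.mem_ofPred_eq, map_add, map_mul, Derivation.leibniz, smul_eq_mul] at ha hb ⊢
          rw [← ha, ← hb]
          ring
        inv_mem' := fun a ha => by
          simp only [Set.mem_ofPred_eq, map_inv₀, map_mul, Derivation.leibniz_inv, smul_eq_mul,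
            map_neg, map_pow] at ha ⊢
          rw [← ha]
          ring }
    have h4 : M = ⊤ := hM M (fun y => by
      change _ * D₀ _ = _
      rw [map_pow, ram1_pow, ram1_pow, map_zero, mul_zero]) (by
      change _ * D₀ _ = _
      rw [h2, mul_one])
    exact (h4 ▸ Subfield.mem_top x : x ∈ M)
  · exact (mul_eq_zero.mp hx).resolve_left ((_root_.map_ne_zero _).mpr fun e => ht (hD t e))

include p in
/-- Elements fixed by inertia: `Over.approx` and `IsFF.der_cont` give `w.Ge (D' z) (-e * c)` for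
integral `z`. Let `ϖ` be a uniformiser of `w`, `f = ∏_{σ ∈ I} (X - σ ϖ)`; its coefficients are
integral and fixed by `I`; `0 = D' (f ϖ) = f^D (ϖ) + f' (ϖ) * D' ϖ` with
`f' (ϖ) = ∏_{σ ≠ 1} (ϖ - σ ϖ)`, each factor nonzero of order `≤ b` by `ge_sub_unif`. For integral
`x` use `Place.exists_poly` and `IsFF.der_cont` (`D'` kills constants). -/
theorem Place.Over.der_bound (h : w.Over v e) (D : Derivation ℤ K K) (D' : Derivation ℤ N N)
    (hD : ∀ x, D' (algebraMap K N x) = algebraMap K N (D x)) {c b : ℕ}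
    (hc : ∀ x, v.Ge x 0 → v.Ge (D x) (-(c : ℤ)))
    (hb : ∀ σ ∈ w.inertia K, σ ≠ 1 → ∃ u, w.Ge u 0 ∧ ¬ w.Ge (σ u - u) (b + 1))
    (x : N) (hx : w.Ge x 0) : w.Ge (D' x) (-((e * c + e * b : ℕ) : ℤ)) := by
  classical
  have : IsFF k N := IsFF.of_finite K N
  have : CharP K p := charP_of_injective_algebraMap (algebraMap k K).injective p
  have : CharP N p := charP_of_injective_algebraMap (algebraMap k N).injective p
  have : Fintype (w.inertia K) := Fintype.ofFinite _
  obtain ⟨c₀, h0⟩ := IsFF.der_cont p D' w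
  have h1 : ∀ z, w.Ge z 0 → (∀ σ ∈ w.inertia K, σ z = z) → w.Ge (D' z) (e * -(c : ℤ)) := by
    intro z hz hσ
    obtain ⟨y, hy⟩ := h.approx p hσ |c₀|
    have h2 := hz.sub (hy.mono (abs_nonneg _))
    rw [sub_sub_cancel] at h2
    have h3 := ((h0 _ _ hy).mono (m' := e * -(c : ℤ)) (by
      have : (0 : ℤ) ≤ e * c := by positivity
      linarith [le_abs_self c₀])).add (h.ge_iff.mpr (hc y (h.ge_zero.mp h2)))
    rwa [map_sub, hD, sub_add_cancel] at h3
  obtain ⟨ϖ, -, hϖ⟩ := w.surj
  have h2 : w.Ge ϖ 0 := Place.Ge.of_le (by omega)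
  have h3 : ∀ n, w.Ge ((MulSemiringAction.charpoly (w.inertia K) ϖ).coeff n) 0 := fun n => by
    have : MulSemiringAction.charpoly (w.inertia K) ϖ = (∏ σ : w.inertia K, (X - C ⟨σ.1 ϖ,
        w.mem_O.mpr ((Place.ge_inertia σ.2).mpr h2)⟩ : w.O[X])).map w.O.subtype := by
      simp only [Polynomial.map_prod, Polynomial.map_sub, map_X, map_C]
      rfl
    rw [this, coeff_map]
    exact w.mem_O.mp (Subtype.prop _)
  have h4 : ∀ σ ∈ (Finset.univ : Finset (w.inertia K)).erase 1,
      ϖ - σ.1 ϖ ≠ 0 ∧ w.ord (ϖ - σ.1 ϖ) ≤ b := fun σ hσ => by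
    obtain ⟨u, hu, hu'⟩ := hb σ.1 σ.2 fun e => Finset.ne_of_mem_erase hσ (Subtype.ext e)
    have := Place.not_ge_iff.mp fun h : w.Ge (ϖ - σ.1 ϖ) (b + 1) =>
      hu' (Place.ge_sub_unif σ.2 hϖ (by simpa using h.neg) hu)
    exact ⟨this.1, by omega⟩
  have h5 : (MulSemiringAction.charpoly (w.inertia K) ϖ).derivative.eval ϖ =
      ∏ σ ∈ (Finset.univ : Finset (w.inertia K)).erase 1, (ϖ - σ.1 ϖ) := by
    rw [MulSemiringAction.charpoly_eq, ← Finset.mul_prod_erase _ _ (Finset.mem_univ 1), one_smul,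
      derivative_mul]
    simp only [derivative_X_sub_C, one_mul, eval_add, eval_mul, eval_sub, eval_X, eval_C, sub_self,
      zero_mul, add_zero, eval_prod]
    rfl
  have h6 : w.Ge (D' ϖ) (-((e * c + e * b : ℕ) : ℤ)) := by
    have h7 := ram1_eval D' (MulSemiringAction.charpoly (w.inertia K) ϖ) ϖ
    rw [MulSemiringAction.eval_charpoly, map_zero, h5, eq_comm, add_eq_zero_iff_neg_eq,
      mul_comm] at h7
    have h8 : w.Ge (D' ϖ * ∏ σ ∈ (Finset.univ : Finset (w.inertia K)).erase 1, (ϖ - σ.1 ϖ))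
        (e * -(c : ℤ)) := h7 ▸ Place.Ge.neg (Place.Ge.sum fun i _ => by
      simpa using (h2.pow i).mul (h1 _ (h3 i) fun σ hσ =>
        MulSemiringAction.smul_coeff_charpoly ϖ i (⟨σ, hσ⟩ : w.inertia K)))
    rw [Place.ge_mul_iff (Finset.prod_ne_zero_iff.mpr fun σ hσ => (h4 σ hσ).1),
      w.ord_prod _ _ fun σ hσ => (h4 σ hσ).1] at h8
    have h9 := Finset.sum_le_card_nsmul _ _ _ fun σ hσ => (h4 σ hσ).2
    have h10 : (((Finset.univ : Finset (w.inertia K)).erase 1).card : ℤ) ≤ e := by
      rw [← card_inertia p (v.res_perfect p) h, Nat.card_eq_fintype_card]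
      exact_mod_cast Finset.card_le_univ _
    refine h8.mono ?_
    rw [nsmul_eq_mul] at h9
    push_cast
    nlinarith [Int.natCast_nonneg b]
  have h7 : ∀ a ∈ Algebra.adjoin k {ϖ}, w.Ge (D' a) (-((e * c + e * b : ℕ) : ℤ)) := fun a ha => by
    have h8 : ∀ a ∈ ({ϖ} : Set N), w.Ge a 0 := fun a ha => ha ▸ h2
    induction ha using Algebra.adjoin_induction with
    | mem a ha => exact ha ▸ h6
    | algebraMap a =>
      obtain ⟨d, rfl⟩ := IsAlgClosed.exists_pow_nat_eq a (Fact.out : p.Prime).pos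
      simp
    | add a b _ _ ha hb => rw [map_add]; exact ha.add hb
    | mul a b h9 h10 ha hb =>
      have := (zero_add (-((e * c + e * _ : ℕ) : ℤ)) ▸ (Place.ge_of_mem_adjoin h8 h9).mul hb).add
        (zero_add (-((e * c + e * _ : ℕ) : ℤ)) ▸ (Place.ge_of_mem_adjoin h8 h10).mul ha)
      rwa [Derivation.leibniz]
  obtain ⟨f, -, hf⟩ := w.exists_poly hϖ hx c₀.toNat
  have h8 := ((h0 _ _ hf).mono (by omega)).add (h7 _ (aeval_mem_adjoin_singleton k ϖ (p := f)))
  rwa [map_sub, sub_add_cancel] at h8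

end fin

end Pool.Agent.Lib.MP_6adaea_nt
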