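import Pool.Agent.Lib.MP_6adaea_nt.V.Ext

/-!
Places below a rational valuation or below a place.
-/

set_option linter.unusedSectionVars false

namespace Pool.Agent.Lib.MP_6adaea_nt
open Module Polynomial

variable {k K E : Type} [Field k] [Field K] [Field E]

/-- a nontrivial valuation with bounded denominators is proportional to a place -/
theorem under_norm [Algebra k K] (U : QVal K) (hc : ∀ c : k, U.ord (algebraMap k K c) = 0) {M : ℕ}
    (hM : 0 < M) (hint : ∀ x, ∃ z : ℤ, M * U.ord x = z) (hne : ∃ x, U.ord x ≠ 0) :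
    ∃ (w : Place k K) (d : ℕ), 0 < d ∧ ∀ x, M * U.ord x = d * w.ord x := by
  have hM' : (0 : ℚ) < M := by exact_mod_cast hM
  let G : AddSubgroup ℤ :=
    { carrier := {z | ∃ x, x ≠ 0 ∧ M * U.ord x = z}
      zero_mem' := ⟨1, one_ne_zero, by simp⟩
      add_mem' := by
        rintro a b ⟨x, hx, ha⟩ ⟨y, hy, hb⟩
        exact ⟨x * y, mul_ne_zero hx hy, by rw [U.ord_mul hx hy, mul_add, ha, hb, Int.cast_add]⟩
      neg_mem' := by
        rintro a ⟨x, hx, ha⟩
        exact ⟨x⁻¹, inv_ne_zero hx, by rw [U.ord_inv, mul_neg, ha, Int.cast_neg]⟩ }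
  obtain ⟨a, ha⟩ := Int.subgroup_cyclic G
  have hd : ∀ x, ∃ z : ℤ, M * U.ord x = (a.natAbs : ℚ) * z := fun x => by
    by_cases hx : x = 0
    · exact ⟨0, by simp [hx]⟩
    obtain ⟨z, hz⟩ := hint x
    have h1 : z ∈ G := ⟨x, hx, hz⟩
    rw [ha, AddSubgroup.mem_closure_singleton] at h1
    obtain ⟨n, hn⟩ := h1
    obtain ⟨c, hc⟩ : (a.natAbs : ℤ) ∣ z := Int.natAbs_dvd.2 (Dvd.intro_left n hn)
    exact ⟨c, by rw [hz, hc, Int.cast_mul, Int.cast_natCast]⟩
  choose f hf using hd
  have h0 : 0 < a.natAbs := Nat.pos_of_ne_zero fun e => by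
    obtain ⟨x, hx⟩ := hne
    have := hf x
    rw [e, Nat.cast_zero, zero_mul] at this
    exact mul_ne_zero hM'.ne' hx this
  have h1 : (0 : ℚ) < a.natAbs := by exact_mod_cast h0
  have h2 : (a.natAbs : ℤ) ∈ G := by
    have : a ∈ G := ha ▸ AddSubgroup.mem_closure_singleton_self a
    rcases Int.natAbs_eq a with e | e
    · exact e ▸ this
    · rw [← neg_neg (a.natAbs : ℤ), ← e]
      exact G.neg_mem this
  have h3 : ∀ x, (f x : ℚ) = M / a.natAbs * U.ord x := fun x => by
    rw [div_mul_eq_mul_div, hf, mul_div_cancel_left₀ _ h1.ne']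
  have h4 : (0 : ℚ) ≤ M / a.natAbs := by positivity
  refine ⟨⟨f, ?_, fun {x y} hx hy => ?_, fun {x y} hx hy hxy => ?_, fun c => ?_, ?_⟩, a.natAbs, h0, hf⟩
  · have := h3 0
    rw [U.ord_zero, mul_zero] at this
    exact_mod_cast this
  · have := (U.scale _ h4).ord_mul hx hy
    simp only [QVal.scale_ord, ← h3] at this
    exact_mod_cast this
  · have := (U.scale _ h4).ord_add hx hy hxy
    simp only [QVal.scale_ord, ← h3] at this
    exact_mod_cast this
  · have := h3 (algebraMap k K c)
    rw [hc, mul_zero] at this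
    exact_mod_cast this
  · obtain ⟨x, hx, e⟩ := h2
    refine ⟨x, hx, ?_⟩
    rw [hf, Int.cast_natCast, mul_eq_left₀ h1.ne'] at e
    exact_mod_cast e

/-- The orders `[N : K]! * V.ord x` are integers (`exists_tors`); they form a subgroup of `ℤ`
(`Int.subgroup_cyclic`) with a positive generator `d` dividing `[N : K]!`; `e = [N : K]! / d`.
Constants have order zero by `QVal.Over.ord_const`. -/
theorem QVal.Over.exists_place (N : Type) [Field N] [Algebra k K] [Algebra K E] [Algebra k N]
    [Algebra K N] [Algebra N E] [IsScalarTower k K N] [IsScalarTower K N E] [FiniteDimensional K N]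
    {V : QVal E} {v : Place k K} (hV : V.Over v) : ∃ (w : Place k N) (e : ℕ), w.Over v e ∧
      ∀ x : N, (w.ord x : ℚ) = e * V.ord (algebraMap N E x) := by
  have hU : ∀ x : K, (V.comap (algebraMap N E)).ord (algebraMap K N x) = v.ord x := fun x => by
    rw [QVal.comap_ord, ← IsScalarTower.algebraMap_apply, hV]
  obtain ⟨t, -, ht⟩ := v.surj
  have hU' : (V.comap (algebraMap N E)).Over v := hU
  obtain ⟨w, d, hd, h⟩ := under_norm (k := k) (V.comap (algebraMap N E)) hU'.ord_const
    (Nat.factorial_pos (finrank K N)) (fun x => by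
      by_cases hx : x = 0
      · exact ⟨0, by simp [hx]⟩
      obtain ⟨n, y, h0, h1, -, h2⟩ := (V.comap (algebraMap N E)).exists_tors
        (Algebra.IsAlgebraic.isAlgebraic (R := K) x) hx
      obtain ⟨c, hc⟩ := Nat.dvd_factorial h0 (h1.trans (minpoly.natDegree_le x))
      refine ⟨c * v.ord y, ?_⟩
      rw [hc, Nat.cast_mul, mul_right_comm, h2, hU]
      push_cast
      ring) ⟨algebraMap K N t, by rw [hU, ht]; simp⟩
  have hd' : (0 : ℚ) < d := by exact_mod_cast hd
  have h1 := h (algebraMap K N t)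
  rw [hU, ht, Int.cast_one, mul_one] at h1
  have h2 : 0 < w.ord (algebraMap K N t) := by
    have : (0 : ℚ) < d * w.ord (algebraMap K N t) := by
      rw [← h1]
      exact_mod_cast Nat.factorial_pos _
    exact_mod_cast (mul_pos_iff_of_pos_left hd').1 this
  obtain ⟨e, he⟩ := Int.eq_ofNat_of_zero_le h2.le
  have h3 : ∀ x : N, (w.ord x : ℚ) = e * V.ord (algebraMap N E x) := fun x => by
    have := h x
    rw [h1, he, Int.cast_natCast, mul_assoc] at this
    exact (mul_left_cancel₀ hd'.ne' this).symm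
  refine ⟨w, e, ⟨by omega, fun x => ?_⟩, h3⟩
  have := h3 (algebraMap K N x)
  rw [← IsScalarTower.algebraMap_apply, hV] at this
  exact_mod_cast this

/-- The orders of nonzero elements of `L` form a subgroup of `ℤ`, nonzero by
`ord_eq_zero_of_isAlgebraic` for `w.toQ`; `e` is the positive generator. -/
theorem Place.exists_under {L : Type} [Field L] [Algebra k L] [Algebra k K] [Algebra L K]
    [IsScalarTower k L K] [Algebra.IsAlgebraic L K] (w : Place k K) :
    ∃ (v : Place k L) (e : ℕ), w.Over v e := by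
  obtain ⟨v, d, hd, h⟩ := under_norm (k := k) (w.toQ.comap (algebraMap L K))
    (fun c => by rw [QVal.comap_ord, ← IsScalarTower.algebraMap_apply, Place.toQ_ord, w.ord_const,
      Int.cast_zero]) one_pos (fun x => ⟨w.ord (algebraMap L K x), by simp⟩) (by
      by_contra hc
      obtain ⟨t, -, ht⟩ := w.surj
      have := w.toQ.ord_eq_zero_of_isAlgebraic (F := L) (fun c => not_not.1 fun e => hc ⟨c, e⟩)
        (Algebra.IsAlgebraic.isAlgebraic t)
      rw [Place.toQ_ord, ht] at this
      simp at this)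
  refine ⟨v, d, hd, fun x => ?_⟩
  have := h x
  rw [Nat.cast_one, one_mul, QVal.comap_ord, Place.toQ_ord] at this
  exact_mod_cast this

/-- `Place.eq_of_ge` with `Over.ge_zero`, `Over.ge_one` -/
theorem Place.Over.unique_under {L : Type} [Field L] [Algebra k L] [Algebra k K] [Algebra L K]
    [IsScalarTower k L K] {w : Place k K} {v v' : Place k L} {e e' : ℕ} (h : w.Over v e)
    (h' : w.Over v' e') : v = v' := by
  exact Place.eq_of_ge (fun x hx => h'.ge_zero.1 (h.ge_zero.2 hx)) fun x hx => h'.ge_one.1 (h.ge_one.2 hx)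

/-- extend `w` by `exists_qval` and rescale by `1 / e` -/
theorem Place.Over.exists_qval (E : Type) [Field E] {L : Type} [Field L] [Algebra k L]
    [Algebra k K] [Algebra L K] [IsScalarTower k L K] [Algebra K E] [Algebra L E]
    [IsScalarTower L K E] [Algebra.IsAlgebraic K E] {w : Place k K} {v : Place k L} {e : ℕ}
    (h : w.Over v e) : ∃ V : QVal E, V.Over v ∧
      ∀ x : K, (w.ord x : ℚ) = e * V.ord (algebraMap K E x) := by
  obtain ⟨V, hV⟩ := Pool.Agent.Lib.MP_6adaea_nt.exists_qval E w
  have he : (e : ℚ) ≠ 0 := by exact_mod_cast h.1.ne'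
  refine ⟨V.scale (e : ℚ)⁻¹ (by positivity), fun x => ?_, fun x => ?_⟩
  · rw [QVal.scale_ord, IsScalarTower.algebraMap_apply L K E, hV, h.2, Int.cast_mul, Int.cast_natCast,
      inv_mul_cancel_left₀ he]
  · rw [QVal.scale_ord, hV, mul_inv_cancel_left₀ he]

/-- restriction of the constants -/
def Place.restrict (k₀ : Type) [Field k₀] [Algebra k K] [Algebra k₀ k] [Algebra k₀ K]
    [IsScalarTower k₀ k K] (v : Place k K) : Place k₀ K where
  ord := v.ord
  ord_zero := v.ord_zero
  ord_mul := v.ord_mul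
  ord_add := v.ord_add
  ord_const c := by rw [IsScalarTower.algebraMap_apply k₀ k K, v.ord_const]
  surj := v.surj

@[simp] lemma Place.restrict_ord (k₀ : Type) [Field k₀] [Algebra k K] [Algebra k₀ k]
    [Algebra k₀ K] [IsScalarTower k₀ k K] (v : Place k K) (x : K) :
    (v.restrict k₀).ord x = v.ord x := rfl

/-- pull back of a place along an automorphism -/
def under_pull [Algebra k K] (γ : K ≃+* K) (a : k ≃+* k)
    (h : ∀ c, γ (algebraMap k K c) = algebraMap k K (a c)) (v : Place k K) : Place k K where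
  ord x := v.ord (γ x)
  ord_zero := by simp
  ord_mul hf hg := by rw [map_mul, v.ord_mul (by simpa using hf) (by simpa using hg)]
  ord_add {x y} hf hg hs := by
    rw [map_add]
    exact v.ord_add (by simpa using hf) (by simpa using hg) (by rwa [← map_add, _root_.map_ne_zero])
  ord_const c := by rw [h, v.ord_const]
  surj := by
    obtain ⟨t, h0, h1⟩ := v.surj
    exact ⟨γ.symm t, by simpa using h0, by simpa using h1⟩

/-- transport of places along an automorphism that preserves the constants -/
theorem Place.exists_perm [Algebra k K] (γ : K ≃+* K) (a : k ≃+* k)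
    (h : ∀ c, γ (algebraMap k K c) = algebraMap k K (a c)) :
    ∃ π : Equiv.Perm (Place k K), ∀ v x, (π v).ord (γ x) = v.ord x := by
  have h' : ∀ c, γ.symm (algebraMap k K c) = algebraMap k K (a.symm c) := fun c => by
    rw [RingEquiv.symm_apply_eq, h, RingEquiv.apply_symm_apply]
  refine ⟨⟨under_pull γ.symm a.symm h', under_pull γ a h, fun v => ?_, fun v => ?_⟩, fun v x => ?_⟩
  · ext x
    simp [under_pull]
  · ext x
    simp [under_pull]
  · simp [under_pull]

end Pool.Agent.Lib.MP_6adaea_nt
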